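import Pool.Agent.Helper93.SR.RatDefs
import Pool.Agent.Helper21.TR.EigDefs

/-!
Strong orthogonal Mumford-Tate pairs of weights zero and one, in matrix form.
-/

open Module

namespace MTPairs

variable {K : Type*} [Field K] {m : Type*} [Fintype m] [DecidableEq m]

/-- `G` is a Zariski closed group of similitudes of the symmetric bilinear form with Gram matrix
`J`, acting irreducibly on `K^m` and normalised by the group `Γ` of semilinear automorphisms of
`K^m`, and it is generated, as a Zariski closed group, by the conjugates under `Γ` and `G` of one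
cocharacter of `G` with weights `0` and `1`, given by the idempotent matrix `π`. -/
structure IsOrthPair (Γ : Subgroup (Equiv.Perm (m → K))) (J : Matrix m m K)
    (G : Subgroup (Matrix.GeneralLinearGroup m K)) (π : Matrix m m K) : Prop where
  symm : J.transpose = J
  det : J.det ≠ 0
  sim : ∀ g ∈ G, ∃ c : K, (g : Matrix m m K).transpose * J * (g : Matrix m m K) = c • J
  closed : ZariskiClosed G
  irr : ∀ U : Submodule K (m → K), (∀ g ∈ G, ∀ v ∈ U, (g : Matrix m m K).mulVec v ∈ U) →
    U = ⊥ ∨ U = ⊤
  semi : ∀ θ ∈ Γ, IsSemilinear θ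
  norm : ∀ θ ∈ Γ, ∀ g ∈ G, ∃ g' ∈ G, ∀ v : m → K,
    (g' : Matrix m m K).mulVec (θ v) = θ ((g : Matrix m m K).mulVec v)
  coch : IsCochar G π
  gen : ∀ H : Subgroup (Matrix.GeneralLinearGroup m K), ZariskiClosed H →
    (∀ P, IsConj Γ G π P → IsCochar H P) → G ≤ H

/-- `G` contains the special orthogonal group of the form with Gram matrix `J`. -/
def ContainsSO (J : Matrix m m K) (G : Subgroup (Matrix.GeneralLinearGroup m K)) : Prop :=
  ∀ g : Matrix.GeneralLinearGroup m K,
    (g : Matrix m m K).transpose * J * (g : Matrix m m K) = J →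
    (g : Matrix m m K).det = 1 → g ∈ G

end MTPairs
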