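import Pool.Agent.Helper93.SR.NormC
import Pool.Agent.Helper88.OR.Defs

/-!
Strong orthogonal Mumford-Tate pairs: conjugates of the cocharacter and normalisers of subspaces
(the proofs are those of helper93 for symplectic pairs).
-/

set_option linter.unusedSimpArgs false
set_option linter.unusedSectionVars false

open Module MTPairs

namespace OR

open MTP

variable {K : Type*} [Field K] {m : Type*} [Fintype m] [DecidableEq m]
variable {Γ : Subgroup (Equiv.Perm (m → K))} {J : Matrix m m K}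
  {G : Subgroup (Matrix.GeneralLinearGroup m K)} {π : Matrix m m K}

lemma exists_isConj (D : IsOrthPair Γ J G π) {θ : Equiv.Perm (m → K)} (hθ : θ ∈ Γ)
    (g : Matrix.GeneralLinearGroup m K) : ∃ P : Matrix m m K, ∀ v : m → K,
    P.mulVec ((g : Matrix m m K).mulVec (θ v)) = (g : Matrix m m K).mulVec (θ (π.mulVec v)) := by
  obtain ⟨σ, hadd, hσ⟩ := D.semi θ hθ
  have hσ' : ∀ (c : K) (v : m → K), θ⁻¹ (c • v) = σ.symm c • θ⁻¹ v := by
    intro c v
    apply θ.injective
    rw [hσ, perm_apply_inv, perm_apply_inv, RingEquiv.apply_symm_apply]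
  have hadd' : ∀ (v w : m → K), θ⁻¹ (v + w) = θ⁻¹ v + θ⁻¹ w := by
    intro v w
    apply θ.injective
    rw [hadd, perm_apply_inv, perm_apply_inv, perm_apply_inv]
  let f : (m → K) →ₗ[K] (m → K) :=
    { toFun := fun w => (g : Matrix m m K).mulVec (θ (π.mulVec
        (θ⁻¹ (((g⁻¹ : Matrix.GeneralLinearGroup m K) : Matrix m m K).mulVec w))))
      map_add' := by
        intro v w
        rw [Matrix.mulVec_add, hadd', Matrix.mulVec_add, hadd, Matrix.mulVec_add]
      map_smul' := by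
        intro c v
        rw [Matrix.mulVec_smul, hσ', Matrix.mulVec_smul, hσ, RingEquiv.apply_symm_apply,
          Matrix.mulVec_smul]
        rfl }
  refine ⟨LinearMap.toMatrix' f, fun v => ?_⟩
  rw [← Matrix.toLin'_apply, Matrix.toLin'_toMatrix']
  change (g : Matrix m m K).mulVec (θ (π.mulVec
        (θ⁻¹ (((g⁻¹ : Matrix.GeneralLinearGroup m K) : Matrix m m K).mulVec
          ((g : Matrix m m K).mulVec (θ v)))))) = _
  rw [Matrix.mulVec_mulVec, GL_inv_mul, Matrix.one_mulVec, perm_inv_apply]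

lemma smat_cochar (D : IsOrthPair Γ J G π) {P : Matrix m m K} (hP : IsConj Γ G π P) :
    IsCochar G P := by
  obtain ⟨hπ, ht⟩ := D.coch
  obtain ⟨θ, hθ, g, hg, hP⟩ := hP
  obtain ⟨σ, hadd, hσ⟩ := D.semi θ hθ
  have hsub : ∀ (v w : m → K), θ (v - w) = θ v - θ w := by
    intro v w
    rw [eq_sub_iff_add_eq, ← hadd, sub_add_cancel]
  constructor
  · apply mat_ext
    intro w
    obtain ⟨v, rfl⟩ := gth_surj θ g w
    rw [← Matrix.mulVec_mulVec, hP, hP, Matrix.mulVec_mulVec, hπ]
  · intro t ht0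
    obtain ⟨h, hh, hht⟩ := ht (σ.symm t) (by
      intro h0
      apply ht0
      have := congrArg σ h0
      simpa using this)
    obtain ⟨h', hh', hθh⟩ := D.norm θ hθ h hh
    refine ⟨g * h' * g⁻¹, G.mul_mem (G.mul_mem hg hh') (G.inv_mem hg), ?_⟩
    apply mat_ext
    intro w
    obtain ⟨v, rfl⟩ := gth_surj θ g w
    rw [Units.val_mul, Units.val_mul, ← Matrix.mulVec_mulVec, Matrix.mulVec_mulVec _
      (((g⁻¹ : Matrix.GeneralLinearGroup m K) : Matrix m m K)), GL_inv_mul, Matrix.one_mulVec,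
      ← Matrix.mulVec_mulVec, hθh, hht, Matrix.add_mulVec, Matrix.sub_mulVec, Matrix.smul_mulVec,
      Matrix.one_mulVec, hadd, hsub, hσ, RingEquiv.apply_symm_apply, Matrix.mulVec_add,
      Matrix.mulVec_smul, Matrix.mulVec_sub, Matrix.add_mulVec, Matrix.sub_mulVec,
      Matrix.smul_mulVec, Matrix.one_mulVec, hP]

/-- Subspaces of matrices normalised by the conjugates of the cocharacter are normalised by the
whole group. -/
lemma smat_normal (D : IsOrthPair Γ J G π) (N : Submodule K (Matrix m m K))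
    (hN : ∀ P, IsConj Γ G π P → ∀ t : K, t ≠ 0 → ∀ h ∈ G,
      (h : Matrix m m K) = t • P + (1 - P) → ∀ X ∈ N, (h : Matrix m m K) * X *
        ((h⁻¹ : Matrix.GeneralLinearGroup m K) : Matrix m m K) ∈ N)
    {g : Matrix.GeneralLinearGroup m K} (hg : g ∈ G) {X : Matrix m m K} (hX : X ∈ N) :
    (g : Matrix m m K) * X * ((g⁻¹ : Matrix.GeneralLinearGroup m K) : Matrix m m K) ∈ N := by
  have hclosed : ZariskiClosed (G ⊓ Nrm N) :=
    closed_normaliser G (G ⊓ Nrm N) D.closed N fun g => Iff.rfl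
  have hGH := D.gen _ hclosed (by
    intro P hP
    obtain ⟨h1, h2⟩ := smat_cochar D hP
    refine ⟨h1, fun t ht => ?_⟩
    obtain ⟨h, hh, hht⟩ := h2 t ht
    exact ⟨h, ⟨hh, hN P hP t ht h hh hht⟩, hht⟩)
  exact (hGH hg).2 X hX

end OR
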