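import Pool.Agent.Helper93.SR.Str

/-!
Groups of orthogonal similitudes generated by the conjugates, under the group and under a set of
semilinear symmetries, of one cocharacter of weights zero and one: abstract form (the proofs are
those of helper93 for symplectic similitudes).
-/

set_option linter.unusedSimpArgs false
set_option linter.unusedSectionVars false
set_option linter.unusedVariables false

open Module

namespace OR

open MTP

variable {K : Type*} [Field K] {V : Type*} [AddCommGroup V] [Module K V] [FiniteDimensional K V]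

/-- The hypotheses of the group theorem, in abstract form. -/
structure Str (ω : LinearMap.BilinForm K V) (G : Set (Module.End K V))
    (T : Set (Module.End K V ≃+* Module.End K V)) (p0 : Module.End K V) : Prop where
  nt : Nontrivial V
  nd : ω.Nondegenerate
  one : 1 ∈ G
  mul : ∀ g ∈ G, ∀ h ∈ G, g * h ∈ G
  inv : ∀ g ∈ G, ∃ h ∈ G, g * h = 1 ∧ h * g = 1
  sim : ∀ g ∈ G, ∃ c : K, ∀ v w, ω (g v) (g w) = c * ω v w
  irr : ∀ W : Submodule K V, (∀ g ∈ G, ∀ w ∈ W, g w ∈ W) → W = ⊥ ∨ W = ⊤
  semi : ∀ τ ∈ T, ∃ σ : K ≃+* K, ∀ (c : K) (x : Module.End K V), τ (c • x) = σ c • τ x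
  rk : ∀ τ ∈ T, ∀ x, MTP.rk (τ x) = MTP.rk x
  tone : RingEquiv.refl _ ∈ T
  tmul : ∀ τ ∈ T, ∀ τ' ∈ T, τ'.trans τ ∈ T
  tinv : ∀ τ ∈ T, τ.symm ∈ T
  tgrp : ∀ τ ∈ T, ∀ g ∈ G, τ g ∈ G
  idem : p0 * p0 = p0
  cpt : ∀ p ∈ SC G T p0, ∀ t : K, t ≠ 0 → 1 + (t - 1) • p ∈ G
  genA : ∀ M : Subalgebra K (Module.End K V), (∀ p ∈ SC G T p0, p ∈ M) → ∀ g ∈ G, g ∈ M
  genB : ∀ M : Submodule K (Module.End K V),
    (∀ p ∈ SC G T p0, ∀ t : K, t ≠ 0 → ∀ x ∈ M,
      (1 + (t - 1) • p) * x * (1 + (t⁻¹ - 1) • p) ∈ M) →
    ∀ g ∈ G, ∀ h ∈ G, g * h = 1 → h * g = 1 → ∀ x ∈ M, g * x * h ∈ M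

namespace Str
variable {ω : LinearMap.BilinForm K V} {G : Set (Module.End K V)}
  {T : Set (Module.End K V ≃+* Module.End K V)} {p0 : Module.End K V} (D : Str ω G T p0)
include D

lemma exists_ne_form : ∃ v w, ω v w ≠ 0 := by
  have := D.nt
  obtain ⟨v, hv⟩ := exists_ne (0 : V)
  by_contra hcon
  push Not at hcon
  exact hv (D.nd.1 v (hcon v))

lemma c1 {p : Module.End K V} (hp : p ∈ SC G T p0) : p * p = p := by
  obtain ⟨τ, hτ, g, hg, h, hh, hgh, hhg, rfl⟩ := hp
  have h1 : τ p0 * τ p0 = τ p0 := by rw [← map_mul, D.idem]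
  calc g * τ p0 * h * (g * τ p0 * h) = g * τ p0 * (h * g) * τ p0 * h := by
        simp only [mul_assoc]
    _ = g * (τ p0 * τ p0) * h := by rw [hhg, mul_one]; simp only [mul_assoc]
    _ = _ := by rw [h1]

/-- Trichotomy. -/
lemma c2 [CharZero K] {p : Module.End K V} (hp : p ∈ SC G T p0) :
    IsSk ω ((2 : K) • p - 1) ∨ p = 0 ∨ p = 1 := by
  have hpp := D.c1 hp
  obtain ⟨c, hc⟩ := D.sim _ (D.cpt p hp 2 two_ne_zero)
  have e : (1 + ((2 : K) - 1) • p) = 1 + p := by norm_num
  rw [e] at hc
  have h4 := four hpp hc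
  have hnd := D.nd
  by_cases c2 : c = 2
  · left
    intro v w
    obtain ⟨a1, -, -, a4⟩ := h4 v w
    have b1 : ω (p v) (p w) = 0 := by
      rw [c2] at a1; exact (mul_eq_zero.mp a1).resolve_left (by norm_num)
    have b4 : ω (v - p v) (w - p w) = 0 := by
      rw [c2] at a4; exact (mul_eq_zero.mp a4).resolve_left (by norm_num)
    simp only [map_sub, LinearMap.sub_apply, LinearMap.smul_apply, map_smul,
      Module.End.one_apply, smul_eq_mul] at b1 b4 ⊢
    linear_combination 2 * b1 - 2 * b4
  · right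
    have b2 : ∀ v w, ω (p v) (w - p w) = 0 := fun v w =>
      (mul_eq_zero.mp (h4 v w).2.1).resolve_left (sub_ne_zero.mpr c2)
    have b3 : ∀ v w, ω (v - p v) (p w) = 0 := fun v w =>
      (mul_eq_zero.mp (h4 v w).2.2.1).resolve_left (sub_ne_zero.mpr c2)
    by_cases c4 : c = 4
    · right
      apply LinearMap.ext
      intro v
      have b4 : ∀ w, ω (v - p v) (w - p w) = 0 := by
        intro w
        have := (h4 v w).2.2.2
        rw [c4] at this
        exact (mul_eq_zero.mp this).resolve_left (by norm_num)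
      have : v - p v = 0 := by
        apply hnd.1
        intro w
        have e : w = p w + (w - p w) := by abel
        rw [e, map_add, b3, b4, add_zero]
      rw [sub_eq_zero] at this
      exact this.symm
    · left
      apply LinearMap.ext
      intro v
      have b1 : ∀ v w, ω (p v) (p w) = 0 := fun v w =>
        (mul_eq_zero.mp (h4 v w).1).resolve_left (sub_ne_zero.mpr c4)
      have : p v = 0 := by
        apply hnd.1
        intro w
        have e : w = p w + (w - p w) := by abel
        rw [e, map_add, b1, b2, add_zero]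
      exact this

lemma c3 {p : Module.End K V} (hp : p ∈ SC G T p0) {a b : Module.End K V} (ha : a ∈ G)
    (hb : b ∈ G) (hab : a * b = 1) (hba : b * a = 1) : a * p * b ∈ SC G T p0 := by
  obtain ⟨τ, hτ, g, hg, h, hh, hgh, hhg, rfl⟩ := hp
  refine ⟨τ, hτ, a * g, D.mul _ ha _ hg, h * b, D.mul _ hh _ hb, ?_, ?_, ?_⟩
  · calc a * g * (h * b) = a * (g * h) * b := by simp only [mul_assoc]
      _ = 1 := by rw [hgh, mul_one, hab]
  · calc h * b * (a * g) = h * (b * a) * g := by simp only [mul_assoc]
      _ = 1 := by rw [hba, mul_one, hhg]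
  · simp only [mul_assoc]

lemma c4 {p : Module.End K V} (hp : p ∈ SC G T p0) {τ' : Module.End K V ≃+* Module.End K V}
    (hτ' : τ' ∈ T) : τ' p ∈ SC G T p0 := by
  obtain ⟨τ, hτ, g, hg, h, hh, hgh, hhg, rfl⟩ := hp
  refine ⟨τ.trans τ', D.tmul _ hτ' _ hτ, τ' g, D.tgrp _ hτ' _ hg, τ' h, D.tgrp _ hτ' _ hh,
    ?_, ?_, ?_⟩
  · rw [← map_mul, hgh, map_one]
  · rw [← map_mul, hhg, map_one]
  · rw [map_mul, map_mul]; rfl

lemma sk_ne_zero [CharZero K] {p : Module.End K V} (hp : IsSk ω ((2 : K) • p - 1)) :
    p ≠ 0 ∧ p ≠ 1 := by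
  obtain ⟨v, w, hw⟩ := D.exists_ne_form
  constructor
  · rintro rfl
    have := hp v w
    simp only [smul_zero, zero_sub, LinearMap.neg_apply, Module.End.one_apply, map_neg] at this
    have h2 : (2 : K) * ω v w = 0 := by linear_combination -this
    exact hw ((mul_eq_zero.mp h2).resolve_left two_ne_zero)
  · rintro rfl
    have := hp v w
    have e : (2 : K) • (1 : Module.End K V) - 1 = 1 := by module
    rw [e] at this
    simp only [Module.End.one_apply] at this
    have h2 : (2 : K) * ω v w = 0 := by linear_combination this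
    exact hw ((mul_eq_zero.mp h2).resolve_left two_ne_zero)

lemma sk_of [CharZero K] {p : Module.End K V} (hp : p ∈ SC G T p0) (h0 : p ≠ 0)
    (h1 : p ≠ 1) : IsSk ω ((2 : K) • p - 1) := by
  rcases D.c2 hp with h | h | h
  · exact h
  · exact absurd h h0
  · exact absurd h h1

lemma si_conj [CharZero K] {s : Module.End K V} (hs : s ∈ SI ω G T p0) {a b : Module.End K V}
    (ha : a ∈ G) (hb : b ∈ G) (hab : a * b = 1) (hba : b * a = 1) :
    a * s * b ∈ SI ω G T p0 := by
  obtain ⟨p, hp, hsk, rfl⟩ := hs
  obtain ⟨h0, h1⟩ := D.sk_ne_zero hsk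
  have e : p = b * (a * p * b) * a := by
    calc p = 1 * p * 1 := by simp
      _ = (b * a) * p * (b * a) := by rw [hba]
      _ = _ := by simp only [mul_assoc]
  refine ⟨a * p * b, D.c3 hp ha hb hab hba, D.sk_of (D.c3 hp ha hb hab hba) ?_ ?_, ?_⟩
  · intro h2; apply h0; rw [e, h2]; simp
  · intro h2; apply h1; rw [e, h2, mul_one, hba]
  · rw [mul_sub, sub_mul, mul_one, hab, mul_smul_comm, smul_mul_assoc]

lemma si_tw [CharZero K] {s : Module.End K V} (hs : s ∈ SI ω G T p0)
    {τ : Module.End K V ≃+* Module.End K V} (hτ : τ ∈ T) : τ s ∈ SI ω G T p0 := by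
  obtain ⟨p, hp, hsk, rfl⟩ := hs
  obtain ⟨h0, h1⟩ := D.sk_ne_zero hsk
  obtain ⟨σ, hσ⟩ := D.semi τ hτ
  refine ⟨τ p, D.c4 hp hτ, D.sk_of (D.c4 hp hτ) ?_ ?_, ?_⟩
  · intro h2; apply h0; apply τ.injective; rw [h2, map_zero]
  · intro h2; apply h1; apply τ.injective; rw [h2, map_one]
  · rw [map_sub, map_one, hσ]
    congr 2
    exact map_ofNat σ 2

lemma si_sq {s : Module.End K V} (hs : s ∈ SI ω G T p0) : s * s = 1 := by
  obtain ⟨p, hp, hsk, rfl⟩ := hs
  have h1 := D.c1 hp
  simp only [sub_mul, mul_sub, smul_mul_assoc, mul_smul_comm, h1, mul_one, one_mul]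
  module

/-- The Lie algebra is irreducible and generated by involutions. -/
lemma ctx [CharZero K] : Ctx ω (SL ω G T p0) (SI ω G T p0) where
  irr := by
    refine ⟨fun x hx y hy => lieGen_comm hx hy, ?_, ?_⟩
    · intro x hx
      let M : Submodule K (Module.End K V) :=
        { carrier := {x | IsSk ω x}
          add_mem' := by
            intro x y hx hy v w
            rw [LinearMap.add_apply, LinearMap.add_apply, map_add, map_add,
              LinearMap.add_apply, hx v w, hy v w]
            ring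
          zero_mem' := by intro v w; simp
          smul_mem' := by
            intro c x hx v w
            rw [LinearMap.smul_apply, LinearMap.smul_apply, map_smul, map_smul,
              LinearMap.smul_apply, hx v w, smul_eq_mul, smul_eq_mul]
            ring }
      have : SL ω G T p0 ≤ M := by
        apply lieGen_le
        · intro x hx y hy v w
          have h1 : IsSk ω x := hx
          have h2 : IsSk ω y := hy
          simp only [LinearMap.sub_apply, Module.End.mul_apply, map_sub]
          rw [h1, h2, h2, h1]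
          ring
        · rintro s ⟨p, hp, hsk, rfl⟩
          exact hsk
      exact this hx
    · intro W hW
      apply D.irr W
      let M : Subalgebra K (Module.End K V) :=
        { carrier := {x | ∀ w ∈ W, x w ∈ W}
          mul_mem' := by
            intro x y hx hy w hw
            exact hx _ (hy w hw)
          one_mem' := by intro w hw; exact hw
          add_mem' := by
            intro x y hx hy w hw
            exact W.add_mem (hx w hw) (hy w hw)
          zero_mem' := by intro w hw; exact W.zero_mem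
          algebraMap_mem' := by
            intro c w hw
            exact W.smul_mem c hw }
      have hM : ∀ p ∈ SC G T p0, p ∈ M := by
        intro p hp w hw
        rcases D.c2 hp with hsk | h | h
        · have h1 := hW _ (subset_lieGen _ ⟨p, hp, hsk, rfl⟩) w hw
          have h2 : ((2 : K) • p - 1) w = (2 : K) • p w - w := rfl
          rw [h2] at h1
          have h3 := W.smul_mem (2 : K)⁻¹ (W.add_mem h1 hw)
          rwa [sub_add_cancel, smul_smul, inv_mul_cancel₀ two_ne_zero, one_smul] at h3
        · rw [h]; exact W.zero_mem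
        · rw [h]; exact hw
      intro g hg
      exact D.genA M hM g hg
  nd := D.nd
  inv := fun s hs => ⟨subset_lieGen _ hs, D.si_sq hs⟩
  gen := fun M h1 h2 => lieGen_le h1 h2

/-- `G` normalises the Lie algebra. -/
lemma lie_conj [CharZero K] {a b : Module.End K V} (ha : a ∈ G) (hb : b ∈ G) (hab : a * b = 1)
    (hba : b * a = 1) {x : Module.End K V} (hx : x ∈ SL ω G T p0) :
    a * x * b ∈ SL ω G T p0 := by
  let M : Submodule K (Module.End K V) :=
    { carrier := {x | a * x * b ∈ SL ω G T p0}
      add_mem' := by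
        intro x y hx hy
        rw [Set.mem_ofPred_eq] at *
        rw [mul_add, add_mul]; exact Submodule.add_mem _ hx hy
      zero_mem' := by simp
      smul_mem' := by
        intro c x hx
        rw [Set.mem_ofPred_eq] at *
        rw [mul_smul_comm, smul_mul_assoc]; exact Submodule.smul_mem _ _ hx }
  have : SL ω G T p0 ≤ M := by
    apply lieGen_le
    · intro x hx y hy
      have hx' : a * x * b ∈ SL ω G T p0 := hx
      have hy' : a * y * b ∈ SL ω G T p0 := hy
      have h1 := lieGen_comm hx' hy'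
      change a * (x * y - y * x) * b ∈ SL ω G T p0
      have e : a * x * b * (a * y * b) - a * y * b * (a * x * b) = a * (x * y - y * x) * b := by
        calc a * x * b * (a * y * b) - a * y * b * (a * x * b)
            = a * x * (b * a) * y * b - a * y * (b * a) * x * b := by simp only [mul_assoc]
          _ = _ := by rw [hba, mul_sub, sub_mul]; simp only [mul_one, mul_assoc]
      rw [e] at h1
      exact h1
    · intro s hs
      exact subset_lieGen _ (D.si_conj hs ha hb hab hba)
  exact this hx

/-- The symmetries preserve the Lie algebra. -/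
lemma lie_tw [CharZero K] {τ : Module.End K V ≃+* Module.End K V} (hτ : τ ∈ T)
    {x : Module.End K V} (hx : x ∈ SL ω G T p0) : τ x ∈ SL ω G T p0 := by
  obtain ⟨σ, hσ⟩ := D.semi τ hτ
  let M : Submodule K (Module.End K V) :=
    { carrier := {x | τ x ∈ SL ω G T p0}
      add_mem' := by
        intro x y hx hy
        rw [Set.mem_ofPred_eq] at *
        rw [map_add]; exact Submodule.add_mem _ hx hy
      zero_mem' := by simp
      smul_mem' := by
        intro c x hx
        rw [Set.mem_ofPred_eq] at *
        rw [hσ]; exact Submodule.smul_mem _ _ hx }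
  have : SL ω G T p0 ≤ M := by
    apply lieGen_le
    · intro x hx y hy
      have hx' : τ x ∈ SL ω G T p0 := hx
      have hy' : τ y ∈ SL ω G T p0 := hy
      have h1 := lieGen_comm hx' hy'
      change τ (x * y - y * x) ∈ SL ω G T p0
      rw [map_sub, map_mul, map_mul]
      exact h1
    · intro s hs
      exact subset_lieGen _ (D.si_tw hs hτ)
  exact this hx

lemma isTw [CharZero K] {τ : Module.End K V ≃+* Module.End K V} (hτ : τ ∈ T) :
    Tw (SL ω G T p0) τ where
  semi := D.semi τ hτ
  rk := D.rk τ hτ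
  mem := by
    intro x
    constructor
    · intro h
      have h1 := D.lie_tw (D.tinv τ hτ) h
      rwa [RingEquiv.symm_apply_apply] at h1
    · exact fun h => D.lie_tw hτ h

/-- The nilpotent part of a quadratic unipotent element of `G` lies in the Lie algebra. -/
lemma quad_mem [IsAlgClosed K] [CharZero K] {u : Module.End K V} (hu : u ∈ G)
    (hN : (u - 1) * (u - 1) = 0) : u - 1 ∈ SL ω G T p0 := by
  have C := D.ctx
  obtain ⟨u', hu', huu, huu'⟩ := D.inv u hu
  set N := u - 1 with hNdef
  have huN : u = 1 + N := by rw [hNdef]; abel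
  have huN' : u' = 1 - N := by
    have e2 : u * (1 - N) = 1 := by
      have e3 : (1 + N) * (1 - N) = 1 - N * N := by
        simp only [mul_sub, add_mul, mul_one, one_mul]; abel
      rw [huN, e3, hN, sub_zero]
    calc u' = u' * (u * (1 - N)) := by rw [e2, mul_one]
      _ = _ := by rw [← mul_assoc, huu', one_mul]
  obtain ⟨c, hc⟩ := D.sim u hu
  obtain ⟨c', hc'⟩ := D.sim u' hu'
  have hcc : c * c' = 1 := by
    obtain ⟨v, w, hw⟩ := D.exists_ne_form
    have h1 : ∀ x, u (u' x) = x := fun x => LinearMap.congr_fun huu x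
    have e1 := hc (u' v) (u' w)
    rw [h1, h1, hc'] at e1
    have e2 : (c * c' - 1) * ω v w = 0 := by linear_combination -e1
    have e3 := (mul_eq_zero.mp e2).resolve_right hw
    linear_combination e3
  have hsk : IsSk ω N := by
    apply quad_skew hN (c := c) (c' := c') _ _ hcc D.nd
    · intro v w; rw [← huN]; exact hc v w
    · intro v w; rw [← huN']; exact hc' v w
  apply C.irr.mem_of_normalize C.nd hsk
  intro x hx
  have h1 := D.lie_conj hu hu' huu huu' hx
  have h2 := D.lie_conj hu' hu huu' huu hx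
  rw [huN', huN] at h1 h2
  have h3 := (SL ω G T p0).smul_mem (2 : K)⁻¹ ((SL ω G T p0).sub_mem h1 h2)
  have e : (1 + N) * x * (1 - N) - (1 - N) * x * (1 + N) =
      (2 : K) • (N * x - x * N) := by
    have : (1 + N) * x * (1 - N) - (1 - N) * x * (1 + N) =
      (N * x - x * N) + (N * x - x * N) := by
      simp only [mul_sub, sub_mul, mul_add, add_mul, mul_one, one_mul, mul_assoc]; abel
    rw [this, two_smul]
  rw [e, smul_smul, inv_mul_cancel₀ two_ne_zero, one_smul] at h3
  exact h3

/-- Ideals of the Lie algebra are stable under `G`. -/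
lemma id_conj [CharZero K] {M : Submodule K (Module.End K V)} (hM : IsId (SL ω G T p0) M)
    {g h : Module.End K V} (hg : g ∈ G) (hh : h ∈ G) (hgh : g * h = 1) (hhg : h * g = 1)
    {x : Module.End K V} (hx : x ∈ M) : g * x * h ∈ M := by
  refine D.genB M ?_ g hg h hh hgh hhg x hx
  intro p hp t ht x hx
  rcases D.c2 hp with hsk | rfl | rfl
  · have hs : (2 : K) • p - 1 ∈ SL ω G T p0 := subset_lieGen _ ⟨p, hp, hsk, rfl⟩
    have hpp := D.c1 hp
    have key : ∀ y ∈ M, p * y - y * p ∈ M := by
      intro y hy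
      have h1 := hM.2 _ hs y hy
      have e : ((2 : K) • p - 1) * y - y * ((2 : K) • p - 1) = (2 : K) • (p * y - y * p) := by
        simp only [sub_mul, mul_sub, smul_mul_assoc, mul_smul_comm, mul_one, one_mul]
        module
      rw [e] at h1
      have h2 := M.smul_mem (2 : K)⁻¹ h1
      rwa [smul_smul, inv_mul_cancel₀ two_ne_zero, one_smul] at h2
    have a1 := key x hx
    have a2 := key _ a1
    have e2 : p * (p * x - x * p) - (p * x - x * p) * p =
        p * x + x * p - (2 : K) • (p * x * p) := by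
      have : p * (p * x - x * p) - (p * x - x * p) * p =
          (p * p) * x + x * (p * p) - p * x * p - p * x * p := by
        simp only [mul_sub, sub_mul, mul_assoc]; abel
      rw [this, hpp]
      module
    rw [e2] at a2
    have e3 : (1 + (t - 1) • p) * x * (1 + (t⁻¹ - 1) • p) =
        x + ((t - t⁻¹) / 2) • (p * x - x * p) +
          ((t + t⁻¹ - 2) / 2) • (p * x + x * p - (2 : K) • (p * x * p)) := by
      have h1 : (t - 1) * (t⁻¹ - 1) = 2 - t - t⁻¹ := by field_simp; ring
      have h2 : (1 + (t - 1) • p) * x * (1 + (t⁻¹ - 1) • p) =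
          x + (t - 1) • (p * x) + (t⁻¹ - 1) • (x * p) +
            ((t - 1) * (t⁻¹ - 1)) • (p * x * p) := by
        simp only [add_mul, mul_add, one_mul, mul_one, smul_mul_assoc, mul_smul_comm]
        module
      rw [h2, h1]
      module
    rw [e3]
    exact M.add_mem (M.add_mem hx (M.smul_mem _ a1)) (M.smul_mem _ a2)
  · simpa using hx
  · have e : (1 + (t - 1) • (1 : Module.End K V)) * x * (1 + (t⁻¹ - 1) • 1) =
        (t * t⁻¹) • x := by
      simp only [add_mul, mul_add, one_mul, mul_one, smul_mul_assoc, mul_smul_comm]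
      module
    rw [e, mul_inv_cancel₀ ht, one_smul]
    exact hx

end Str

namespace Str
variable {ω : LinearMap.BilinForm K V} {G : Set (Module.End K V)}
  {T : Set (Module.End K V ≃+* Module.End K V)} {p0 : Module.End K V} (D : Str ω G T p0)
include D

/-- An ideal stable under `T` and containing the involution of `p0` is everything. -/
lemma id_top [CharZero K] {M : Submodule K (Module.End K V)} (hM : IsId (SL ω G T p0) M)
    (hT : ∀ τ ∈ T, ∀ x ∈ M, τ x ∈ M) (h0 : (2 : K) • p0 - 1 ∈ M) : SL ω G T p0 ≤ M := by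
  apply lieGen_le
  · intro x hx y hy
    exact hM.2 x (hM.1 hx) y hy
  · rintro s ⟨p, ⟨τ, hτ, g, hg, h, hh, hgh, hhg, rfl⟩, hsk, rfl⟩
    have h1 := hT τ hτ _ h0
    have h2 := D.id_conj hM hg hh hgh hhg h1
    obtain ⟨σ, hσ⟩ := D.semi τ hτ
    have e : g * τ ((2 : K) • p0 - 1) * h = (2 : K) • (g * τ p0 * h) - 1 := by
      rw [map_sub, map_one, hσ, mul_sub, sub_mul, mul_one, hgh, mul_smul_comm, smul_mul_assoc]
      congr 2
      exact map_ofNat σ 2
    rwa [e] at h2

/-- Simplicity up to the symmetries. -/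
lemma tsmp [IsAlgClosed K] [CharZero K] : TSmp (SL ω G T p0) T := by
  intro M hM hMT
  have C := D.ctx
  have hid : p0 ∈ SC G T p0 := ⟨_, D.tone, 1, D.one, 1, D.one, by simp, by simp, by simp⟩
  have hbot : (∀ p ∈ SC G T p0, ¬ IsSk ω ((2 : K) • p - 1)) → M = ⊥ ∨ M = SL ω G T p0 := by
    intro hno
    left
    rw [eq_bot_iff]
    refine le_trans hM.1 ?_
    apply lieGen_le
    · intro x hx y hy
      rw [Submodule.mem_bot] at *
      rw [hx, hy]; simp
    · rintro s ⟨p, hp, hsk, rfl⟩
      exact absurd hsk (hno p hp)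
  rcases D.c2 hid with hsk | h0 | h1
  · have hs : (2 : K) • p0 - 1 ∈ SI ω G T p0 := ⟨p0, hid, hsk, rfl⟩
    rcases C.irr.inv_dich C.nd hM (subset_lieGen _ hs) (D.si_sq hs) with h | h
    · right
      exact le_antisymm hM.1 (D.id_top hM hMT h)
    · left
      have hN := orth_isId C.irr.br hM
      have hNT : ∀ τ ∈ T, ∀ x ∈ orth (SL ω G T p0) M, τ x ∈ orth (SL ω G T p0) M := by
        intro τ hτ x hx
        rw [C.irr.mem_orth_iff C.nd hM (D.lie_tw hτ hx.1)]
        intro y hy
        have h1 := hMT _ (D.tinv τ hτ) y hy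
        have h2 := (C.irr.mem_orth_iff C.nd hM hx.1).mp hx _ h1
        have h3 := congrArg τ h2
        rwa [map_mul, map_mul, RingEquiv.apply_symm_apply] at h3
      have h1 := D.id_top hN hNT h
      rw [eq_bot_iff]
      intro x hx
      rw [Submodule.mem_bot]
      exact C.irr.inf_orth C.nd hM hx (h1 (hM.1 hx))
  · apply hbot
    rintro p ⟨τ, hτ, g, hg, h, hh, hgh, hhg, rfl⟩ hsk
    apply (D.sk_ne_zero hsk).1
    rw [h0, map_zero]; simp
  · apply hbot
    rintro p ⟨τ, hτ, g, hg, h, hh, hgh, hhg, rfl⟩ hsk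
    apply (D.sk_ne_zero hsk).2
    rw [h1, map_one, mul_one, hgh]

end Str

end OR
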