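import Pool.Agent.Helper16.UN.GA
import Pool.Agent.Helper88.OR.Norm
import Pool.Agent.Helper88.OR.Str

/-!
Orthogonal Mumford-Tate pairs: from the matrix form to the abstract structure (after the block GA
of helper16 for unitary pairs).
-/

set_option linter.unusedSimpArgs false
set_option linter.unusedSectionVars false

open Module MTPairs

namespace OR

open MTP UN UN.GA

variable {K : Type*} [Field K] {m : Type*} [Fintype m] [DecidableEq m]
  {Γ : Subgroup (Equiv.Perm (m → K))} {J : Matrix m m K}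
  {G : Subgroup (Matrix.GeneralLinearGroup m K)} {π : Matrix m m K}

/-- The conjugates of the cocharacter, as operators. -/
lemma of_sc (D : IsOrthPair Γ J G π) {p : Module.End K (m → K)}
    (hp : p ∈ SC (GE G) (TE Γ) (Matrix.toLin' π)) :
    ∃ P, IsConj Γ G π P ∧ p = Matrix.toLin' P := by
  obtain ⟨τ, ⟨θ, hθ, hτ⟩, a, ⟨g, hg, rfl⟩, b, -, hab, hba, rfl⟩ := hp
  obtain ⟨P, hP⟩ := exists_isConj D hθ g
  refine ⟨P, ⟨θ, hθ, g, hg, hP⟩, ?_⟩
  apply LinearMap.ext
  intro w
  obtain ⟨v, rfl⟩ := gth_surj θ g w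
  rw [Matrix.toLin'_apply, hP, ← Matrix.toLin'_apply (g : Matrix m m K) (θ v)]
  have e : b (Matrix.toLin' (g : Matrix m m K) (θ v)) = θ v :=
    congrArg (fun f : Module.End K (m → K) => f (θ v)) hba
  rw [Module.End.mul_apply, Module.End.mul_apply, e, hτ, Matrix.toLin'_apply,
    Matrix.toLin'_apply]

lemma sc_of (D : IsOrthPair Γ J G π) {P : Matrix m m K} (hP : IsConj Γ G π P) :
    Matrix.toLin' P ∈ SC (GE G) (TE Γ) (Matrix.toLin' π) := by
  obtain ⟨θ, hθ, g, hg, hP⟩ := hP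
  obtain ⟨σ, hadd, hσ⟩ := D.semi θ hθ
  refine ⟨cE hadd hσ, ⟨θ, hθ, cE_apply hadd hσ⟩, _, toLin_mem hg, _, toLin_mem (G.inv_mem hg),
    toLin_mul_inv g, toLin_inv_mul g, ?_⟩
  apply LinearMap.ext
  intro w
  obtain ⟨v, rfl⟩ := gth_surj θ g w
  rw [Matrix.toLin'_apply, hP, Module.End.mul_apply, Module.End.mul_apply,
    Matrix.toLin'_apply ((g⁻¹ : Matrix.GeneralLinearGroup m K) : Matrix m m K),
    Matrix.mulVec_mulVec, GL_inv_mul, Matrix.one_mulVec, cE_apply, Matrix.toLin'_apply,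
    Matrix.toLin'_apply]

/-- The abstract data of an orthogonal pair. -/
theorem ostr [CharZero K] (D : IsOrthPair Γ J G π) (hm : Nonempty m) :
    Str (fJ J) (GE G) (TE Γ) (Matrix.toLin' π) where
  nt := inferInstance
  nd := fJ_nd D.det
  one := ⟨1, G.one_mem, by rw [Units.val_one, Matrix.toLin'_one]; rfl⟩
  mul := by
    rintro _ ⟨g, hg, rfl⟩ _ ⟨h, hh, rfl⟩
    exact ⟨g * h, G.mul_mem hg hh, by rw [Units.val_mul, Matrix.toLin'_mul]; rfl⟩
  inv := by
    rintro _ ⟨g, hg, rfl⟩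
    exact ⟨_, toLin_mem (G.inv_mem hg), toLin_mul_inv g, toLin_inv_mul g⟩
  sim := by
    rintro _ ⟨g, hg, rfl⟩
    obtain ⟨c, hc⟩ := D.sim g hg
    refine ⟨c, fun v w => ?_⟩
    rw [fJ_apply, fJ_apply, Matrix.toLin'_apply, Matrix.toLin'_apply]
    have e : ((g : Matrix m m K).mulVec v) ⬝ᵥ J.mulVec ((g : Matrix m m K).mulVec w) =
        v ⬝ᵥ ((g : Matrix m m K).transpose * J * g).mulVec w := by
      rw [← Matrix.mulVec_mulVec, ← Matrix.mulVec_mulVec, Matrix.dotProduct_mulVec v,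
        Matrix.vecMul_transpose]
    rw [e, hc, Matrix.smul_mulVec, dotProduct_smul, smul_eq_mul]
  irr := by
    intro U hg
    refine D.irr U fun g hg' v hv => ?_
    rw [← Matrix.toLin'_apply]
    exact hg _ (toLin_mem hg') v hv
  semi := by
    rintro τ ⟨θ, hθ, hτ⟩
    obtain ⟨σ, hadd, hσ⟩ := D.semi θ hθ
    exact ⟨σ, ind_semi hτ hσ⟩
  rk := by
    rintro τ ⟨θ, hθ, hτ⟩ x
    obtain ⟨σ, hadd, hσ⟩ := D.semi θ hθ
    exact ind_rk hτ hadd hσ x
  tone := ⟨1, Γ.one_mem, fun x v => rfl⟩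
  tmul := by
    rintro τ ⟨θ, hθ, hτ⟩ τ' ⟨θ', hθ', hτ'⟩
    refine ⟨θ * θ', Γ.mul_mem hθ hθ', fun x v => ?_⟩
    rw [RingEquiv.trans_apply, Equiv.Perm.mul_apply, Equiv.Perm.mul_apply, hτ, hτ']
  tinv := by
    rintro τ ⟨θ, hθ, hτ⟩
    refine ⟨θ⁻¹, Γ.inv_mem hθ, fun x v => ?_⟩
    apply θ.injective
    rw [← hτ, RingEquiv.apply_symm_apply, perm_apply_inv, perm_apply_inv]
  tgrp := by
    rintro τ ⟨θ, hθ, hτ⟩ _ ⟨g, hg, rfl⟩
    obtain ⟨g', hg', h⟩ := D.norm θ hθ g hg
    exact ⟨g', hg', ind_res hτ h⟩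
  idem := by
    have h1 := congrArg Matrix.toLin' D.coch.1
    rwa [Matrix.toLin'_mul] at h1
  cpt := by
    intro p hp t ht
    obtain ⟨P, hPc, rfl⟩ := of_sc D hp
    obtain ⟨h, hh, hht⟩ := (smat_cochar D hPc).2 t ht
    exact ⟨h, hh, by rw [hht, one_param]⟩
  genA := by
    rintro M hM _ ⟨g, hg, rfl⟩
    let N : Submodule K (Matrix m m K) :=
      (Subalgebra.toSubmodule M).comap (Matrix.toLin' : Matrix m m K ≃ₗ[K] _).toLinearMap
    have hN : ∀ A : Matrix m m K, A ∈ N ↔ Matrix.toLin' A ∈ M := fun A => Iff.rfl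
    let H : Subgroup (Matrix.GeneralLinearGroup m K) :=
      { carrier := {g | g ∈ G ∧ (g : Matrix m m K) ∈ N}
        one_mem' := by
          refine ⟨G.one_mem, ?_⟩
          rw [hN, Units.val_one, Matrix.toLin'_one]
          exact M.one_mem
        mul_mem' := by
          rintro g g' ⟨hg, hA⟩ ⟨hg', hB⟩
          refine ⟨G.mul_mem hg hg', ?_⟩
          rw [hN] at hA hB ⊢
          rw [Units.val_mul, Matrix.toLin'_mul]
          exact M.mul_mem hA hB
        inv_mem' := by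
          rintro g ⟨hg, hA⟩
          refine ⟨G.inv_mem hg, ?_⟩
          rw [hN] at hA ⊢
          exact inv_mem_subalgebra (A := Module.End K (m → K)) M hA (toLin_inv_mul g) }
    have hHclosed : ZariskiClosed H := closed_of_linear G H D.closed N fun g => Iff.rfl
    have hGH := D.gen H hHclosed (by
      intro P hPc
      obtain ⟨h1, h2⟩ := smat_cochar D hPc
      refine ⟨h1, fun t ht => ?_⟩
      obtain ⟨h, hh, hht⟩ := h2 t ht
      refine ⟨h, ⟨hh, ?_⟩, hht⟩
      rw [hN, hht, one_param]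
      exact M.add_mem M.one_mem (M.smul_mem (hM _ (sc_of D hPc)) _))
    exact (hGH hg).2
  genB := by
    rintro M hM _ ⟨γ, hγ, rfl⟩ b - hab hba x hx
    let N : Submodule K (Matrix m m K) :=
      M.comap (Matrix.toLin' : Matrix m m K ≃ₗ[K] _).toLinearMap
    have hN : ∀ A : Matrix m m K, A ∈ N ↔ Matrix.toLin' A ∈ M := fun A => Iff.rfl
    have hb := linv_unique hba
    have key := smat_normal D N (by
      rintro P hPc t ht h hh hht X hX
      rw [hN] at hX ⊢
      have hpsc := sc_of D hPc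
      have hpp : Matrix.toLin' P * Matrix.toLin' P = Matrix.toLin' P := by
        have h1 := congrArg Matrix.toLin' (smat_cochar D hPc).1
        rwa [Matrix.toLin'_mul] at h1
      have h1 : Matrix.toLin' (h : Matrix m m K) = 1 + (t - 1) • Matrix.toLin' P := by
        rw [hht, one_param]
      have h2 : 1 + (t⁻¹ - 1) • Matrix.toLin' P =
          Matrix.toLin' ((h⁻¹ : Matrix.GeneralLinearGroup m K) : Matrix m m K) := by
        apply linv_unique
        rw [h1]
        have := idem_inv hpp (inv_ne_zero ht)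
        rwa [inv_inv] at this
      rw [Matrix.toLin'_mul, Matrix.toLin'_mul]
      have h3 := hM _ hpsc t ht _ hX
      rw [← h1, h2] at h3
      exact h3) hγ (X := LinearMap.toMatrix' x) (by
      rw [hN, Matrix.toLin'_toMatrix']; exact hx)
    rw [hN, Matrix.toLin'_mul, Matrix.toLin'_mul, Matrix.toLin'_toMatrix', ← hb] at key
    exact key

/-- Density. -/
theorem dense_E [CharZero K] (D : IsOrthPair Γ J G π) {t : ℕ} (ht : 0 < t)
    (hd : DenseQuad Γ G ⊤ t) :
    ∀ τ ∈ TE Γ, ∀ E : Finset (Module.End K (m → K)), ∃ τ' ∈ TE Γ, (∀ x ∈ E, τ' x = τ x) ∧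
      ∃ u ∈ GE G, (u - 1) * (u - 1) = 0 ∧ u - 1 ≠ 0 ∧ MTP.rk (u - 1) = t ∧ τ' u = u := by
  classical
  rintro τ ⟨θ, hθ, hτ⟩ E
  let b : m → (m → K) := fun i => Pi.single i 1
  let E0 : Finset (m → K) := (Finset.univ.image b) ∪
    E.biUnion fun x => Finset.univ.image fun i => x (b i)
  obtain ⟨γ', hγ', hE, u, hu, hcomm, hquad⟩ := hd θ hθ E0
  obtain ⟨σ, hadd, hσ⟩ := D.semi θ hθ
  obtain ⟨σ', hadd', hσ'⟩ := D.semi γ' hγ'
  refine ⟨cE hadd' hσ', ⟨γ', hγ', cE_apply hadd' hσ'⟩, ?_, Matrix.toLin' (u : Matrix m m K),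
    toLin_mem hu, ?_⟩
  · intro x hx
    have h1 : ∀ i, γ' (b i) = θ (b i) := by
      intro i
      apply hE
      exact Finset.mem_union_left _ (Finset.mem_image_of_mem _ (Finset.mem_univ i))
    have h2 : ∀ i, γ' (x (b i)) = θ (x (b i)) := by
      intro i
      apply hE
      apply Finset.mem_union_right
      rw [Finset.mem_biUnion]
      exact ⟨x, hx, Finset.mem_image_of_mem (fun i => x (b i)) (Finset.mem_univ i)⟩
    exact agree hadd hσ hτ (cE_apply hadd' hσ') h1 h2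
  · obtain ⟨hq1, hq2⟩ := hquad
    have hN : Matrix.toLin' (u : Matrix m m K) - 1 = ((u : Matrix m m K) - 1).mulVecLin := by
      apply LinearMap.ext
      intro v
      rw [LinearMap.sub_apply, Matrix.toLin'_apply, Matrix.mulVecLin_apply, Matrix.sub_mulVec,
        Matrix.one_mulVec, Module.End.one_apply]
    have hrk : MTP.rk (Matrix.toLin' (u : Matrix m m K) - 1) = t := by
      rw [hN, ← hq2, Submodule.map_top]
      rfl
    refine ⟨?_, ?_, hrk, ?_⟩
    · apply LinearMap.ext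
      intro v
      rw [hN]
      exact hq1 v trivial
    · intro h0
      rw [h0] at hrk
      have : MTP.rk (0 : Module.End K (m → K)) = 0 := rk_eq_zero.mpr rfl
      omega
    · exact ind_res (cE_apply hadd' hσ') hcomm

end OR
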