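import Pool.Agent.Helper88.OR.Defs

/-!
Examples of orthogonal pairs: definition.
-/

open Module MTPairs

namespace OR

/-- An orthogonal pair with trivial symmetries and with the data of a bad place, which does not
contain the special orthogonal group. -/
def HasOrth (K : Type*) [Field K] (r k D : ℕ) : Prop :=
  ∃ (m : Type) (_ : Fintype m) (_ : DecidableEq m)
      (J : Matrix m m K) (G : Subgroup (Matrix.GeneralLinearGroup m K)) (π : Matrix m m K),
      Fintype.card m = D ∧ IsOrthPair ⊥ J G π ∧
      (∃ u ∈ G, ∃ g ∈ G, IsBadEig u g ⊤ r k) ∧ ¬ ContainsSO J G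

end OR
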