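import Pool.Agent.Helper88.TR.RDefs


/-!
Definitions for the classification in the orthogonal case.
-/

open Module

namespace OR

open Pool.Agent.Helper54.MT

variable {ι K M N : Type*} [Field K] [CharZero K] [AddCommGroup M] [Module K M]
  [AddCommGroup N] [Module K N]

/-- Strongly orthogonal sets of roots with sum twice a weight are even. -/
def ParE (P : RootPairing ι K M N) [P.IsCrystallographic] (X : Finset M) : Prop :=
  ∀ x ∈ X, ∀ A : Finset ι, (∀ i ∈ A, P.coroot' i x = 1) → Orth P A →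
    ∑ i ∈ A, P.root i = x + x →
    (∀ i ∈ A, ∀ j ∈ A, i ≠ j → P.root i + P.root j ∉ Set.range P.root) → Even A.card

open Classical in
/-- All roots have exactly two weights of value one, and differences of weights are roots. -/
def Two (P : RootPairing ι K M N) (X : Finset M) : Prop :=
  (∀ i, (X.filter (fun x => P.coroot' i x = 1)).card = 2) ∧
  ∀ x ∈ X, ∀ y ∈ X, x ≠ y → x ≠ -y → ∃ i, P.root i = x - y

/-- The exceptional triples: rank, number of eigenvalues, dimension. -/
def EigExc (r k D : ℕ) : Prop :=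
  (∃ m, Even m ∧ 4 ≤ m ∧ D = (2 * m).choose m ∧ r = (2 * m - 2).choose (m - 1) ∧
    (k = 1 ∨ k = 2)) ∨
  (∃ n, (n % 4 = 0 ∨ n % 4 = 3) ∧ 3 ≤ n ∧ D = 2 ^ n ∧
    ((r = 2 ^ (n - 2) ∧ (k = 1 ∨ k = 2)) ∨ (r = 2 ^ (n - 1) ∧ k = 0)))

end OR
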