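import Pool.Agent.Helper34.TR.B67
import Pool.Agent.Helper88.MT.Top
import Pool.Agent.Helper88.OR.CDefs

/-!
Parity in the orthogonal case.
-/

open Module LieModule LieAlgebra LieAlgebra.IsKilling

attribute [local instance 100] LieRing.ofAssociativeRing

namespace OR

open MTP MTP.MF Pool.Agent.Helper54.MT TR

variable {K : Type*} [Field K] [CharZero K] [IsAlgClosed K]
  {L : Type*} [LieRing L] [LieAlgebra K L] [FiniteDimensional K L] [IsKilling K L]
  {H : LieSubalgebra K L} [H.IsCartanSubalgebra]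
  {V : Type*} [AddCommGroup V] [Module K V] [FiniteDimensional K V]
  [LieRingModule L V] [LieModule K L V] {I : Type*} [Fintype I] (B : WB (V := V) H I)
  {ω : LinearMap.BilinForm K V}

/-- **The eigenvalues of the sum of the positive coroots on an orthogonal module are even.** -/
theorem even_rho [Nonempty H.root]
    (hirr : ∀ W : Submodule K V, (∀ x : L, ∀ u ∈ W, ⁅x, u⁆ ∈ W) → W = ⊥ ∨ W = ⊤)
    (hnd : ω.Nondegenerate) (hsy : ∀ v w, ω v w = ω w v)
    (hsk : ∀ (x : L) (u v : V), ω ⁅x, u⁆ v = - ω u ⁅x, v⁆)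
    (b : (rootSystem H).Base) :
    ∃ c : I → ℤ, (∀ i, B.w i (rho2 b) = (c i : K)) ∧ ∀ i, Even (c i) := by
  classical
  obtain ⟨c, hc, hpar⟩ := exists_int B hirr hnd hsk b
  refine ⟨c, hc, ?_⟩
  rcases isEmpty_or_nonempty I with hI | hI
  · exact fun i => isEmptyElim i
  obtain ⟨t, ht⟩ := Finite.exists_max c
  have huniq := top_unique B hirr b hc ht
  -- the top eigenvalue is nonnegative
  have hneg : ∃ j, c j = - c t := by
    have h2 : B.v.repr ((B.dual hnd hsk).v t) ≠ 0 := by
      intro h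
      exact (B.dual hnd hsk).v.ne_zero t (B.v.repr.map_eq_zero_iff.mp h)
    obtain ⟨j, hj⟩ := Finsupp.ne_iff.mp h2
    refine ⟨j, ?_⟩
    have h3 : B.w j (rho2 b) = (- B.w t) (rho2 b) := B.coord ((B.dual hnd hsk).lie_v t (rho2 b)) hj
    rw [LinearMap.neg_apply, hc, hc] at h3
    exact_mod_cast h3
  have hnn : 0 ≤ c t := by
    obtain ⟨j, hj⟩ := hneg
    have := ht j
    omega
  obtain ⟨m, hm⟩ := Int.eq_ofNat_of_zero_le hnn
  suffices heven : Even (c t) by
    intro i
    have h1 := hpar i t
    have : c i = (c i - c t) + c t := by ring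
    rw [this]
    exact h1.add heven
  by_contra hodd
  rw [Int.not_even_iff_odd] at hodd
  have hmo : Odd m := by
    rw [hm] at hodd
    exact_mod_cast hodd
  obtain ⟨e, f, htr, es, fs, hes, hfs, he, hf⟩ := exists_principal b
  -- the top vector is primitive
  have hprim : htr.HasPrimitiveVectorWith (B.v t) ((m : ℕ) : K) := by
    refine ⟨B.v.ne_zero t, ?_, ?_⟩
    · rw [B.lie_v, hc, hm, Int.cast_natCast]
    · rw [he, sum_lie]
      refine Finset.sum_eq_zero fun j hj => ?_
      apply B.v.repr.injective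
      rw [map_zero]
      ext i
      by_contra hi
      have h1 := B.coord_root (hes j) hi (rho2 b)
      rw [hc, hc, root_rho] at h1
      have h2 : c i = 2 * b.height j + c t := by
        have : ((c i : ℤ) : K) = ((2 * b.height j + c t : ℤ) : K) := by
          rw [h1]; push_cast; ring
        exact Int.cast_injective this
      have h3 := ht i
      have h4 : b.height j = 1 := RootPairing.Base.height_one_of_mem_support hj
      omega
  -- the lowest vector does not vanish
  have hpow : ∀ n : ℕ, n ≤ m → ((toEnd K L V f) ^ n) (B.v t) ≠ 0 := by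
    intro n
    induction n with
    | zero => intro _; simpa using B.v.ne_zero t
    | succ n ih =>
      intro hn h0
      have h1 := hprim.lie_e_pow_succ_toEnd_f n
      rw [h0, lie_zero] at h1
      have h2 := (smul_eq_zero.mp h1.symm).resolve_right (ih (by omega))
      have h3 : ((n : K) + 1) ≠ 0 := by exact_mod_cast Nat.succ_ne_zero n
      have h4 := (mul_eq_zero.mp h2).resolve_left h3
      have h5 : (m : K) = (n : K) := sub_eq_zero.mp h4
      have h6 : m = n := Nat.cast_injective h5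
      omega
  set z := ((toEnd K L V f) ^ m) (B.v t) with hz
  have hz0 : z ≠ 0 := hpow m le_rfl
  have hzw : ⁅((rho2 b : H) : L), z⁆ = (-(m : K)) • z := by
    have := hprim.lie_h_pow_toEnd_f m
    rw [← hz] at this
    rw [this]
    congr 1
    ring
  -- `z` is orthogonal to all basis vectors except the top one
  have horth : ∀ i, i ≠ t → ω z (B.v i) = 0 := by
    intro i hi
    have h1 := hsk ((rho2 b : H) : L) z (B.v i)
    rw [hzw, B.lie_v, hc, map_smul, map_smul, LinearMap.smul_apply, smul_eq_mul, smul_eq_mul] at h1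
    have h2 : ((c i : K) - (m : K)) * ω z (B.v i) = 0 := by linear_combination h1
    rcases mul_eq_zero.mp h2 with h | h
    · exfalso
      apply hi
      apply huniq
      rw [hm]
      have : ((c i : ℤ) : K) = (((m : ℕ) : ℤ) : K) := by
        rw [Int.cast_natCast]; exact sub_eq_zero.mp h
      exact Int.cast_injective this
    · exact h
  have hzt : ω z (B.v t) = 0 := by
    have hpowsk : ∀ (n : ℕ) (u v : V), ω (((toEnd K L V f) ^ n) u) v =
        (-1) ^ n * ω u (((toEnd K L V f) ^ n) v) := by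
      intro n
      induction n with
      | zero => intro u v; simp
      | succ n ih =>
        intro u v
        have e1 : ((toEnd K L V f) ^ (n + 1)) u = ((toEnd K L V f) ^ n) ⁅f, u⁆ := by
          rw [pow_succ]; rfl
        have e2 : ((toEnd K L V f) ^ (n + 1)) v = ⁅f, ((toEnd K L V f) ^ n) v⁆ := by
          rw [pow_succ']; rfl
        rw [e1, e2, ih, hsk]
        ring
    have h1 := hpowsk m (B.v t) (B.v t)
    rw [← hz, hmo.neg_one_pow] at h1
    have h2 : ω (B.v t) z = ω z (B.v t) := hsy _ _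
    rw [h2] at h1
    have h3 : (2 : K) * ω z (B.v t) = 0 := by linear_combination h1
    exact (mul_eq_zero.mp h3).resolve_left two_ne_zero
  apply hz0
  apply hnd.1
  intro v
  have h1 : ω z = 0 := by
    refine B.v.ext fun i => ?_
    rw [LinearMap.zero_apply]
    by_cases hi : i = t
    · rw [hi, hzt]
    · exact horth i hi
  rw [h1]; rfl

/-- B6: parity, unfolded. -/
theorem parE_unfolded
    (hirr : ∀ W : Submodule K V, (∀ x : L, ∀ u ∈ W, ⁅x, u⁆ ∈ W) → W = ⊥ ∨ W = ⊤)
    (hnd : ω.Nondegenerate) (hsy : ∀ v w, ω v w = ω w v)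
    (hsk : ∀ (x : L) (u v : V), ω ⁅x, u⁆ v = - ω u ⁅x, v⁆)
    (hsmall : ∀ i, Small (rootSystem H) (B.w i)) [Nonempty H.root] (i0 : I)
    {A : Finset H.root} (hA1 : ∀ i ∈ A, (rootSystem H).coroot' i (B.w i0) = 1)
    (hA2 : Orth (rootSystem H) A)
    (hA : ∑ i ∈ A, (rootSystem H).root i = B.w i0 + B.w i0)
    (hA3 : ∀ i ∈ A, ∀ j ∈ A, i ≠ j →
      (rootSystem H).root i + (rootSystem H).root j ∉ Set.range (rootSystem H).root) :
    Even A.card := by
  classical
  obtain ⟨b⟩ := RootPairing.nonempty_base (rootSystem H)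
  obtain ⟨c, hc, heven⟩ := even_rho B hirr hnd hsy hsk b
  let S : Finset H.root := Finset.univ.filter fun i => (rootSystem H).coroot' i (B.w i0) = 1
  have hS : ∀ i, i ∈ S ↔ (rootSystem H).coroot' i (B.w i0) = 1 := by
    intro i; simp [S]
  have h1 := card_parity (hsmall i0) hA1 hA2 hA hA3 S hS
  have h2 := card_rho b (hsmall i0) (c := c i0) (hc i0) S hS
  have h3 : ((c i0 : ℤ) : ZMod 2) = 0 := by
    rw [ZMod.intCast_eq_zero_iff_even]
    exact heven i0
  rw [h3] at h2
  have h4 : (A.card : ZMod 2) = 0 := by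
    rw [← h1, ← h2]; push_cast; rfl
  rw [ZMod.natCast_eq_zero_iff_even] at h4
  exact h4

/-- B6: parity -/
theorem parE (hirr : ∀ W : Submodule K V, (∀ x : L, ∀ u ∈ W, ⁅x, u⁆ ∈ W) → W = ⊥ ∨ W = ⊤)
    (hnd : ω.Nondegenerate) (hsy : ∀ v w, ω v w = ω w v)
    (hsk : ∀ (x : L) (u v : V), ω ⁅x, u⁆ v = - ω u ⁅x, v⁆)
    (hsmall : ∀ i, Small (rootSystem H) (B.w i)) [Nonempty H.root]
    {X : Finset (Dual K H)} (hX : ∀ x ∈ X, ∃ i, B.w i = x) :
    ParE (rootSystem H) X := by
  intro x hx A hA1 hA2 hA hA3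
  obtain ⟨i0, rfl⟩ := hX x hx
  exact parE_unfolded B hirr hnd hsy hsk hsmall i0 hA1 hA2 hA hA3

end OR
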