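import Pool.Agent.Helper88.OR.RX
import Pool.Agent.Helper88.OR.Par
import Pool.Agent.Helper55.OR.LF
import Pool.Agent.Helper88.MT.Simple
import Pool.Agent.Helper88.MT.Cases
import Pool.Agent.Helper16.TR.B1
import Pool.Agent.Helper95.TR.B23
import Pool.Agent.Helper40.TR.B45
import Pool.Agent.Helper34.TR.B67
import Pool.Agent.Helper38.TR.C

/-!
The classification of the ranks of square zero elements in simple irreducible orthogonal Lie
algebras which contain an involution.
-/

open Module LieModule LieAlgebra LieAlgebra.IsKilling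
open MTP MTP.MF
open Pool.Agent.Helper54.MT

attribute [local instance 100] LieRing.ofAssociativeRing

namespace OR

open TR

section ctx

variable {K : Type*} [Field K] [CharZero K] {V : Type*} [AddCommGroup V]
  [Module K V] [FiniteDimensional K V] {ω : LinearMap.BilinForm K V}

/-- A simple irreducible Lie algebra which contains an involution is spanned by involutions. -/
theorem ctx_of_inv {L : LieSubalgebra K (Module.End K V)} (hirr : IrrSymp ω L.toSubmodule)
    (hnd : ω.Nondegenerate) (hsimple : IsSimple K L) {s : Module.End K V} (hs : s ∈ L)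
    (hss : s * s = 1) (hs0 : s ≠ 0) :
    Ctx ω L.toSubmodule {t | t ∈ L ∧ t * t = 1} := by
  refine ⟨hirr, hnd, fun t ht => ht, ?_⟩
  intro M hM hSM
  set U : Submodule K (Module.End K V) := Submodule.span K {t | t ∈ L ∧ t * t = 1} with hU
  have hUM : U ≤ M := Submodule.span_le.mpr hSM
  have hUL : U ≤ L.toSubmodule := Submodule.span_le.mpr fun t ht => ht.1
  have key : ∀ z ∈ L, ∀ t, t ∈ L → t * t = 1 → pp t * z * qq t ∈ U := by
    intro z hz t ht htt
    obtain ⟨h1, -, -⟩ := comps_mem htt (M := L.toSubmodule) (fun x hx => hirr.br t ht x hx) hz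
    set y := pp t * z * qq t with hy
    have e1 : t * y = y := by
      have : t * pp t = pp t := by
        unfold pp
        rw [mul_smul_comm, mul_add, mul_one, htt, add_comm]
      rw [hy, ← mul_assoc, ← mul_assoc, this]
    have e2 : y * t = -y := by
      have : qq t * t = -qq t := by
        unfold qq
        rw [smul_mul_assoc, sub_mul, one_mul, htt, ← smul_neg, neg_sub]
      rw [hy, mul_assoc, this, mul_neg]
    have e3 : y * y = 0 := by
      have h3 : y * (t * y) = y * y := by rw [e1]
      rw [← mul_assoc, e2, neg_mul] at h3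
      have h4 : (2 : K) • (y * y) = 0 := by
        rw [two_smul]
        nth_rewrite 1 [← h3]
        abel
      exact (smul_eq_zero.mp h4).resolve_left two_ne_zero
    have h2 : t - (2 : K) • y ∈ {t | t ∈ L ∧ t * t = 1} := by
      refine ⟨L.sub_mem ht (L.smul_mem _ h1), ?_⟩
      rw [sub_mul, mul_sub, mul_sub, htt, mul_smul_comm, smul_mul_assoc, smul_mul_assoc,
        mul_smul_comm, e1, e2, e3, smul_neg, smul_zero, smul_zero]
      abel
    have h3 : y = (2 : K)⁻¹ • (t - (t - (2 : K) • y)) := by
      rw [sub_sub_cancel, smul_smul, inv_mul_cancel₀ two_ne_zero, one_smul]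
    rw [h3]
    exact Submodule.smul_mem _ _ (Submodule.sub_mem _ (Submodule.subset_span ⟨ht, htt⟩)
      (Submodule.subset_span h2))
  have hbr : ∀ z ∈ L, ∀ x ∈ U, z * x - x * z ∈ U := by
    intro z hz x hx
    induction hx using Submodule.span_induction with
    | zero => simp
    | add a b _ _ ha hb =>
      have : z * (a + b) - (a + b) * z = (z * a - a * z) + (z * b - b * z) := by noncomm_ring
      rw [this]; exact Submodule.add_mem _ ha hb
    | smul c a _ ha =>
      have : z * (c • a) - (c • a) * z = c • (z * a - a * z) := by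
        rw [mul_smul_comm, smul_mul_assoc, smul_sub]
      rw [this]; exact Submodule.smul_mem _ _ ha
    | mem t ht =>
      have h1 := key z hz t ht.1 ht.2
      have h2 := key z hz (-t) (L.neg_mem ht.1) (by rw [neg_mul_neg]; exact ht.2)
      rw [pp_neg, qq_neg] at h2
      have h3 : z * t - t * z = (2 : K) • (qq t * z * pp t) - (2 : K) • (pp t * z * qq t) := by
        have e1 : z * t - t * z = (pp t + qq t) * z * (pp t - qq t)
          - (pp t - qq t) * z * (pp t + qq t) := by
          rw [pp_sub_qq, pp_add_qq]; simp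
        rw [e1]
        have : (pp t + qq t) * z * (pp t - qq t) - (pp t - qq t) * z * (pp t + qq t)
          = 2 • (qq t * z * pp t) - 2 • (pp t * z * qq t) := by noncomm_ring
        rw [this]
        module
      rw [h3]
      exact Submodule.sub_mem _ (Submodule.smul_mem _ _ h2) (Submodule.smul_mem _ _ h1)
  let R : LieIdeal K L :=
    { carrier := {y | (y : Module.End K V) ∈ U}
      add_mem' := by
        intro a b ha hb
        exact U.add_mem ha hb
      zero_mem' := U.zero_mem
      smul_mem' := by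
        intro c a ha
        exact U.smul_mem c ha
      lie_mem := by
        intro x m hm
        exact hbr x x.2 m hm }
  intro z hz
  rcases hsimple.eq_bot_or_eq_top R with h | h
  · exfalso
    have h1 : (⟨s, hs⟩ : L) ∈ R := by
      show s ∈ U
      exact Submodule.subset_span ⟨hs, hss⟩
    rw [h, LieSubmodule.mem_bot] at h1
    exact hs0 (congrArg Subtype.val h1)
  · have h1 : (⟨z, hz⟩ : L) ∈ R := by rw [h]; exact LieSubmodule.mem_top _
    exact hUM h1

end ctx

variable {K : Type*} [Field K] [CharZero K] [IsAlgClosed K] {V : Type*} [AddCommGroup V]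
  [Module K V] [FiniteDimensional K V] {ω : LinearMap.BilinForm K V}

open Classical in
/-- If all roots have two weights of value one and differences of weights are roots, the Lie
algebra is everything. -/
theorem full_of_two {L : LieSubalgebra K (Module.End K V)} [IsKilling K L]
    {H : LieSubalgebra K L} [H.IsCartanSubalgebra] {I : Type*} [Fintype I] (B : WB (V := V) H I)
    [Nonempty H.root] (hω : ω.Nondegenerate) (hsy : ∀ v w, ω v w = ω w v)
    (hsk : ∀ (x : L) (u v : V), ω ⁅x, u⁆ v = - ω u ⁅x, v⁆)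
    (hinj : Function.Injective B.w)
    (hsq : ∀ (α : H.root) (x : L), x ∈ rootSpace H α.1 →
      toEnd K L V x * toEnd K L V x = 0)
    (hneg : ∀ i, ∃ j, B.w j = - B.w i)
    (h2 : Two (rootSystem H) (Finset.univ.image B.w)) {z : Module.End K V} (hz : IsSk ω z) :
    z ∈ L := by
  obtain ⟨h3, h4⟩ := h2
  obtain ⟨x, hx⟩ := so_of_two B hω hsy hsk hinj hsq hneg (by
    intro α
    rw [← h3 α, Finset.filter_image, Finset.card_image_of_injective _ hinj]
    rfl) (by
    intro i j hij hij'
    obtain ⟨α, hα⟩ := h4 (B.w i) (Finset.mem_image_of_mem _ (Finset.mem_univ _)) (B.w j)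
      (Finset.mem_image_of_mem _ (Finset.mem_univ _)) hij hij'
    exact ⟨α, hα⟩) hz
  rw [← hx]
  exact x.2

/-- The rank of a long root vector. -/
theorem exists_long_rank [Nontrivial V] {L : LieSubalgebra K (Module.End K V)}
    (hC : IrrSymp ω L.toSubmodule) (hnd : ω.Nondegenerate) (hsy : ∀ v w, ω v w = ω w v)
    (hsimple : IsSimple K L) {s : Module.End K V} (hsL : s ∈ L) (hss : s * s = 1) :
    (∀ z, IsSk ω z → z ∈ L) ∨
    ∃ e ∈ L, e ≠ 0 ∧ e * e = 0 ∧ (∀ y ∈ L, ∃ c : K, e * y * e = c • e) ∧
      ((∃ m, Even m ∧ 4 ≤ m ∧ finrank K V = (2 * m).choose m ∧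
        rk e = (2 * m - 2).choose (m - 1)) ∨
      (∃ n, (n % 4 = 0 ∨ n % 4 = 3) ∧ 3 ≤ n ∧ finrank K V = 2 ^ n ∧ rk e = 2 ^ (n - 2))) := by
  classical
  have hk : IsKilling K L := killing_of hnd hC
  obtain ⟨H, hH, hsH⟩ := exists_cartan_end (L := L) ⟨s, hsL⟩ (semisimple_of_sq hss)
  have hirrR : (rootSystem H).IsIrreducible := inferInstance
  have hne : Nonempty H.root := by
    by_contra hcon
    rw [not_nonempty_iff] at hcon
    have hN : Nontrivial H := RootPairing.IsIrreducible.nontrivial' (rootSystem H)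
    have h1 : (⊤ : Submodule K H) = ⊥ := by
      have h2 : (rootSystem H).corootSpan K = ⊤ := RootPairing.IsRootSystem.span_coroot_eq_top
      rw [← h2, RootPairing.corootSpan, Set.range_eq_empty, Submodule.span_empty]
    exact bot_ne_top h1.symm
  have hirr : ∀ W : Submodule K V, (∀ x : L, ∀ u ∈ W, ⁅x, u⁆ ∈ W) → W = ⊥ ∨ W = ⊤ :=
    fun W hW => hC.irr W fun z hz w hw => hW ⟨z, hz⟩ w hw
  have hsk : ∀ (x : L) (u v : V), ω ⁅x, u⁆ v = - ω u ⁅x, v⁆ := by
    intro x u v
    exact hC.sk x x.2 u v
  have hfaith : ∀ x : L, (∀ u : V, ⁅x, u⁆ = 0) → x = 0 := by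
    intro x hx
    apply Subtype.ext
    ext u
    exact hx u
  obtain ⟨n, ⟨B⟩⟩ := exists_WB (V := V) (H := H) hirr
  have hI : Nonempty (Fin n) := B.v.index_nonempty
  set s' : H := ⟨⟨s, hsL⟩, hsH⟩ with hs'
  have hsB : ∀ i, B.w i s' = 1 ∨ B.w i s' = -1 := by
    intro i
    have h1 : s (B.v i) = B.w i s' • B.v i := B.lie_v i s'
    have h2 : s (s (B.v i)) = B.v i := LinearMap.congr_fun hss (B.v i)
    rw [h1, map_smul, h1, smul_smul] at h2
    have h3 : (B.w i s' * B.w i s' - 1) • B.v i = 0 := by rw [sub_smul, h2, one_smul, sub_self]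
    have h4 := (smul_eq_zero.mp h3).resolve_right (B.v.ne_zero i)
    have h5 : (B.w i s' - 1) * (B.w i s' + 1) = 0 := by linear_combination h4
    rcases mul_eq_zero.mp h5 with h6 | h6
    · left; linear_combination h6
    · right; linear_combination h6
  have hsq : ∀ (α : H.root) (x : L), x ∈ rootSpace H α.1 →
      toEnd K L V x * toEnd K L V x = 0 := fun α x hx => sq_zero B hfaith hsB hI α hx
  have hWS := weightSet B hirr hnd hsk hsq
  have hinj := mult_one B hirr hnd hsk hsq
  set X : Finset (Dual K H) := Finset.univ.image B.w with hX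
  have hXr : (X : Set (Dual K H)) = Set.range B.w := by
    rw [hX, Finset.coe_image, Finset.coe_univ, Set.image_univ]
  have hpar : ParE (rootSystem H) X := parE B hirr hnd hsy hsk (small B hsq) (by
    intro x hx
    rw [hX, Finset.mem_image] at hx
    obtain ⟨i, -, hi⟩ := hx
    exact ⟨i, hi⟩)
  have hXc : X.card = finrank K V := by
    rw [hX, Finset.card_image_of_injective _ hinj, Finset.card_univ, Fintype.card_fin,
      finrank_eq_card_basis B.v, Fintype.card_fin]
  have hneg : ∀ i, ∃ j, B.w j = - B.w i := by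
    intro i
    obtain ⟨j, hj⟩ := hWS.neg (B.w i) ⟨i, rfl⟩
    exact ⟨j, hj⟩
  obtain ⟨θ, hθ, hcases⟩ := rx (P := rootSystem H) (X := X) (by rw [hXr]; exact hWS)
    ⟨B.w hI.some, Finset.mem_image_of_mem _ (Finset.mem_univ _)⟩ (Module.Dual.eval K H s') (by
      intro x hx
      rw [hX, Finset.mem_image] at hx
      obtain ⟨i, -, rfl⟩ := hx
      exact hsB i) RootPairing.IsRootSystem.span_root_eq_top hpar
  obtain ⟨e, f, ht, he, hf⟩ := exists_triple θ
  have he0 : e ≠ 0 := ht.e_ne_zero
  have hrk : rk (toEnd K L V e) = (X.filter (fun x => (rootSystem H).coroot' θ x = 1)).card := by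
    rw [rank_root B hsq θ he he0, hX, Finset.filter_image, Finset.card_image_of_injective _ hinj]
    rfl
  have hE : toEnd K L V e = (e : Module.End K V) := rfl
  rcases hcases with h1 | h1 | h1
  · exfalso
    have h2 := two_le_rk hnd hsy (hC.sk e e.2) (fun h => he0 (Subtype.ext h))
    rw [← hE, hrk, h1] at h2
    omega
  · left
    intro z hz
    exact full_of_two B hnd hsy hsk hinj hsq hneg h1 hz
  · right
    refine ⟨(e : Module.End K V), e.2, fun h => he0 (Subtype.ext h), hsq θ e he, ?_, ?_⟩
    · intro y hy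
      exact TR.extremal hθ he (hsq θ e he) ⟨y, hy⟩
    · rw [← hE, hrk, ← hXc]
      exact h1

/-- The central binomial coefficients. -/
lemma choose_lt {m : ℕ} (hm : 1 ≤ m) :
    (2 * m).choose m < 4 * (2 * m - 2).choose (m - 1) := by
  obtain ⟨k, rfl⟩ : ∃ k, m = k + 1 := ⟨m - 1, by omega⟩
  have h1 := Nat.succ_mul_centralBinom_succ k
  rw [Nat.centralBinom, Nat.centralBinom] at h1
  have e1 : 2 * (k + 1) - 2 = 2 * k := by omega
  have e2 : k + 1 - 1 = k := by omega
  rw [e1, e2]
  have hpos : 0 < (2 * k).choose k := Nat.choose_pos (by omega)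
  by_contra hcon
  push Not at hcon
  have h2 : (k + 1) * (4 * (2 * k).choose k) ≤ (k + 1) * (2 * (k + 1)).choose (k + 1) :=
    Nat.mul_le_mul_left _ hcon
  rw [h1] at h2
  nlinarith

/-- **The classification of the ranks of square zero elements.** -/
theorem orth_class {L : LieSubalgebra K (Module.End K V)} (hirr : IrrSymp ω L.toSubmodule)
    (hnd : ω.Nondegenerate) (hsy : ∀ v w, ω v w = ω w v) (hsimple : IsSimple K L)
    {s : Module.End K V} (hs : s ∈ L) (hss : s * s = 1)
    {N : Module.End K V} (hN : N ∈ L) (hNN : N * N = 0) (hN0 : N ≠ 0) :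
    (∀ z, IsSk ω z → z ∈ L) ∨
    (∃ m, Even m ∧ 4 ≤ m ∧ finrank K V = (2 * m).choose m ∧ rk N = (2 * m - 2).choose (m - 1)) ∨
    (∃ n, (n % 4 = 0 ∨ n % 4 = 3) ∧ 3 ≤ n ∧ finrank K V = 2 ^ n ∧
      (rk N = 2 ^ (n - 2) ∨ rk N = 2 ^ (n - 1))) := by
  have hV : Nontrivial V := by
    by_contra hcon
    rw [not_nontrivial_iff_subsingleton] at hcon
    exact hN0 (Subsingleton.elim _ _)
  rcases exists_long_rank hirr hnd hsy hsimple hs hss with h1 | ⟨e, he, he0, hee, hext, hcases⟩
  · exact Or.inl h1
  have hs0 : s ≠ 0 := by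
    rintro rfl
    rw [mul_zero] at hss
    obtain ⟨v, hv⟩ := exists_ne (0 : V)
    exact hv (LinearMap.congr_fun hss v).symm
  obtain ⟨j, hj⟩ := TR.rank_dvd (ctx_of_inv hirr hnd hsimple hs hss hs0) hsimple he he0 hee hext
    hN hNN
  have hle := rk_le_half hNN
  have hNpos : 0 < rk N := rk_pos.mpr hN0
  rcases hcases with ⟨m, hm, hm4, hD, hr⟩ | ⟨n, hn, hn3, hD, hr⟩
  · right; left
    refine ⟨m, hm, hm4, hD, ?_⟩
    have h2 := choose_lt (m := m) (by omega)
    rw [← hD, ← hr] at h2
    have hj1 : j = 1 := by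
      rcases Nat.lt_or_ge j 2 with h3 | h3
      · interval_cases j
        · rw [mul_zero] at hj; omega
        · rfl
      · exfalso
        have h4 : rk e * 2 ≤ rk e * j := Nat.mul_le_mul_left _ h3
        omega
    rw [hj, hj1, mul_one, hr]
  · right; right
    refine ⟨n, hn, hn3, hD, ?_⟩
    obtain ⟨k, rfl⟩ : ∃ k, n = k + 2 := ⟨n - 2, by omega⟩
    have e1 : k + 2 - 2 = k := by omega
    have e2 : k + 2 - 1 = k + 1 := by omega
    rw [e1] at hr
    rw [e1, e2]
    have hpos : 0 < 2 ^ k := pow_pos (by norm_num) k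
    rw [hD, hj, hr, pow_add] at hle
    rw [hj, hr] at hNpos
    have hj2 : j ≤ 2 := by
      by_contra h3
      have h4 : 2 ^ k * 3 ≤ 2 ^ k * j := Nat.mul_le_mul_left _ (by omega)
      omega
    have hj0 : j ≠ 0 := by
      rintro rfl
      simp at hNpos
    have : j = 1 ∨ j = 2 := by omega
    rcases this with rfl | rfl
    · left; rw [hj, hr, mul_one]
    · right; rw [hj, hr, pow_succ]

end OR
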