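import Pool.Agent.Helper88.OR.GA
import Pool.Agent.Helper35.OR.GR1
import Pool.Agent.Helper35.OR.GR2
import Pool.Agent.Helper93.UN.GB

/-!
Orthogonal pairs: if the Lie algebra is the full orthogonal algebra then the group contains the
special orthogonal group.
-/

set_option linter.unusedSimpArgs false
set_option linter.unusedSectionVars false

open Module MTPairs

namespace OR

open MTP UN

variable {K : Type*} [Field K] {m : Type*} [Fintype m] [DecidableEq m]
  {Γ : Subgroup (Equiv.Perm (m → K))} {J : Matrix m m K}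
  {G : Subgroup (Matrix.GeneralLinearGroup m K)} {π : Matrix m m K}

/-- The Lie algebra of `G`, up to scalars. -/
def oN (G : Subgroup (Matrix.GeneralLinearGroup m K)) :
    Submodule K (Module.End K (m → K)) where
  carrier := {x | ∃ a : Module.End K (m → K),
    LinearMap.toMatrix' a ∈ lieOf (Matrix.stdBasis K m m) (gM G) ∧ ∃ s : K, x = a + s • 1}
  add_mem' := by
    rintro _ _ ⟨a, ha, s, rfl⟩ ⟨a', ha', s', rfl⟩
    refine ⟨a + a', ?_, s + s', ?_⟩
    · rw [map_add]; exact lieOf_add ha ha'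
    · module
  zero_mem' := ⟨0, by rw [map_zero]; exact lieOf_zero, 0, by simp⟩
  smul_mem' := by
    rintro c _ ⟨a, ha, s, rfl⟩
    refine ⟨c • a, ?_, c * s, ?_⟩
    · rw [map_smul]; exact lieOf_smul c ha
    · module

lemma o_br {x y : Module.End K (m → K)} (hx : x ∈ oN G) (hy : y ∈ oN G) :
    LinearMap.toMatrix' (x * y - y * x) ∈ lieOf (Matrix.stdBasis K m m) (gM G) := by
  obtain ⟨a, ha, s, rfl⟩ := hx
  obtain ⟨a', ha', s', rfl⟩ := hy
  have e : (a + s • 1) * (a' + s' • 1) - (a' + s' • 1) * (a + s • 1) = a * a' - a' * a := by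
    simp only [add_mul, mul_add, smul_mul_assoc, mul_smul_comm, one_mul, mul_one]
    module
  rw [e, map_sub, LinearMap.toMatrix'_mul, LinearMap.toMatrix'_mul]
  exact lieOf_comm ha ha'

lemma sl_le [CharZero K] (D : IsOrthPair Γ J G π) :
    SL (fJ J) (GE G) (TE Γ) (Matrix.toLin' π) ≤ oN G := by
  apply lieGen_le
  · intro x hx y hy
    exact ⟨_, o_br hx hy, 0, by simp⟩
  · rintro _ ⟨p, hp, -, rfl⟩
    obtain ⟨P, hP, rfl⟩ := of_sc D hp
    have hco := smat_cochar D hP
    have hGE : ∀ t : K, t ≠ 0 → ∃ g ∈ G, 1 + (t - 1) • P = (g : Matrix m m K) := by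
      intro t ht
      obtain ⟨g, hg, hgt⟩ := hco.2 t ht
      refine ⟨g, hg, ?_⟩
      rw [hgt]; module
    refine ⟨(2 : K) • Matrix.toLin' P, ?_, -1, ?_⟩
    · rw [map_smul, LinearMap.toMatrix'_toLin']
      apply lieOf_smul
      apply lieOf_cochar
      · rintro _ ⟨g, hg, rfl⟩ _ ⟨h, hh, rfl⟩
        exact ⟨g * h, G.mul_mem hg hh, rfl⟩
      · exact hGE
    · module

/-- A simple Lie algebra is spanned by brackets. -/
lemma sl_der {V : Type*} [AddCommGroup V] [Module K V] [FiniteDimensional K V]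
    {L : Submodule K (Module.End K V)} (hbr : ∀ x ∈ L, ∀ y ∈ L, x * y - y * x ∈ L)
    (hs : Smp L) (hab : ∃ x ∈ L, ∃ y ∈ L, x * y - y * x ≠ 0) {x : Module.End K V} (hx : x ∈ L) :
    x ∈ Submodule.span K {w | ∃ x ∈ L, ∃ y ∈ L, w = x * y - y * x} := by
  set M := Submodule.span K {w | ∃ x ∈ L, ∃ y ∈ L, w = x * y - y * x} with hM
  have hML : M ≤ L := by
    rw [hM, Submodule.span_le]
    rintro _ ⟨x, hx, y, hy, rfl⟩
    exact hbr x hx y hy
  rcases hs M hML (by
    intro x hx y hy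
    exact Submodule.subset_span ⟨x, hx, y, hML hy, rfl⟩) with h | h
  · exfalso
    obtain ⟨a, ha, b, hb, hab⟩ := hab
    apply hab
    have h1 : a * b - b * a ∈ M := Submodule.subset_span ⟨a, ha, b, hb, rfl⟩
    rw [h, Submodule.mem_bot] at h1
    exact h1
  · rw [h]; exact hx

/-- The last step of the group theorem. -/
theorem so_of_skew [CharZero K] (D : IsOrthPair Γ J G π)
    (hs : Smp (SL (fJ J) (GE G) (TE Γ) (Matrix.toLin' π)))
    (hab : ∃ x ∈ SL (fJ J) (GE G) (TE Γ) (Matrix.toLin' π),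
      ∃ y ∈ SL (fJ J) (GE G) (TE Γ) (Matrix.toLin' π), x * y - y * x ≠ 0)
    (h : ∀ z, IsSk (fJ J) z → z ∈ SL (fJ J) (GE G) (TE Γ) (Matrix.toLin' π)) :
    ContainsSO J G := by
  have hbr : ∀ x ∈ SL (fJ J) (GE G) (TE Γ) (Matrix.toLin' π),
      ∀ y ∈ SL (fJ J) (GE G) (TE Γ) (Matrix.toLin' π),
      x * y - y * x ∈ SL (fJ J) (GE G) (TE Γ) (Matrix.toLin' π) :=
    fun x hx y hy => lieGen_comm hx hy
  have hlie : ∀ z : Matrix m m K, z.transpose * J + J * z = 0 →
      z ∈ lieOf (Matrix.stdBasis K m m) (gM G) := by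
    intro z hz
    have hsk : IsSk (fJ J) (Matrix.toLin' z) := by
      intro v w
      rw [gb_fJ, gb_fJ, Matrix.toLin'_apply, Matrix.toLin'_apply]
      have e : (z.mulVec v) ⬝ᵥ J.mulVec w = v ⬝ᵥ (z.transpose * J).mulVec w := by
        rw [← Matrix.mulVec_mulVec, Matrix.dotProduct_mulVec v, Matrix.vecMul_transpose]
      rw [e, eq_neg_of_add_eq_zero_left hz, Matrix.neg_mulVec, dotProduct_neg,
        Matrix.mulVec_mulVec]
    have h1 := sl_der hbr hs hab (h _ hsk)
    have h2 : LinearMap.toMatrix' (Matrix.toLin' z) ∈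
        lieOf (Matrix.stdBasis K m m) (gM G) := by
      refine Submodule.span_induction (p := fun x _ => LinearMap.toMatrix' x ∈
        lieOf (Matrix.stdBasis K m m) (gM G)) ?_ ?_ ?_ ?_ h1
      · rintro _ ⟨x, hx, y, hy, rfl⟩
        exact o_br (sl_le D hx) (sl_le D hy)
      · rw [map_zero]; exact lieOf_zero
      · intro x y _ _ hx hy
        rw [map_add]; exact lieOf_add hx hy
      · intro c x _ hx
        rw [map_smul]; exact lieOf_smul c hx
    rwa [LinearMap.toMatrix'_toLin'] at h2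
  intro g hg hg1
  let S : Submonoid (Matrix m m K) :=
    { carrier := {A | ∃ g ∈ G, (g : Matrix m m K) = A}
      one_mem' := ⟨1, G.one_mem, rfl⟩
      mul_mem' := by
        rintro _ _ ⟨a, ha, rfl⟩ ⟨b, hb, rfl⟩
        exact ⟨a * b, G.mul_mem ha hb, rfl⟩ }
  obtain ⟨g', hg', he⟩ : (g : Matrix m m K) ∈ S :=
    isom_mem D.symm D.det S (fun v w hv hw => rfl_rfl_mem D.symm D.closed hlie hv hw) hg hg1
  rwa [← Units.ext he]

end OR
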