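import Pool.Agent.Helper21.OR.Eig
import Pool.Agent.Helper88.OR.GL

/-!
Orthogonal pairs with the data of a bad place: the group theorem.
-/

set_option linter.unusedSectionVars false

open Module MTPairs

attribute [local instance 100] LieRing.ofAssociativeRing

namespace OR

open MTP MTP.MF TR UN UN.GA Pool.Agent.Helper54.MT

variable {K : Type*} [Field K] [IsAlgClosed K] [CharZero K] {m : Type*} [Fintype m]
  [DecidableEq m]

/-- **The group theorem.** -/
theorem so_of_eig {Γ : Subgroup (Equiv.Perm (m → K))} {J : Matrix m m K}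
    {G : Subgroup (Matrix.GeneralLinearGroup m K)} {π : Matrix m m K}
    (D : IsOrthPair Γ J G π) {r k : ℕ} (hd : DenseQuad Γ G ⊤ r)
    (hb : ∃ u ∈ G, ∃ g ∈ G, IsBadEig u g ⊤ r k) (hexc : ¬ EigExc r k (Fintype.card m)) :
    ContainsSO J G := by
  obtain ⟨u, hu, g, hg, hbad⟩ := id hb
  obtain ⟨hr0, hqr, -⟩ := hbad
  have hm : Nonempty m := by
    by_contra hcon
    rw [not_nonempty_iff] at hcon
    have h1 := hqr.2
    rw [Module.finrank_zero_of_subsingleton] at h1
    omega
  have S := ostr D hm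
  have hsmp := S.ctx.irr.smp_of_dense S.nd (fun τ hτ => S.isTw hτ) S.tsmp S.tmul S.tone
    S.tinv (by
      intro τ hτ E
      obtain ⟨τ', hτ', h1, u', hu', h2, h3, -, h5⟩ := dense_E D hr0 hd τ hτ E
      refine ⟨τ', hτ', h1, u' - 1, S.quad_mem hu' h2, h2, h3, ?_⟩
      rw [map_sub, h5, map_one])
  obtain ⟨τ', hτ', h1, u', hu', h2, h3, -, h5⟩ := dense_E D hr0 hd _ S.tone ∅
  have hxL := S.quad_mem hu' h2
  obtain ⟨w, hw, hxw⟩ := S.ctx.irr.exists_not_comm hxL h2 h3
  exact so_of_skew D hsmp ⟨_, hxL, w, hw, hxw⟩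
    (fun z hz => lie_eig D hd hb hexc hm hz)

end OR
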