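import Mathlib

/-!
Reflections.
-/

namespace OR

variable {K : Type*} [Field K] {m : Type*} [Fintype m] [DecidableEq m]

/-- The matrix of the reflection in the vector `v` for the symmetric form with Gram matrix `J`. -/
noncomputable def rfn (J : Matrix m m K) (v : m → K) : Matrix m m K :=
  1 - (2 / (v ⬝ᵥ J.mulVec v)) • Matrix.vecMulVec v (J.mulVec v)

end OR
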