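import Pool.Agent.Helper88.OR.TwoLengths

/-!
Systems with two root lengths, even parity (a copy of Helper16/TR/Q2): a root of value zero orthogonal to `i` is not orthogonal to all
weights which pair to one with `i`.
-/

namespace OR

open TR (co Step)

variable {K : Type*} [Field K] [CharZero K] {M : Type*} [AddCommGroup M] [Module K M]
  [DecidableEq M] {B : LinearMap.BilinForm K M} {s : M →ₗ[K] K} {ΦL ΦS X : Finset M}

/-- Two long roots of value two which are not `i` or its partner are separated by a weight which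
pairs to one with `i`. -/
theorem N1.separate {u : M} (H : N1 B s ΦL ΦS X u) {i a b x : M} (hi : i ∈ ΦL) (hsi : s i = 2)
    (hx : x ∈ X) (hxi : B x i = 2) (ha : a ∈ ΦL) (hsa : s a = 2) (hb : b ∈ ΦL) (hsb : s b = 2)
    (hab : a ≠ b) (hbi : b ≠ i) (hbi' : b ≠ (2 : K) • u - i)
    (hz : ∀ z ∈ X, B z i = 2 → B z a = B z b) : False := by
  have hsx := H.h.f2L hx hi hsi hxi
  by_cases hp : b = (2 : K) • u - a
  · have h1 := hz x hx hxi
    rw [hp, H.xpartner hx hsx] at h1
    rcases H.h.posL hx ha hsa hsx with h2 | h2 <;> rw [h2] at h1 <;> norm_num at h1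
  have hp' : a ≠ (2 : K) • u - b := by
    rintro rfl
    apply hp
    abel
  have hbi'' : i ≠ (2 : K) • u - b := by
    rintro rfl
    apply hbi'
    abel
  rcases H.mem_or hx hsx hb hsb with h1 | h1
  · obtain ⟨-, -, h2⟩ := H.mem_T.mp h1
    obtain ⟨h3, h4, h5, h6⟩ := H.flip hx hsx hb hsb h2
    have h7 := h6 i hi hsi (Ne.symm hbi) hbi''
    have h8 := h6 a ha hsa hab hp'
    rw [hxi] at h7
    rw [hz _ h3 h7, h5, hz x hx hxi, h2] at h8
    norm_num at h8
  · obtain ⟨hb', hsb', h2⟩ := H.mem_T.mp h1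
    obtain ⟨h3, h4, h5, h6⟩ := H.flip hx hsx hb' hsb' h2
    have e : (2 : K) • u - ((2 : K) • u - b) = b := by abel
    have h7 := h6 i hi hsi hbi'' (by rw [e]; exact Ne.symm hbi)
    have h8 := h6 a ha hsa hp' (by rw [e]; exact hab)
    rw [hxi] at h7
    have h9 := H.xpartner (k := b) h3 h4
    rw [h5] at h9
    have h10 := H.xpartner (k := b) hx hsx
    rw [h2] at h10
    rw [hz _ h3 h7, hz x hx hxi] at h8
    have h11 : (0 : K) = 2 := by linear_combination h9 - h10 - h8
    norm_num at h11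

theorem TL.nontriv_aux (h : TL B s ΦL ΦS X) {u : M} (H : N1 B s ΦL ΦS X u) {i g x a : M}
    (hi : i ∈ ΦL) (hsi : s i = 2) (hx : x ∈ X) (hxi : B x i = 2) (hg : g ∈ ΦL ∨ g ∈ ΦS)
    (sg : s g = 0) (hig : B g i = 0) (hgu : B g u = 0) (ha : a ∈ ΦL) (hsa : s a = 2)
    (hag : B a g = 2) (hz : ∀ z ∈ X, B z i = 2 → B z g = 0) : False := by
  have hex : ∃ c : K, a - c • g ∈ ΦL ∧ c * B g g = 4 := by
    rcases hg with hg | hg
    · exact ⟨1, by rw [one_smul]; exact h.subLL a ha g hg hag, by rw [h.four g hg]; ring⟩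
    · exact ⟨2, (h.subLS a ha g hg hag).2, by rw [h.two g hg]; ring⟩
  obtain ⟨c, hc, hcg⟩ := hex
  have h1 : B (a - c • g) g = -2 := by
    rw [map_sub, map_smul, LinearMap.sub_apply, LinearMap.smul_apply, hag, smul_eq_mul, hcg]
    ring
  refine H.separate hi hsi hx hxi ha hsa hc (by rw [map_sub, map_smul, sg, hsa]; simp) ?_ ?_ ?_ ?_
  · intro e
    rw [← e, hag] at h1
    norm_num at h1
  · intro e
    rw [e, h.symm, hig] at h1
    norm_num at h1
  · intro e
    rw [e, h.symm, map_sub, map_smul, hgu, hig] at h1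
    norm_num at h1
  · intro z hzX hzi
    rw [map_sub, map_smul, hz z hzX hzi, smul_zero, sub_zero]

/-- Q2. -/
theorem TL.nontriv (h : TL B s ΦL ΦS X) {i g x y : M}
    (hi : i ∈ ΦL) (hs : s i = 2) (hx : x ∈ X) (hy : y ∈ X) (hxy : x ≠ y) (hxi : B x i = 2)
    (hyi : B y i = 2)
    (hg : g ∈ ΦL ∪ ΦS) (sg : s g = 0) (hig : B g i = 0) :
    ∃ z ∈ X, B z i = 2 ∧ B z g ≠ 0 := by
  by_contra hcon
  push Not at hcon
  by_cases hno : ∀ g ∈ ΦL, s g = 2 → g ≠ i → B i g = 0
  · have e1 := h.n2_eq hi hs hno hx hxi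
    have e2 := h.n2_eq hi hs hno hy hyi
    have e3 : (2 : K) • y = (2 : K) • x := by
      rw [two_smul, two_smul, e1, e2]
    exact hxy (smul_right_injective M (two_ne_zero (α := K)) e3).symm
  push Not at hno
  obtain ⟨g', hg', hsg', hgi', hig'⟩ := hno
  obtain ⟨u, hu, hsu, huniq, hadj⟩ := h.n1_struct hi hg' hs hsg' hgi' hig'
  have H : N1 B s ΦL ΦS X u := ⟨h, hu, hsu, huniq, hadj⟩
  have hgm := Finset.mem_union.mp hg
  have hgu : B g u = 0 := by
    rcases hgm with h1 | h1
    · exact h.orthLS hu h1 hsu sg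
    · exact H.short_orth h1 sg
  have hex : ∃ a ∈ ΦL, s a = 2 ∧ B g a ≠ 0 := by
    by_contra hcon2
    push Not at hcon2
    have h1 := h.hit g (fun a ha hsa => by
      rcases Finset.mem_union.mp ha with ha | ha
      · exact hcon2 a ha hsa
      · rw [H.uniq a ha hsa, hgu]) g hg
    exact h.norm_ne hgm h1
  obtain ⟨a, ha, hsa, hga⟩ := hex
  have hne : a ≠ g := by rintro rfl; rw [hsa] at sg; norm_num at sg
  have hne' : a ≠ -g := by
    rintro rfl
    rw [map_neg, sg] at hsa
    norm_num at hsa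
  have hcase : B a g = -2 ∨ B a g = 0 ∨ B a g = 2 := by
    rcases hgm with h1 | h1
    · exact h.pairLL a ha g h1 hne hne'
    · exact h.pairLS a ha g h1
  rcases hcase with h1 | h1 | h1
  · refine h.nontriv_aux H hi hs hx hxi (g := -g) ?_ (by rw [map_neg, sg, neg_zero])
      (by rw [map_neg, LinearMap.neg_apply, hig, neg_zero])
      (by rw [map_neg, LinearMap.neg_apply, hgu, neg_zero]) ha hsa
      (by rw [map_neg, h1, neg_neg]) (fun z hz hzi => by rw [map_neg, hcon z hz hzi, neg_zero])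
    rcases hgm with h2 | h2
    · exact Or.inl (h.negL g h2)
    · exact Or.inr (h.negS g h2)
  · rw [h.symm] at h1
    exact hga h1
  · exact h.nontriv_aux H hi hs hx hxi hgm sg hig hgu ha hsa h1 hcon

end OR
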