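import Pool.Agent.Helper21.TR.Defs

/-!
Systems with two root lengths, even parity.
-/

namespace OR

open TR (co Step)

variable {K : Type*} [Field K] {M : Type*} [AddCommGroup M] [Module K M]

/-- Systems with two root lengths: long roots `ΦL` of squared length four, short roots `ΦS` of
squared length two, weights `X`, coweight `s`; even parity. -/
structure TL [DecidableEq M] (B : LinearMap.BilinForm K M) (s : M →ₗ[K] K)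
    (ΦL ΦS X : Finset M) : Prop where
  symm : ∀ x y, B x y = B y x
  four : ∀ a ∈ ΦL, B a a = 4
  two : ∀ a ∈ ΦS, B a a = 2
  negL : ∀ a ∈ ΦL, -a ∈ ΦL
  negS : ∀ a ∈ ΦS, -a ∈ ΦS
  pairLL : ∀ a ∈ ΦL, ∀ b ∈ ΦL, a ≠ b → a ≠ -b → B a b = -2 ∨ B a b = 0 ∨ B a b = 2
  pairLS : ∀ a ∈ ΦL, ∀ b ∈ ΦS, B a b = -2 ∨ B a b = 0 ∨ B a b = 2
  pairSS : ∀ a ∈ ΦS, ∀ b ∈ ΦS, a ≠ b → a ≠ -b → B a b = -1 ∨ B a b = 0 ∨ B a b = 1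
  subLL : ∀ a ∈ ΦL, ∀ b ∈ ΦL, B a b = 2 → a - b ∈ ΦL
  subLS : ∀ a ∈ ΦL, ∀ b ∈ ΦS, B a b = 2 → a - b ∈ ΦS ∧ a - (2 : K) • b ∈ ΦL
  subSS : ∀ a ∈ ΦS, ∀ b ∈ ΦS, B a b = 1 → a - b ∈ ΦS
  smallL : ∀ x ∈ X, ∀ a ∈ ΦL, B x a = -2 ∨ B x a = 0 ∨ B x a = 2
  smallS : ∀ x ∈ X, ∀ a ∈ ΦS, B x a = -1 ∨ B x a = 0 ∨ B x a = 1
  xsubL : ∀ x ∈ X, ∀ a ∈ ΦL, B x a = 2 → x - a ∈ X
  xsubS : ∀ x ∈ X, ∀ a ∈ ΦS, B x a = 1 → x - a ∈ X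
  xneg : ∀ x ∈ X, -x ∈ X
  sx : ∀ x ∈ X, s x = 1 ∨ s x = -1
  faithL : ∀ a ∈ ΦL, ∃ x ∈ X, B x a = 2
  faithS : ∀ a ∈ ΦS, ∃ x ∈ X, B x a = 1
  chain : ∀ x ∈ X, ∀ y ∈ X, s x = 1 → s y = 1 →
    Relation.ReflTransGen (Step (co B) s (ΦL ∪ ΦS)) x y
  exL : ∃ a ∈ ΦL, s a = 2
  exS : ∃ a ∈ ΦS, s a = 2
  -- the roots of value two span everything
  hit : ∀ m : M, (∀ a ∈ ΦL ∪ ΦS, s a = 2 → B m a = 0) → ∀ a ∈ ΦL ∪ ΦS, B m a = 0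
  sep : ∀ x ∈ X, ∀ y ∈ X, (∀ a ∈ ΦL ∪ ΦS, B x a = B y a) → x = y
  orth : ∀ x ∈ X, ∀ a ∈ ΦL, B x a = 2 → ∃ A : Finset M, A ⊆ ΦL ∪ ΦS ∧ a ∈ A ∧
    (∀ b ∈ A, co B x b = 1) ∧ (∀ b ∈ A, ∀ c ∈ A, b ≠ c → B b c = 0) ∧ ∑ b ∈ A, b = x + x
  par : ∀ x ∈ X, ∃ A : Finset M, A ⊆ ΦL ∪ ΦS ∧ (∀ b ∈ A, co B x b = 1) ∧
    (∀ b ∈ A, ∀ c ∈ A, b ≠ c → B b c = 0 ∧ b + c ∉ ΦL ∪ ΦS) ∧ ∑ b ∈ A, b = x + x ∧ Even A.card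

end OR
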