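import Pool.Agent.Helper88.OR.SL
import Pool.Agent.Helper88.OR.ToTL
import Pool.Agent.Helper88.OR.TLQ2

/-!
The classification of symmetric weight sets of sign type, even parity.
-/

open Module

namespace OR

open TR Pool.Agent.Helper54.MT RootPairing

variable {ι K M N : Type*} [Field K] [CharZero K] [AddCommGroup M] [Module K M]
  [AddCommGroup N] [Module K N] {P : RootPairing ι K M N} [Fintype ι] [P.IsCrystallographic]
  [P.IsReduced] [P.IsIrreducible] [DecidableEq M]

/-- The long roots in the sense of `Long` are the roots of maximal length. -/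
theorem len_long {X : Finset M} {s : Module.Dual K M} (h : Sit P X s) {θ : ι}
    (hθ : Long P θ) {l : ℤ} {i0 : ι} (hi0 : len P i0 = 2 * l) (hlθ : len P θ = l) : False := by
  have hl0 := len_pos P θ
  obtain ⟨k, hk1, hk2⟩ := P.exists_form_eq_form_and_form_ne_zero
    (P.posRootForm ℤ).toInvariantForm θ i0
  have e1 : len P k = len P i0 := by
    have h1 : (len P k : K) = (len P i0 : K) := by
      rw [← fm_self, ← fm_self]
      exact hk1
    exact_mod_cast h1
  have e2 : P.pairingIn ℤ θ k ≠ 0 := by
    intro h0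
    have h1 := fm_root_root P θ k
    rw [h0, Int.cast_zero, zero_mul] at h1
    exact hk2 ((mul_eq_zero.mp h1).resolve_left two_ne_zero)
  have h3 := pair_len P k θ
  rw [e1, hi0, hlθ] at h3
  have h4 : (P.pairingIn ℤ k θ - 2 * P.pairingIn ℤ θ k) * l = 0 := by linear_combination h3
  have h5 : P.pairingIn ℤ k θ = 2 * P.pairingIn ℤ θ k := by
    rcases mul_eq_zero.mp h4 with h5 | h5 <;> omega
  have h6 : k ≠ θ := by
    rintro rfl
    omega
  have h7 : P.root k ≠ -P.root θ := by
    intro hc
    have := len_of_neg hc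
    omega
  have h8 := hθ k h6 h7
  omega

open Classical in
/-- The simply laced case: all counts. -/
theorem rx_sl {X : Finset M} {s : Module.Dual K M} (h : Sit P X s) (hspan : P.rootSpan K = ⊤)
    (hpar : ParE P X) {l : ℤ} (hl : ∀ i, len P i = l) (θ : ι) :
    (X.filter (fun x => P.coroot' θ x = 1)).card = 1 ∨ Two P X ∨
    (∃ m, Even m ∧ 4 ≤ m ∧ X.card = (2 * m).choose m ∧
      (X.filter (fun x => P.coroot' θ x = 1)).card = (2 * m - 2).choose (m - 1)) ∨
    (∃ n, (n % 4 = 0 ∨ n % 4 = 3) ∧ 3 ≤ n ∧ X.card = 2 ^ n ∧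
      (X.filter (fun x => P.coroot' θ x = 1)).card = 2 ^ (n - 2)) := by
  obtain ⟨Φ, hm, hm', hU⟩ := toUSL h hspan hl
  have hcount : ∀ i, (X.filter (fun x => bf P l x (P.root i) = 1)).card =
      (X.filter (fun x => P.coroot' i x = 1)).card := by
    intro i
    congr 1
    refine Finset.filter_congr fun x _ => ?_
    rw [bf_one (hl i)]
  rcases sl_class hU h.ws.neg (fun x hx => norm_nat h hpar hl hx) with h1 | h1 | ⟨m, a, b, c, d⟩ |
    ⟨n, a, b, c, d⟩
  · left
    rw [← hcount]
    exact h1 _ (hm θ)
  · right; left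
    refine ⟨fun i => ?_, fun x hx y hy hxy hxy' => ?_⟩
    · rw [← hcount]
      exact h1 _ (hm i)
    · exact hm' _ (sub_root hU h.ws.neg h1 hx hy hxy hxy')
  · right; right; left
    refine ⟨m, a, b, c, ?_⟩
    rw [← hcount]
    exact d _ (hm θ)
  · right; right; right
    refine ⟨n, Or.inr a, b, c, ?_⟩
    rw [← hcount]
    exact d _ (hm θ)

open Classical in
/-- The classification for root pairings. -/
theorem rx {X : Finset M} (hW : WeightSet P (X : Set M)) (hne : X.Nonempty)
    (s : Module.Dual K M) (hs : ∀ x ∈ X, s x = 1 ∨ s x = -1)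
    (hspan : P.rootSpan K = ⊤) (hpar : ParE P X) :
    ∃ θ, Long P θ ∧ ((X.filter (fun x => P.coroot' θ x = 1)).card = 1 ∨ Two P X ∨
    (∃ m, Even m ∧ 4 ≤ m ∧ X.card = (2 * m).choose m ∧
      (X.filter (fun x => P.coroot' θ x = 1)).card = (2 * m - 2).choose (m - 1)) ∨
    (∃ n, (n % 4 = 0 ∨ n % 4 = 3) ∧ 3 ≤ n ∧ X.card = 2 ^ n ∧
      (X.filter (fun x => P.coroot' θ x = 1)).card = 2 ^ (n - 2))) := by
  have h : Sit P X s := ⟨hW, hne, hs⟩
  by_cases hall : ∀ i j, len P i = len P j
  · -- simply laced
    obtain ⟨i0, -, hi0⟩ := h.exists_s Set.univ (by rw [Set.image_univ]; exact hspan)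
      (fun _ _ => Set.mem_univ _)
    have hl : ∀ i, len P i = len P i0 := fun i => hall i i0
    refine ⟨i0, ?_, rx_sl h hspan hpar hl i0⟩
    intro i hi hi'
    exact h.same hi hi' (hall i i0)
  · -- two lengths
    rw [not_forall] at hall
    obtain ⟨i1, hall⟩ := hall
    rw [not_forall] at hall
    obtain ⟨j1, hij⟩ := hall
    obtain ⟨i0, j0, hij0⟩ : ∃ i0 j0, len P i0 = 2 * len P j0 := by
      rcases h.len_cases i1 j1 with h1 | h1 | h1
      · exact absurd h1 hij
      · exact ⟨i1, j1, h1⟩
      · exact ⟨j1, i1, h1⟩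
    set l := len P j0 with hl
    have hl0 : 0 < l := len_pos P j0
    have hlen : ∀ i, len P i = l ∨ len P i = 2 * l := by
      intro i
      have h1 := h.len_cases i i0
      have h2 := h.len_cases i j0
      rw [hij0] at h1
      rw [← hl] at h2
      omega
    obtain ⟨a, ha, has, h1⟩ := TL.main (toTL h hspan hpar hlen hij0 hl.symm)
    obtain ⟨θ, hθ, rfl⟩ := mem_ofLen.mp ha
    have h2 : X.filter (fun x => bf P l x (P.root θ) = 2) =
        X.filter (fun x => P.coroot' θ x = 1) := by
      refine Finset.filter_congr fun x _ => ?_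
      rw [bf_two hθ]
      constructor
      · intro h3
        have h2 : (2 : K) * (P.coroot' θ x - 1) = 0 := by linear_combination h3
        have h3 := (mul_eq_zero.mp h2).resolve_left two_ne_zero
        linear_combination h3
      · intro h3
        rw [h3, mul_one]
    rw [h2] at h1
    refine ⟨θ, ?_, ?_⟩
    · intro i hi hi'
      rcases hlen i with h3 | h3
      · have h4 := pair_len P i θ
        have h5 := len_pos P i
        rw [hθ, h3] at h4
        have h6 : (2 * P.pairingIn ℤ i θ - P.pairingIn ℤ θ i) * l = 0 := by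
          linear_combination h4
        rcases mul_eq_zero.mp h6 with h7 | h7
        · have h8 := h.bound θ i
          omega
        · omega
      · exact h.same hi hi' (h3.trans hθ.symm)
    · rcases h1 with h1 | h1
      · exact Or.inl h1
      · exact Or.inr (Or.inr (Or.inr h1))

open Classical in
/-- Nontriviality for root pairings. -/
theorem rx_nontriv {X : Finset M} {s : Module.Dual K M} (h : Sit P X s)
    (hspan : P.rootSpan K = ⊤) (hpar : ParE P X) {θ : ι} (hθ : Long P θ)
    (hsθ : s (P.root θ) = 2)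
    (h2 : 2 ≤ (X.filter (fun x => P.coroot' θ x = 1)).card) (hnb : ¬ Two P X)
    {g : ι} (sg : s (P.root g) = 0)
    (hg : P.coroot' θ (P.root g) = 0) :
    ∃ z ∈ X, P.coroot' θ z = 1 ∧ P.coroot' g z ≠ 0 := by
  by_cases hall : ∀ i j, len P i = len P j
  · have hl : ∀ i, len P i = len P θ := fun i => hall i θ
    obtain ⟨Φ, hm, hm', hU⟩ := toUSL h hspan hl
    have hcount : ∀ i, (X.filter (fun x => bf P (len P θ) x (P.root i) = 1)).card =
        (X.filter (fun x => P.coroot' i x = 1)).card := by
      intro i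
      congr 1
      refine Finset.filter_congr fun x _ => ?_
      rw [bf_one (hl i)]
    have h3 : 3 ≤ (X.filter (fun x => bf P (len P θ) x (P.root θ) = 1)).card := by
      by_contra hcon
      have h4 : (X.filter (fun x => bf P (len P θ) x (P.root θ) = 1)).card = 2 := by
        rw [hcount] at hcon ⊢
        omega
      have h5 : ∀ a ∈ Φ,
          (X.filter (fun x => bf P (len P θ) x a = 1)).card = 2 := by
        intro a ha
        rw [card_const hU ha (hm θ), h4]
      apply hnb
      refine ⟨fun i => ?_, fun x hx y hy hxy hxy' => ?_⟩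
      · rw [← hcount]
        exact h5 _ (hm i)
      · exact hm' _ (sub_root hU h.ws.neg h5 hx hy hxy hxy')
    obtain ⟨z, hz, h1, h2⟩ := nontriv hU (hm θ)
      (by rw [LinearMap.smul_apply, hsθ, smul_eq_mul]; norm_num) h3 (hm g)
      (by rw [LinearMap.smul_apply, sg, smul_zero])
      (by rw [hU.symm, bf_one (hl θ)]; exact hg)
    rw [bf_one (hl θ)] at h1
    rw [bf_one (hl g)] at h2
    exact ⟨z, hz, h1, h2⟩
  · obtain ⟨x0, hx0, y0, hy0, hxy⟩ := Finset.one_lt_card.mp h2
    obtain ⟨hx0, hx1⟩ := Finset.mem_filter.mp hx0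
    obtain ⟨hy0, hy1⟩ := Finset.mem_filter.mp hy0
    rw [not_forall] at hall
    obtain ⟨i1, hall⟩ := hall
    rw [not_forall] at hall
    obtain ⟨j1, hij⟩ := hall
    obtain ⟨i0, j0, hij0⟩ : ∃ i0 j0, len P i0 = 2 * len P j0 := by
      rcases h.len_cases i1 j1 with h1 | h1 | h1
      · exact absurd h1 hij
      · exact ⟨i1, j1, h1⟩
      · exact ⟨j1, i1, h1⟩
    set l := len P j0 with hl
    have hl0 : 0 < l := len_pos P j0
    have hlen : ∀ i, len P i = l ∨ len P i = 2 * l := by
      intro i
      have h1 := h.len_cases i i0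
      have h2 := h.len_cases i j0
      rw [hij0] at h1
      rw [← hl] at h2
      omega
    have hlθ : len P θ = 2 * l := by
      rcases hlen θ with h1 | h1
      · exact (len_long h hθ hij0 h1).elim
      · exact h1
    have hmem : P.root g ∈ ofLen P (2 * l) ∪ ofLen P l := by
      rw [Finset.mem_union, mem_ofLen, mem_ofLen]
      rcases hlen g with h1 | h1
      · right; exact ⟨g, h1, rfl⟩
      · left; exact ⟨g, h1, rfl⟩
    have htwo : ∀ x : M, P.coroot' θ x = 1 → bf P l x (P.root θ) = 2 := by
      intro x hx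
      rw [bf_two hlθ, hx, mul_one]
    obtain ⟨z, hz, h1, h2⟩ := TL.nontriv (toTL h hspan hpar hlen hij0 hl.symm)
      (i := P.root θ) (g := P.root g) (mem_ofLen.mpr ⟨θ, hlθ, rfl⟩) hsθ hx0 hy0 hxy
      (htwo x0 hx1) (htwo y0 hy1) hmem sg (by rw [bf_two hlθ, hg, mul_zero])
    refine ⟨z, hz, ?_, ?_⟩
    · rw [bf_two hlθ] at h1
      have h3 : (2 : K) * (P.coroot' θ z - 1) = 0 := by linear_combination h1
      have h4 := (mul_eq_zero.mp h3).resolve_left two_ne_zero
      linear_combination h4
    · intro h3
      apply h2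
      rcases hlen g with h4 | h4
      · rw [bf_one h4, h3]
      · rw [bf_two h4, h3, mul_zero]

open Classical in
/-- A linear form which vanishes on the weights of value one at a long root of value two is
constant on the weights of value one orthogonal to this root. -/
theorem rx_const {X : Finset M} (hW : WeightSet P (X : Set M)) (hne : X.Nonempty)
    (s : Module.Dual K M) (hs : ∀ x ∈ X, s x = 1 ∨ s x = -1)
    (hspan : P.rootSpan K = ⊤) (hpar : ParE P X) {θ : ι} (hθ : Long P θ)
    (hsθ : s (P.root θ) = 2)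
    (h2c : 2 ≤ (X.filter (fun x => P.coroot' θ x = 1)).card) (hnb : ¬ Two P X)
    (f : Module.Dual K M) (hf : ∀ x ∈ X, P.coroot' θ x = 1 → f x = 0)
    {x y : M} (hx : x ∈ X) (hy : y ∈ X) (sx : s x = 1) (sy : s y = 1)
    (hxθ : P.coroot' θ x = 0) (hyθ : P.coroot' θ y = 0) : f x = f y := by
  have h : Sit P X s := ⟨hW, hne, hs⟩
  have h3ne : (3 : K) ≠ 1 := by norm_num
  have h3ne' : (3 : K) ≠ -1 := by norm_num
  -- weights of value one pair to zero or one with `θ`
  have hnn : ∀ z ∈ X, s z = 1 → P.coroot' θ z = 0 ∨ P.coroot' θ z = 1 := by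
    intro z hz sz
    rcases hW.small z hz θ with h1 | h1 | h1
    · exfalso
      have h2 : P.coroot' θ (-z) = 1 := by rw [map_neg, h1, neg_neg]
      have h3 := hs _ (sub_root_mem hW (hW.neg z hz) h2)
      rw [map_sub, map_neg, sz, hsθ] at h3
      rcases h3 with h3 | h3
      · exact h3ne' (by linear_combination -h3)
      · exact h3ne (by linear_combination -h3)
    · exact Or.inl h1
    · exact Or.inr h1
  have hchain : Relation.ReflTransGen (fun u v => f u = f v) x y := by
    obtain ⟨l, hl⟩ := hW.conn x hx y hy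
    refine chain_aux hW _ (fun z => s z = 1 ∧ P.coroot' θ z = 0) ?_ hy ⟨sy, hyθ⟩ l.length x hx
      ⟨sx, hxθ⟩ ⟨l, le_rfl, hl⟩
    rintro x hx y hy ⟨hsx, hxt⟩ ⟨hsy, hyt⟩ i h1 h2
    have e1 : x - P.root i ∈ X := sub_root_mem hW hx h1
    have e2 : y + P.root i ∈ X := by
      have h3 : P.coroot' i (-y) = 1 := by rw [map_neg, h2, neg_neg]
      have h4 := hW.neg _ (sub_root_mem hW (hW.neg y hy) h3)
      have h5 : -(-y - P.root i) = y + P.root i := by abel
      rw [h5] at h4
      exact h4
    have h6 := hs _ e1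
    have h7 := hs _ e2
    rw [map_sub, hsx] at h6
    rw [map_add, hsy] at h7
    have h0 : s (P.root i) = 0 := by
      rcases h6 with h6 | h6
      · linear_combination -h6
      · rcases h7 with h7 | h7
        · linear_combination h7
        · exfalso
          have h8 : s (P.root i) = 2 := by linear_combination -h6
          have h9 : s (P.root i) = -2 := by linear_combination h7
          rw [h8] at h9
          have : (4 : K) = 0 := by linear_combination h9
          exact (by norm_num : (4 : K) ≠ 0) this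
    have s1 : s (x - P.root i) = 1 := by rw [map_sub, h0, hsx, sub_zero]
    have s2 : s (y + P.root i) = 1 := by rw [map_add, h0, hsy, add_zero]
    have k1 := hnn _ e1 s1
    have k2 := hnn _ e2 s2
    rw [map_sub, hxt, zero_sub] at k1
    rw [map_add, hyt, zero_add] at k2
    have k0 : P.coroot' θ (P.root i) = 0 := by
      rcases k2 with k2 | k2
      · exact k2
      · exfalso
        rw [k2] at k1
        rcases k1 with k1 | k1
        · exact one_ne_zero (by linear_combination -k1 : (1 : K) = 0)
        · exact two_ne_zero (by linear_combination -k1 : (2 : K) = 0)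
    refine ⟨?_, s1, by rw [map_sub, hxt, k0, sub_zero]⟩
    -- `f (root i) = 0`
    obtain ⟨z, hz, z1, z2⟩ := rx_nontriv h hspan hpar hθ hsθ h2c hnb h0 k0
    have hfi : f (P.root i) = 0 := by
      rcases hW.small z hz i with h8 | h8 | h8
      · have h9 : P.coroot' i (-z) = 1 := by rw [map_neg, h8, neg_neg]
        have h10 := hW.neg _ (sub_root_mem hW (hW.neg z hz) h9)
        have h11 : -(-z - P.root i) = z + P.root i := by abel
        rw [h11] at h10
        have h12 := hf _ h10 (by rw [map_add, z1, k0, add_zero])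
        rw [map_add, hf z hz z1, zero_add] at h12
        exact h12
      · exact absurd h8 z2
      · have h10 := sub_root_mem hW hz h8
        have h12 := hf _ h10 (by rw [map_sub, z1, k0, sub_zero])
        rw [map_sub, hf z hz z1, zero_sub, neg_eq_zero] at h12
        exact h12
    rw [map_sub, hfi, sub_zero]
  clear hx hy sx sy hxθ hyθ
  induction hchain with
  | refl => rfl
  | tail _ h1 ih => exact ih.trans h1

end OR
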