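import Pool.Agent.Helper14.OR.CX
import Pool.Agent.Helper42.OR.Spin
import Pool.Agent.Helper58.OR.CW
import Pool.Agent.Helper20.UN.RP2
import Pool.Agent.Helper13.UN.CE6
import Pool.Agent.Helper88.TR.ToSL
import Pool.Agent.Helper88.OR.CDefs

/-!
Simply laced root pairings with a symmetric weight set, even parity.
-/

open Module

namespace OR

open UN TR Pool.Agent.Helper54.MT RootPairing

section comb

variable {K : Type*} [Field K] [CharZero K] {M : Type*} [AddCommGroup M] [Module K M]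
  {B : LinearMap.BilinForm K M} {s : M →ₗ[K] K} {c : K} {Φ X : Finset M}

open Classical in
/-- The classification of simply laced systems. -/
theorem sl_class (h : USL B s c Φ X) (hneg : ∀ x ∈ X, -x ∈ X)
    (hq : ∀ x ∈ X, ∃ q : ℕ, B x x = q) :
    (∀ a ∈ Φ, (X.filter (fun x => B x a = 1)).card = 1) ∨
    (∀ a ∈ Φ, (X.filter (fun x => B x a = 1)).card = 2) ∨
    (∃ m, Even m ∧ 4 ≤ m ∧ X.card = (2 * m).choose m ∧
      ∀ a ∈ Φ, (X.filter (fun x => B x a = 1)).card = (2 * m - 2).choose (m - 1)) ∨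
    (∃ n, n % 4 = 3 ∧ 3 ≤ n ∧ X.card = 2 ^ n ∧
      ∀ a ∈ Φ, (X.filter (fun x => B x a = 1)).card = 2 ^ (n - 2)) := by
  obtain ⟨b0, hb0, hsb0⟩ := h.ex
  by_cases h1 : (X.filter (fun x => B x b0 = 1)).card = 1
  · left
    intro a ha
    rw [card_const h ha hb0, h1]
  right
  by_cases h2 : (X.filter (fun x => B x b0 = 1)).card = 2
  · left
    intro a ha
    rw [card_const h ha hb0, h2]
  right
  have hr : ∃ a ∈ Φ, s a = 1 ∧ (X.filter (fun x => B x a = 1)).card ≠ 1 := ⟨b0, hb0, hsb0, h1⟩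
  by_cases hadj : ∀ a ∈ Φ, ∀ b ∈ Φ, s a = 1 → s b = 1 → a ≠ b → B a b = 1
  · left
    obtain ⟨m, hm, hm2, hX, hc⟩ := wedge h hneg hq hadj hr
    refine ⟨m, hm, ?_, hX, hc⟩
    by_contra h4
    have hm' : m = 2 := by
      obtain ⟨k, hk⟩ := hm
      omega
    apply h2
    rw [hc b0 hb0, hm']
    rfl
  · right
    push Not at hadj
    obtain ⟨β, hβ, α, hα, hsβ, hsα, hne, hβα⟩ := hadj
    have h0 : B β α = 0 := by
      rcases CR2.f2 h hβ hα hsβ hsα hne with h1 | h1
      · exact h1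
      · exact absurd h1 hβα
    obtain ⟨x, hx, y, hy, hxy, hxβ, hyβ⟩ := CR2.two_weights h hr hβ hsβ
    have hr' : ∃ x ∈ X, ∃ y ∈ X, x ≠ y ∧ B x β = 1 ∧ B y β = 1 :=
      ⟨x, hx, y, hy, hxy, hxβ, hyβ⟩
    rcases h.dich hα hβ hsα hsβ h0 hr' with h3 | ⟨g₀, hg₀, hβg, hu⟩
    · obtain ⟨n, hn, hn4, hX, hc⟩ := spin h hneg hq hr hα hβ hsα hsβ h0
        (fun γ hγ hsγ hβγ => by
          rcases h3 γ hγ hβγ (fun z hz hzβ => CR2.f4 h hβ hγ hz hsβ hsγ hβγ hzβ) with h2 | h2
          · exact h2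
          · exfalso
            rw [h2, map_neg, hsα] at hsγ
            have : (2 : K) = 0 := by linear_combination -hsγ
            exact two_ne_zero this)
      refine ⟨n - 1, by omega, by omega, hX, ?_⟩
      intro a ha
      rw [hc a ha]
      congr 1
    · exfalso
      apply h2
      rw [card_const h hb0 hβ]
      exact pair_two h hα hβ hsα hsβ h0 hr' hg₀ hβg hu

end comb

variable {ι K M N : Type*} [Field K] [CharZero K] [AddCommGroup M] [Module K M]
  [AddCommGroup N] [Module K N] {P : RootPairing ι K M N} [Fintype ι] [P.IsCrystallographic]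
  {X : Finset M} {s : Module.Dual K M}

/-- The situation in the unitary normalisation. -/
theorem usit [P.IsIrreducible] [P.IsReduced] (h : Sit P X s) (hspan : P.rootSpan K = ⊤) :
    USit P X ((2 : K)⁻¹ • s) (2 : K)⁻¹ where
  ws := ⟨h.ws.small, h.ws.refl, h.ws.conn⟩
  sx := by
    intro x hx
    rcases h.sx x hx with h1 | h1
    · left
      rw [LinearMap.smul_apply, h1, smul_eq_mul, mul_one]
    · right
      rw [LinearMap.smul_apply, h1, smul_eq_mul]
      field_simp
      norm_num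
  faith := h.faith
  ex := by
    obtain ⟨i0, -, hi0⟩ := h.exists_s Set.univ (by rw [Set.image_univ]; exact hspan)
      (fun _ _ => Set.mem_univ _)
    refine ⟨i0, ?_⟩
    rw [LinearMap.smul_apply, hi0, smul_eq_mul]
    norm_num

/-- Simply laced systems from root pairings. -/
theorem toUSL [P.IsIrreducible] [P.IsReduced] (h : Sit P X s)
    (hspan : P.rootSpan K = ⊤) {l : ℤ} (hl : ∀ i, len P i = l) :
    ∃ Φ : Finset M, (∀ i, P.root i ∈ Φ) ∧ (∀ a ∈ Φ, ∃ i, P.root i = a) ∧
      USL (bf P l) ((2 : K)⁻¹ • s) (2 : K)⁻¹ Φ X := by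
  classical
  refine ⟨_, fun i => Finset.mem_image_of_mem _ (Finset.mem_univ _), ?_,
    UN.USit.toUSL (usit h hspan) hspan hl⟩
  intro a ha
  obtain ⟨i, -, hi⟩ := Finset.mem_image.mp ha
  exact ⟨i, hi⟩

/-- The norm of the weights. -/
theorem norm_nat [P.IsIrreducible] [P.IsReduced] (h : Sit P X s) (hpar : ParE P X) {l : ℤ}
    (hl : ∀ i, len P i = l) {x : M} (hx : x ∈ X) : ∃ q : ℕ, bf P l x x = q := by
  classical
  obtain ⟨A, hA1, hA2, hA3, hA4⟩ := h.ws.exists_sorth hx
  obtain ⟨q, hq⟩ := hpar x hx A hA1 hA2 hA3 hA4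
  refine ⟨q, ?_⟩
  have h1 : bf P l x (x + x) = A.card := by
    rw [← hA3, map_sum]
    rw [Finset.sum_congr rfl (g := fun _ => (1 : K)), Finset.sum_const, nsmul_eq_mul, mul_one]
    intro i hi
    rw [bf_one (hl i)]
    exact hA1 i hi
  rw [map_add, hq] at h1
  push_cast at h1
  have h2 : (2 : K) * (bf P l x x - q) = 0 := by linear_combination h1
  have h3 := (mul_eq_zero.mp h2).resolve_left two_ne_zero
  linear_combination h3

end OR
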