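import Pool.Agent.Helper88.OR.TLDefs

/-!
Systems with two root lengths, even parity: the combinatorial classification (a copy of
Helper14/TR/TwoLengths, with the other parity).
-/

namespace OR

open TR (co Step)

variable {K : Type*} [Field K] [CharZero K] {M : Type*} [AddCommGroup M] [Module K M]
  [DecidableEq M] {B : LinearMap.BilinForm K M} {s : M →ₗ[K] K} {ΦL ΦS X : Finset M}

namespace TL

/-- Adjacency of roots of value two. -/
def Adj (B : LinearMap.BilinForm K M) (s : M →ₗ[K] K) (ΦL ΦS : Finset M) (a b : M) : Prop :=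
  (a ∈ ΦL ∨ a ∈ ΦS) ∧ (b ∈ ΦL ∨ b ∈ ΦS) ∧ s a = 2 ∧ s b = 2 ∧ B a b ≠ 0

/-- The reflection. -/
noncomputable def rf (B : LinearMap.BilinForm K M) (g a : M) : M := a - co B a g • g

variable (h : TL B s ΦL ΦS X)
include h

theorem sL {a : M} (ha : a ∈ ΦL) : s a = 0 ∨ s a = 2 ∨ s a = -2 := by
  obtain ⟨x, hx, hxa⟩ := h.faithL a ha
  have h1 := h.sx x hx
  have h2 := h.sx _ (h.xsubL x hx a ha hxa)
  rw [map_sub] at h2
  rcases h1 with h1 | h1 <;> rcases h2 with h2 | h2 <;> rw [h1] at h2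
  · left; linear_combination -h2
  · right; left; linear_combination -h2
  · right; right; linear_combination -h2
  · left; linear_combination -h2

theorem sS {a : M} (ha : a ∈ ΦS) : s a = 0 ∨ s a = 2 ∨ s a = -2 := by
  obtain ⟨x, hx, hxa⟩ := h.faithS a ha
  have h1 := h.sx x hx
  have h2 := h.sx _ (h.xsubS x hx a ha hxa)
  rw [map_sub] at h2
  rcases h1 with h1 | h1 <;> rcases h2 with h2 | h2 <;> rw [h1] at h2
  · left; linear_combination -h2
  · right; left; linear_combination -h2
  · right; right; linear_combination -h2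
  · left; linear_combination -h2

theorem s4L {a : M} (ha : a ∈ ΦL) (hs : s a = 4 ∨ s a = -4) : False := by
  rcases h.sL ha with h1 | h1 | h1 <;> rcases hs with h2 | h2 <;> rw [h1] at h2 <;>
    norm_num at h2

theorem s4S {a : M} (ha : a ∈ ΦS) (hs : s a = 4 ∨ s a = -4) : False := by
  rcases h.sS ha with h1 | h1 | h1 <;> rcases hs with h2 | h2 <;> rw [h1] at h2 <;>
    norm_num at h2

theorem coL {a : M} (ha : a ∈ ΦL) (x : M) : co B x a = B x a / 2 := by
  rw [co, h.four a ha]; ring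

theorem coS {a : M} (ha : a ∈ ΦS) (x : M) : co B x a = B x a := by
  rw [co, h.two a ha]; ring

omit h in
theorem ne_neg {a b : M} (ha : s a = 2) (hb : s b = 2) : a ≠ -b := by
  rintro rfl
  rw [map_neg, hb] at ha
  norm_num at ha

/-- F1, long-long -/
theorem f1LL {a b : M} (ha : a ∈ ΦL) (hb : b ∈ ΦL) (hsa : s a = 2) (hsb : s b = 2)
    (hab : a ≠ b) : B a b = 0 ∨ B a b = 2 := by
  rcases h.pairLL a ha b hb hab (ne_neg hsa hsb) with h1 | h1 | h1
  · exfalso
    have h2 := h.subLL a ha (-b) (h.negL b hb) (by rw [map_neg, h1]; ring)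
    refine h.s4L h2 (Or.inl ?_)
    rw [map_sub, map_neg, hsa, hsb]; ring
  · exact Or.inl h1
  · exact Or.inr h1

/-- F1, long-short -/
theorem f1LS {a b : M} (ha : a ∈ ΦL) (hb : b ∈ ΦS) (hsa : s a = 2) (hsb : s b = 2) :
    B a b = 0 ∨ B a b = 2 := by
  rcases h.pairLS a ha b hb with h1 | h1 | h1
  · exfalso
    have h2 := (h.subLS a ha (-b) (h.negS b hb) (by rw [map_neg, h1]; ring)).1
    refine h.s4S h2 (Or.inl ?_)
    rw [map_sub, map_neg, hsa, hsb]; ring
  · exact Or.inl h1
  · exact Or.inr h1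

/-- F1, short-short -/
theorem f1SS {a b : M} (ha : a ∈ ΦS) (hb : b ∈ ΦS) (hsa : s a = 2) (hsb : s b = 2)
    (hab : a ≠ b) : B a b = 0 ∨ B a b = 1 := by
  rcases h.pairSS a ha b hb hab (ne_neg hsa hsb) with h1 | h1 | h1
  · exfalso
    have h2 := h.subSS a ha (-b) (h.negS b hb) (by rw [map_neg, h1]; ring)
    refine h.s4S h2 (Or.inl ?_)
    rw [map_sub, map_neg, hsa, hsb]; ring
  · exact Or.inl h1
  · exact Or.inr h1

/-- F2 -/
theorem f2L {x a : M} (hx : x ∈ X) (ha : a ∈ ΦL) (hsa : s a = 2) (hxa : B x a = 2) :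
    s x = 1 := by
  rcases h.sx x hx with h1 | h1
  · exact h1
  · exfalso
    have h2 := h.sx _ (h.xsubL x hx a ha hxa)
    rw [map_sub, h1, hsa] at h2
    rcases h2 with h2 | h2 <;> norm_num at h2

theorem f2S {x a : M} (hx : x ∈ X) (ha : a ∈ ΦS) (hsa : s a = 2) (hxa : B x a = 1) :
    s x = 1 := by
  rcases h.sx x hx with h1 | h1
  · exact h1
  · exfalso
    have h2 := h.sx _ (h.xsubS x hx a ha hxa)
    rw [map_sub, h1, hsa] at h2
    rcases h2 with h2 | h2 <;> norm_num at h2

theorem posL {x a : M} (hx : x ∈ X) (ha : a ∈ ΦL) (hsa : s a = 2) (hsx : s x = 1) :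
    B x a = 0 ∨ B x a = 2 := by
  rcases h.smallL x hx a ha with h1 | h1 | h1
  · exfalso
    have h2 := h.f2L (h.xneg x hx) ha hsa (by rw [map_neg, LinearMap.neg_apply, h1]; ring)
    rw [map_neg, hsx] at h2
    norm_num at h2
  · exact Or.inl h1
  · exact Or.inr h1

theorem posS {x a : M} (hx : x ∈ X) (ha : a ∈ ΦS) (hsa : s a = 2) (hsx : s x = 1) :
    B x a = 0 ∨ B x a = 1 := by
  rcases h.smallS x hx a ha with h1 | h1 | h1
  · exfalso
    have h2 := h.f2S (h.xneg x hx) ha hsa (by rw [map_neg, LinearMap.neg_apply, h1]; ring)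
    rw [map_neg, hsx] at h2
    norm_num at h2
  · exact Or.inl h1
  · exact Or.inr h1

/-- F3 -/
theorem f3LL {x a b : M} (hx : x ∈ X) (ha : a ∈ ΦL) (hb : b ∈ ΦL) (hsa : s a = 2)
    (hsb : s b = 2) (hxa : B x a = 2) (hxb : B x b = 2) : B a b ≠ 0 := by
  intro hab
  have h1 := h.f2L (h.xsubL x hx a ha hxa) hb hsb (by
    rw [map_sub, LinearMap.sub_apply, hxb, hab]; ring)
  rw [map_sub, h.f2L hx ha hsa hxa, hsa] at h1
  norm_num at h1

theorem f3LS {x a b : M} (hx : x ∈ X) (ha : a ∈ ΦL) (hb : b ∈ ΦS) (hsa : s a = 2)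
    (hsb : s b = 2) (hxa : B x a = 2) (hxb : B x b = 1) : B a b ≠ 0 := by
  intro hab
  have h1 := h.f2S (h.xsubL x hx a ha hxa) hb hsb (by
    rw [map_sub, LinearMap.sub_apply, hxb, hab]; ring)
  rw [map_sub, h.f2L hx ha hsa hxa, hsa] at h1
  norm_num at h1

theorem f3SS {x a b : M} (hx : x ∈ X) (ha : a ∈ ΦS) (hb : b ∈ ΦS) (hsa : s a = 2)
    (hsb : s b = 2) (hxa : B x a = 1) (hxb : B x b = 1) : B a b ≠ 0 := by
  intro hab
  have h1 := h.f2S (h.xsubS x hx a ha hxa) hb hsb (by
    rw [map_sub, LinearMap.sub_apply, hxb, hab]; ring)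
  rw [map_sub, h.f2S hx ha hsa hxa, hsa] at h1
  norm_num at h1

/-- the clique property -/
theorem clique {x a b : M} (hx : x ∈ X) (ha : a ∈ ΦL ∨ a ∈ ΦS) (hb : b ∈ ΦL ∨ b ∈ ΦS)
    (hsa : s a = 2) (hsb : s b = 2) (hxa : co B x a = 1) (hxb : co B x b = 1) :
    B a b ≠ 0 := by
  rcases ha with ha | ha <;> rcases hb with hb | hb
  · rw [h.coL ha] at hxa
    rw [h.coL hb] at hxb
    exact h.f3LL hx ha hb hsa hsb (by linear_combination 2 * hxa) (by linear_combination 2 * hxb)
  · rw [h.coL ha] at hxa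
    rw [h.coS hb] at hxb
    exact h.f3LS hx ha hb hsa hsb (by linear_combination 2 * hxa) hxb
  · rw [h.coS ha] at hxa
    rw [h.coL hb] at hxb
    rw [h.symm]
    exact h.f3LS hx hb ha hsb hsa (by linear_combination 2 * hxb) hxa
  · rw [h.coS ha] at hxa
    rw [h.coS hb] at hxb
    exact h.f3SS hx ha hb hsa hsb hxa hxb

/-- long roots of value zero are orthogonal to short roots of value two -/
theorem orthLS {a g : M} (ha : a ∈ ΦS) (hg : g ∈ ΦL) (hsa : s a = 2) (hsg : s g = 0) :
    B g a = 0 := by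
  rcases h.pairLS g hg a ha with h1 | h1 | h1
  · exfalso
    have h2 := (h.subLS (-g) (h.negL g hg) a ha (by
      rw [map_neg, LinearMap.neg_apply, h1]; ring)).2
    refine h.s4L h2 (Or.inr ?_)
    rw [map_sub, map_neg, map_smul, hsg, hsa, smul_eq_mul]; ring
  · exact h1
  · exfalso
    have h2 := (h.subLS g hg a ha h1).2
    refine h.s4L h2 (Or.inr ?_)
    rw [map_sub, map_smul, hsg, hsa, smul_eq_mul]; ring


/-! ### connectedness -/

theorem adj_symm {a b : M} (hab : Adj B s ΦL ΦS a b) : Adj B s ΦL ΦS b a :=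
  ⟨hab.2.1, hab.1, hab.2.2.2.1, hab.2.2.1, by rw [h.symm]; exact hab.2.2.2.2⟩

/-- a root of value two is connected to its reflections -/
theorem reach_pos {a g : M} (ha : a ∈ ΦL ∨ a ∈ ΦS) (hsa : s a = 2) (hg : g ∈ ΦL ∨ g ∈ ΦS)
    (hsg : s g = 0) (hpos : B a g = 0 ∨ B a g = 1 ∨ B a g = 2) :
    (rf B g a ∈ ΦL ∨ rf B g a ∈ ΦS) ∧ s (rf B g a) = 2 ∧
      Relation.ReflTransGen (Adj B s ΦL ΦS) a (rf B g a) := by
  have hs : s (rf B g a) = 2 := by
    rw [rf, map_sub, map_smul, hsg, hsa]; simp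
  by_cases h0 : B a g = 0
  · have e : rf B g a = a := by rw [rf, co, h0]; simp
    rw [e]
    exact ⟨ha, hsa, Relation.ReflTransGen.refl⟩
  rcases ha with ha | ha <;> rcases hg with hg | hg
  · -- long, long
    have hne : a ≠ g := by rintro rfl; rw [hsa] at hsg; norm_num at hsg
    have hne' : a ≠ -g := by rintro rfl; rw [map_neg, hsg] at hsa; norm_num at hsa
    have h2 : B a g = 2 := by
      rcases h.pairLL a ha g hg hne hne' with h1 | h1 | h1
      · exfalso
        rcases hpos with h3 | h3 | h3 <;> rw [h1] at h3 <;> norm_num at h3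
      · exact absurd h1 h0
      · exact h1
    have e : rf B g a = a - g := by
      rw [rf, h.coL hg, h2]; simp
    rw [e] at hs ⊢
    have hm := h.subLL a ha g hg h2
    refine ⟨Or.inl hm, hs, Relation.ReflTransGen.single ⟨Or.inl ha, Or.inl hm, hsa, hs, ?_⟩⟩
    rw [map_sub, h2, h.four a ha]; norm_num
  · -- long, short
    have h2 : B a g = 2 := by
      rcases h.pairLS a ha g hg with h1 | h1 | h1
      · exfalso
        rcases hpos with h3 | h3 | h3 <;> rw [h1] at h3 <;> norm_num at h3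
      · exact absurd h1 h0
      · exact h1
    have e : rf B g a = a - (2 : K) • g := by
      rw [rf, h.coS hg, h2]
    rw [e] at hs ⊢
    obtain ⟨hm1, hm2⟩ := h.subLS a ha g hg h2
    have hs1 : s (a - g) = 2 := by rw [map_sub, hsg, hsa]; ring
    refine ⟨Or.inl hm2, hs, Relation.ReflTransGen.head (b := a - g)
      ⟨Or.inl ha, Or.inr hm1, hsa, hs1, ?_⟩ (Relation.ReflTransGen.single
      ⟨Or.inr hm1, Or.inl hm2, hs1, hs, ?_⟩)⟩
    · rw [map_sub, h2, h.four a ha]; norm_num
    · simp only [map_sub, map_smul, LinearMap.sub_apply, smul_eq_mul, h.four a ha, h2,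
        h.symm g a, h.two g hg]
      norm_num
  · -- short, long
    exfalso
    exact h0 (by rw [h.symm]; exact h.orthLS ha hg hsa hsg)
  · -- short, short
    have hne : a ≠ g := by rintro rfl; rw [hsa] at hsg; norm_num at hsg
    have hne' : a ≠ -g := by rintro rfl; rw [map_neg, hsg] at hsa; norm_num at hsa
    have h2 : B a g = 1 := by
      rcases h.pairSS a ha g hg hne hne' with h1 | h1 | h1
      · exfalso
        rcases hpos with h3 | h3 | h3 <;> rw [h1] at h3 <;> norm_num at h3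
      · exact absurd h1 h0
      · exact h1
    have e : rf B g a = a - g := by
      rw [rf, h.coS hg, h2]; simp
    rw [e] at hs ⊢
    have hm := h.subSS a ha g hg h2
    refine ⟨Or.inr hm, hs, Relation.ReflTransGen.single ⟨Or.inr ha, Or.inr hm, hsa, hs, ?_⟩⟩
    rw [map_sub, h2, h.two a ha]; norm_num

omit [CharZero K] h in
theorem rf_neg (g a : M) : rf B (-g) a = rf B g a := by
  simp only [rf, co, map_neg, LinearMap.neg_apply, neg_neg, mul_neg, neg_div, smul_neg, neg_smul]

theorem pair_cases {a g : M} (ha : a ∈ ΦL ∨ a ∈ ΦS) (hsa : s a = 2) (hg : g ∈ ΦL ∨ g ∈ ΦS)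
    (hsg : s g = 0) : (B a g = 0 ∨ B a g = 1 ∨ B a g = 2) ∨
      (B a (-g) = 0 ∨ B a (-g) = 1 ∨ B a (-g) = 2) := by
  have hne : a ≠ g := by rintro rfl; rw [hsa] at hsg; norm_num at hsg
  have hne' : a ≠ -g := by rintro rfl; rw [map_neg, hsg] at hsa; norm_num at hsa
  rcases ha with ha | ha <;> rcases hg with hg | hg
  · rcases h.pairLL a ha g hg hne hne' with h1 | h1 | h1
    · right; right; right; rw [map_neg, h1]; ring
    · left; left; exact h1
    · left; right; right; exact h1
  · rcases h.pairLS a ha g hg with h1 | h1 | h1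
    · right; right; right; rw [map_neg, h1]; ring
    · left; left; exact h1
    · left; right; right; exact h1
  · rcases h.pairLS g hg a ha with h1 | h1 | h1
    · right; right; right; rw [map_neg, h.symm, h1]; ring
    · left; left; rw [h.symm]; exact h1
    · left; right; right; rw [h.symm]; exact h1
  · rcases h.pairSS a ha g hg hne hne' with h1 | h1 | h1
    · right; right; left; rw [map_neg, h1]; ring
    · left; left; exact h1
    · left; right; left; exact h1

theorem reach_rf {a g : M} (ha : a ∈ ΦL ∨ a ∈ ΦS) (hsa : s a = 2) (hg : g ∈ ΦL ∨ g ∈ ΦS)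
    (hsg : s g = 0) : (rf B g a ∈ ΦL ∨ rf B g a ∈ ΦS) ∧ s (rf B g a) = 2 ∧
      Relation.ReflTransGen (Adj B s ΦL ΦS) a (rf B g a) := by
  rcases h.pair_cases ha hsa hg hsg with h1 | h1
  · exact h.reach_pos ha hsa hg hsg h1
  · rw [← rf_neg]
    refine h.reach_pos ha hsa ?_ (by rw [map_neg, hsg, neg_zero]) h1
    rcases hg with hg | hg
    · exact Or.inl (h.negL g hg)
    · exact Or.inr (h.negS g hg)

theorem norm_ne {g : M} (hg : g ∈ ΦL ∨ g ∈ ΦS) : B g g ≠ 0 := by
  rcases hg with hg | hg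
  · rw [h.four g hg]; norm_num
  · rw [h.two g hg]; norm_num

theorem co_rf {g : M} (hg : g ∈ ΦL ∨ g ∈ ΦS) (x a : M) : co B (rf B g x) (rf B g a) = co B x a := by
  have hn := h.norm_ne hg
  have e1 : ∀ u v : M, B (rf B g u) (rf B g v) = B u v := by
    intro u v
    simp only [rf, co, map_sub, map_smul, LinearMap.sub_apply, LinearMap.smul_apply, smul_eq_mul,
      h.symm g v]
    field_simp
    ring
  rw [co, co, e1, e1]

theorem reach_chain {x y a : M} (hxy : Relation.ReflTransGen (Step (co B) s (ΦL ∪ ΦS)) x y)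
    (ha : a ∈ ΦL ∨ a ∈ ΦS) (hsa : s a = 2) (hxa : co B x a = 1) :
    ∃ b, (b ∈ ΦL ∨ b ∈ ΦS) ∧ s b = 2 ∧ co B y b = 1 ∧
      Relation.ReflTransGen (Adj B s ΦL ΦS) a b := by
  induction hxy with
  | refl => exact ⟨a, ha, hsa, hxa, Relation.ReflTransGen.refl⟩
  | tail _ hst ih =>
    obtain ⟨b, hb, hsb, hyb, hab⟩ := ih
    obtain ⟨g, hg, hsg, hxg, rfl⟩ := hst
    rw [Finset.mem_union] at hg
    obtain ⟨h1, h2, h3⟩ := h.reach_rf hb hsb hg hsg
    refine ⟨rf B g b, h1, h2, ?_, hab.trans h3⟩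
    rename_i z _
    have e : z - g = rf B g z := by rw [rf, hxg, one_smul]
    rw [e, h.co_rf hg, hyb]

theorem exists_weight {a : M} (ha : a ∈ ΦL ∨ a ∈ ΦS) (hsa : s a = 2) :
    ∃ x ∈ X, s x = 1 ∧ co B x a = 1 := by
  rcases ha with ha | ha
  · obtain ⟨x, hx, hxa⟩ := h.faithL a ha
    exact ⟨x, hx, h.f2L hx ha hsa hxa, by rw [h.coL ha, hxa]; norm_num⟩
  · obtain ⟨x, hx, hxa⟩ := h.faithS a ha
    exact ⟨x, hx, h.f2S hx ha hsa hxa, by rw [h.coS ha, hxa]⟩

theorem reach {a b : M} (ha : a ∈ ΦL ∨ a ∈ ΦS) (hsa : s a = 2) (hb : b ∈ ΦL ∨ b ∈ ΦS)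
    (hsb : s b = 2) : Relation.ReflTransGen (Adj B s ΦL ΦS) a b := by
  obtain ⟨x, hx, hsx, hxa⟩ := h.exists_weight ha hsa
  obtain ⟨y, hy, hsy, hyb⟩ := h.exists_weight hb hsb
  obtain ⟨c, hc, hsc, hyc, hac⟩ := h.reach_chain (h.chain x hx y hy hsx hsy) ha hsa hxa
  exact hac.tail ⟨hc, hb, hsc, hsb, h.clique hy hc hb hsc hsb hyc hyb⟩

/-! ### long and short roots of value two -/

theorem long_ne_short {a : M} (ha : a ∈ ΦL) : a ∉ ΦS := by
  intro hb
  have h1 := h.four a ha
  rw [h.two a hb] at h1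
  norm_num at h1

/-- the partner of a long root with respect to an adjacent short root -/
theorem partner {k u : M} (hk : k ∈ ΦL) (hsk : s k = 2) (hu : u ∈ ΦS) (hsu : s u = 2)
    (hku : B k u = 2) : (2 : K) • u - k ∈ ΦL ∧ s ((2 : K) • u - k) = 2 := by
  have h1 := (h.subLS k hk u hu hku).2
  have h2 := h.negL _ h1
  rw [neg_sub] at h2
  refine ⟨h2, ?_⟩
  rw [map_sub, map_smul, hsk, hsu, smul_eq_mul]; ring

theorem n0 {k k' u : M} (hk : k ∈ ΦL) (hk' : k' ∈ ΦL) (hu : u ∈ ΦS) (hsk : s k = 2)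
    (hsk' : s k' = 2) (hsu : s u = 2) (hkk : B k k' ≠ 0) (hku : B k u ≠ 0) : B k' u = 2 := by
  have hku2 : B k u = 2 := (h.f1LS hk hu hsk hsu).resolve_left hku
  rcases eq_or_ne k k' with rfl | hne
  · exact hku2
  have hkk2 : B k k' = 2 := (h.f1LL hk hk' hsk hsk' hne).resolve_left hkk
  rcases h.f1LS hk' hu hsk' hsu with h1 | h1
  · exfalso
    obtain ⟨h2, h3⟩ := h.partner hk hsk hu hsu hku2
    have h4 : B k' ((2 : K) • u - k) = -2 := by
      rw [map_sub, map_smul, h1, h.symm k' k, hkk2, smul_eq_mul]; ring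
    rcases eq_or_ne k' ((2 : K) • u - k) with h5 | h5
    · rw [← h5, h.four k' hk'] at h4
      norm_num at h4
    · rcases h.f1LL hk' h2 hsk' h3 h5 with h6 | h6 <;> rw [h6] at h4 <;> norm_num at h4
  · exact h1

theorem exists_short {i : M} (hi : i ∈ ΦL) (hsi : s i = 2) : ∃ u ∈ ΦS, s u = 2 ∧ B i u = 2 := by
  obtain ⟨u0, hu0, hsu0⟩ := h.exS
  have key : ∀ b, Relation.ReflTransGen (Adj B s ΦL ΦS) i b →
      (∃ u ∈ ΦS, s u = 2 ∧ B i u = 2) ∨ (b ∈ ΦL ∧ s b = 2 ∧
        ∀ u ∈ ΦS, s u = 2 → B b u ≠ 0 → B i u = 2) := by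
    intro b hb
    induction hb with
    | refl =>
      exact Or.inr ⟨hi, hsi, fun u hu hsu h1 => (h.f1LS hi hu hsi hsu).resolve_left h1⟩
    | tail _ hbc ih =>
      rcases ih with ih | ⟨hb, hsb, ih⟩
      · exact Or.inl ih
      · obtain ⟨_, hc, _, hsc, hbc⟩ := hbc
        rcases hc with hc | hc
        · refine Or.inr ⟨hc, hsc, fun u hu hsu h1 => ?_⟩
          have h2 := h.n0 hc hb hu hsc hsb hsu (by rw [h.symm]; exact hbc) h1
          exact ih u hu hsu (by rw [h2]; norm_num)
        · exact Or.inl ⟨_, hc, hsc, ih _ hc hsc hbc⟩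
  rcases key u0 (h.reach (Or.inl hi) hsi (Or.inr hu0) hsu0) with h1 | h1
  · exact h1
  · exact absurd hu0 (h.long_ne_short h1.1)


/-- orthogonal long roots of value two with a common short neighbour are partners -/
theorem eq_partner {i k u : M} (hi : i ∈ ΦL) (hk : k ∈ ΦL) (hu : u ∈ ΦS) (hsi : s i = 2)
    (hsk : s k = 2) (hsu : s u = 2) (hiu : B i u = 2) (hku : B k u = 2) (hik : B i k = 0) :
    k = (2 : K) • u - i := by
  obtain ⟨h2, h3⟩ := h.partner hi hsi hu hsu hiu
  by_contra hne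
  have h4 : B k ((2 : K) • u - i) = 4 := by
    rw [map_sub, map_smul, hku, h.symm k i, hik, smul_eq_mul]; ring
  rcases h.f1LL hk h2 hsk h3 hne with h6 | h6 <;> rw [h6] at h4 <;> norm_num at h4

/-- a short root adjacent to a short neighbour of `i` and orthogonal to `i` -/
theorem short_sum {i k u : M} (hi : i ∈ ΦL) (hk : k ∈ ΦS) (hu : u ∈ ΦS) (hsi : s i = 2)
    (hsk : s k = 2) (hsu : s u = 2) (hiu : B i u = 2) (hku : B u k = 1) (hik : B i k = 0) :
    i - u + k ∈ ΦS ∧ s (i - u + k) = 2 ∧ B i (i - u + k) = 2 := by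
  have h1 := (h.subLS i hi u hu hiu).1
  have h2 := h.subSS _ h1 (-k) (h.negS k hk) (by
    rw [map_neg, map_sub, LinearMap.sub_apply, hik, hku]; ring)
  rw [sub_neg_eq_add] at h2
  refine ⟨h2, ?_, ?_⟩
  · rw [map_add, map_sub, hsi, hsk, hsu]; ring
  · rw [map_add, map_sub, h.four i hi, hiu, hik]; ring

/-! ### no long neighbours -/

/-- In this case the roots of value two are spanned by `i` and its short neighbours. -/
theorem n2_span {i : M} (hi : i ∈ ΦL) (hsi : s i = 2)
    (hno : ∀ g ∈ ΦL, s g = 2 → g ≠ i → B i g = 0) {m : M} (hmi : B m i = 0)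
    (hm : ∀ u ∈ ΦS, s u = 2 → B i u = 2 → B m u = 0) :
    ∀ a, (a ∈ ΦL ∨ a ∈ ΦS) → s a = 2 → B m a = 0 := by
  -- elements at distance at most one from i or its neighbours
  have key : ∀ b, Relation.ReflTransGen (Adj B s ΦL ΦS) i b →
      b = i ∨ ∃ u ∈ ΦS, s u = 2 ∧ B i u = 2 ∧ B u b ≠ 0 := by
    intro b hb
    induction hb with
    | refl => exact Or.inl rfl
    | @tail b c _ hbc ih =>
      obtain ⟨hb, hc, hsb, hsc, hbc⟩ := hbc
      rcases ih with rfl | ⟨u, hu, hsu, hiu, hub⟩
      · rcases hc with hc | hc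
        · left
          by_contra hne
          exact hbc (hno c hc hsc hne)
        · right
          exact ⟨c, hc, hsc, (h.f1LS hi hc hsi hsc).resolve_left hbc, by
            rw [h.two c hc]; norm_num⟩
      · -- i ~ u ~ b ~ c
        by_cases hci : c = i
        · exact Or.inl hci
        right
        by_cases hic : B i c = 0
        · rcases hb with hb | hb
          · -- b long
            by_cases hbi : b = i
            · subst hbi; exact absurd hic hbc
            have hib : B i b = 0 := hno b hb hsb hbi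
            have hbu : B b u = 2 := (h.f1LS hb hu hsb hsu).resolve_left (by
              rw [h.symm]; exact hub)
            have e := h.eq_partner hi hb hu hsi hsb hsu hiu hbu hib
            refine ⟨u, hu, hsu, hiu, ?_⟩
            intro huc
            apply hbc
            rw [e, map_sub, map_smul, LinearMap.sub_apply, LinearMap.smul_apply, huc, hic]
            simp
          · -- b short
            by_cases hib : B i b = 0
            · by_cases hub' : u = b
              · subst hub'; rw [hiu] at hib; norm_num at hib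
              have hub1 : B u b = 1 := (h.f1SS hu hb hsu hsb hub').resolve_left hub
              obtain ⟨h1, h2, h3⟩ := h.short_sum hi hb hu hsi hsb hsu hiu hub1 hib
              by_cases huc : B u c = 0
              · refine ⟨_, h1, h2, h3, ?_⟩
                rw [map_add, map_sub, LinearMap.add_apply, LinearMap.sub_apply, hic, huc]
                simpa using hbc
              · exact ⟨u, hu, hsu, hiu, huc⟩
            · exact ⟨b, hb, hsb, (h.f1LS hi hb hsi hsb).resolve_left hib, hbc⟩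
        · rcases hc with hc | hc
          · exact absurd (hno c hc hsc hci) hic
          · exact ⟨c, hc, hsc, (h.f1LS hi hc hsi hsc).resolve_left hic, by
              rw [h.two c hc]; norm_num⟩
  intro a ha hsa
  rcases key a (h.reach (Or.inl hi) hsi ha hsa) with rfl | ⟨u, hu, hsu, hiu, hua⟩
  · exact hmi
  · rcases ha with ha | ha
    · by_cases hai : a = i
      · rw [hai]; exact hmi
      have hia : B i a = 0 := hno a ha hsa hai
      have hau : B a u = 2 := (h.f1LS ha hu hsa hsu).resolve_left (by rw [h.symm]; exact hua)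
      rw [h.eq_partner hi ha hu hsi hsa hsu hiu hau hia, map_sub, map_smul, hm u hu hsu hiu, hmi]
      simp
    · by_cases hia : B i a = 0
      · by_cases hua' : u = a
        · subst hua'; rw [hiu] at hia; norm_num at hia
        have hua1 : B u a = 1 := (h.f1SS hu ha hsu hsa hua').resolve_left hua
        obtain ⟨h1, h2, h3⟩ := h.short_sum hi ha hu hsi hsa hsu hiu hua1 hia
        have h4 := hm _ h1 h2 h3
        rw [map_add, map_sub, hmi, hm u hu hsu hiu] at h4
        simpa using h4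
      · exact hm a ha hsa ((h.f1LS hi ha hsi hsa).resolve_left hia)

theorem n2_short {i x u : M} (hi : i ∈ ΦL) (hsi : s i = 2) (hx : x ∈ X) (hxi : B x i = 2)
    (hu : u ∈ ΦS) (hsu : s u = 2) (hiu : B i u = 2) : B x u = 1 := by
  have hsx := h.f2L hx hi hsi hxi
  have h1 := h.xneg _ (h.xsubL x hx i hi hxi)
  rw [neg_sub] at h1
  have h2 : s (i - x) = 1 := by rw [map_sub, hsi, hsx]; ring
  have h3 := h.posS h1 hu hsu h2
  have h4 := h.posS hx hu hsu hsx
  rw [map_sub, LinearMap.sub_apply, hiu] at h3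
  rcases h4 with h4 | h4
  · rw [h4] at h3
    rcases h3 with h3 | h3 <;> norm_num at h3
  · exact h4

theorem n2_eq {i x : M} (hi : i ∈ ΦL) (hsi : s i = 2)
    (hno : ∀ g ∈ ΦL, s g = 2 → g ≠ i → B i g = 0) (hx : x ∈ X) (hxi : B x i = 2) :
    x + x = i := by
  have hsx := h.f2L hx hi hsi hxi
  obtain ⟨A, hA, hiA, hA1, hA2, hA3⟩ := h.orth x hx i hi hxi
  -- all members of A except i have value zero
  have hnn : ∀ b ∈ A, s b = 0 ∨ s b = 2 := by
    intro b hb
    have hbm := Finset.mem_union.mp (hA hb)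
    have hb1 := hA1 b hb
    rcases hbm with hbL | hbS
    · rw [h.coL hbL] at hb1
      rcases h.sL hbL with h1 | h1 | h1
      · exact Or.inl h1
      · exact Or.inr h1
      · exfalso
        have h2 := h.sx _ (h.xsubL x hx b hbL (by linear_combination 2 * hb1))
        rw [map_sub, h1, hsx] at h2
        rcases h2 with h2 | h2 <;> norm_num at h2
    · rw [h.coS hbS] at hb1
      rcases h.sS hbS with h1 | h1 | h1
      · exact Or.inl h1
      · exact Or.inr h1
      · exfalso
        have h2 := h.sx _ (h.xsubS x hx b hbS hb1)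
        rw [map_sub, h1, hsx] at h2
        rcases h2 with h2 | h2 <;> norm_num at h2
  have hsum : ∑ b ∈ A.erase i, s b = 0 := by
    have h1 : ∑ b ∈ A, s b = 2 := by
      rw [← map_sum, hA3, map_add, hsx]; norm_num
    rw [← Finset.add_sum_erase A _ hiA, hsi] at h1
    linear_combination h1
  have hzero : ∀ b ∈ A.erase i, s b = 0 := by
    -- number of elements of value two is zero
    classical
    have h1 : ∑ b ∈ A.erase i, s b = ∑ b ∈ A.erase i, if s b = 2 then (2 : K) else 0 := by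
      refine Finset.sum_congr rfl fun b hb => ?_
      rcases hnn b (Finset.mem_of_mem_erase hb) with h2 | h2
      · rw [h2]; simp
      · rw [h2]; simp
    rw [hsum, ← Finset.sum_filter, Finset.sum_const, nsmul_eq_mul] at h1
    have h2 : ((A.erase i).filter (fun b => s b = 2)).card = 0 := by
      have : (((A.erase i).filter (fun b => s b = 2)).card : K) = 0 := by
        linear_combination -(1 / 2 : K) * h1
      exact_mod_cast this
    intro b hb
    rcases hnn b (Finset.mem_of_mem_erase hb) with h3 | h3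
    · exact h3
    · exfalso
      rw [Finset.card_eq_zero] at h2
      have : b ∈ (A.erase i).filter (fun b => s b = 2) := Finset.mem_filter.mpr ⟨hb, h3⟩
      rw [h2] at this
      simp at this
  have hempty : A.erase i = ∅ := by
    rw [Finset.eq_empty_iff_forall_notMem]
    intro b hb
    have hbA := Finset.mem_of_mem_erase hb
    have hbi := Finset.ne_of_mem_erase hb
    have hb0 := hzero b hb
    have hbm := Finset.mem_union.mp (hA hbA)
    have hbi0 : B b i = 0 := hA2 b hbA i hiA hbi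
    have hxb : x - b ∈ X := by
      rcases hbm with hbL | hbS
      · have := hA1 b hbA
        rw [h.coL hbL] at this
        exact h.xsubL x hx b hbL (by linear_combination 2 * this)
      · have := hA1 b hbA
        rw [h.coS hbS] at this
        exact h.xsubS x hx b hbS this
    have hort := h.n2_span hi hsi hno hbi0 (fun u hu hsu hiu => by
      have e1 := h.n2_short hi hsi hx hxi hu hsu hiu
      have e2 := h.n2_short hi hsi hxb (by rw [map_sub, LinearMap.sub_apply, hxi, hbi0]; ring)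
        hu hsu hiu
      rw [map_sub, LinearMap.sub_apply, e1] at e2
      linear_combination -e2)
    have := h.hit b (fun a ha hsa => hort a (Finset.mem_union.mp ha) hsa) b (hA hbA)
    exact h.norm_ne hbm this
  have : ∑ b ∈ A, b = i := by
    rw [← Finset.add_sum_erase A _ hiA, hempty]; simp
  rw [← hA3, this]

theorem n2_card {i : M} (hi : i ∈ ΦL) (hsi : s i = 2)
    (hno : ∀ g ∈ ΦL, s g = 2 → g ≠ i → B i g = 0) [DecidablePred fun x => B x i = 2] :
    (X.filter (fun x => B x i = 2)).card = 1 := by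
  obtain ⟨x, hx, hxi⟩ := h.faithL i hi
  rw [Finset.card_eq_one]
  refine ⟨x, ?_⟩
  ext y
  rw [Finset.mem_filter, Finset.mem_singleton]
  constructor
  · rintro ⟨hy, hyi⟩
    have e1 := h.n2_eq hi hsi hno hx hxi
    have e2 := h.n2_eq hi hsi hno hy hyi
    have e3 : (2 : K) • y = (2 : K) • x := by
      rw [two_smul, two_smul, e1, e2]
    exact smul_right_injective M (two_ne_zero (α := K)) e3
  · rintro rfl
    exact ⟨hx, hxi⟩


/-! ### some long neighbour -/

theorem n1_unique {i g u v : M} (hi : i ∈ ΦL) (hg : g ∈ ΦL) (hsi : s i = 2) (hsg : s g = 2)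
    (hgi : g ≠ i) (hig : B i g ≠ 0) (hu : u ∈ ΦS) (hv : v ∈ ΦS) (hsu : s u = 2) (hsv : s v = 2)
    (hiu : B i u ≠ 0) (hiv : B i v ≠ 0) : u = v := by
  by_contra huv
  have hig2 : B i g = 2 := (h.f1LL hi hg hsi hsg (Ne.symm hgi)).resolve_left hig
  have hiu2 : B i u = 2 := (h.f1LS hi hu hsi hsu).resolve_left hiu
  have hiv2 : B i v = 2 := (h.f1LS hi hv hsi hsv).resolve_left hiv
  have hgu : B g u = 2 := h.n0 hi hg hu hsi hsg hsu hig hiu
  have hgv : B g v = 2 := h.n0 hi hg hv hsi hsg hsv hig hiv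
  obtain ⟨hp1, hp2⟩ := h.partner hi hsi hu hsu hiu2
  obtain ⟨hq1, hq2⟩ := h.partner hi hsi hv hsv hiv2
  obtain ⟨hr1, hr2⟩ := h.partner hg hsg hu hsu hgu
  -- the partners of i with respect to u and v
  have hne : (2 : K) • u - i ≠ (2 : K) • v - i := by
    intro e
    have : (2 : K) • u = (2 : K) • v := sub_left_injective e
    exact huv (smul_right_injective M (two_ne_zero (α := K)) this)
  have e1 : B ((2 : K) • u - i) ((2 : K) • v - i) = 4 * B u v - 4 := by
    simp only [map_sub, map_smul, LinearMap.sub_apply, LinearMap.smul_apply, smul_eq_mul,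
      h.symm u i, hiu2, hiv2, h.four i hi]
    ring
  have huv1 : B u v = 1 := by
    rcases h.f1SS hu hv hsu hsv huv with h1 | h1
    · exfalso
      rw [h1] at e1
      rcases h.f1LL hp1 hq1 hp2 hq2 hne with h2 | h2 <;> rw [h2] at e1 <;> norm_num at e1
    · exact h1
  have e2 : B ((2 : K) • u - g) ((2 : K) • v - i) = -2 := by
    simp only [map_sub, map_smul, LinearMap.sub_apply, LinearMap.smul_apply, smul_eq_mul,
      h.symm u i, hiu2, huv1, hgv, h.symm g i, hig2]
    ring
  by_cases h3 : (2 : K) • u - g = (2 : K) • v - i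
  · rw [h3, h.four _ hq1] at e2
    norm_num at e2
  · rcases h.f1LL hr1 hq1 hr2 hq2 h3 with h2 | h2 <;> rw [h2] at e2 <;> norm_num at e2

/-- In the presence of a long neighbour there is exactly one short root of value two, and it is
adjacent to all long ones. -/
theorem n1_struct {i g : M} (hi : i ∈ ΦL) (hg : g ∈ ΦL) (hsi : s i = 2) (hsg : s g = 2)
    (hgi : g ≠ i) (hig : B i g ≠ 0) : ∃ u ∈ ΦS, s u = 2 ∧ (∀ v ∈ ΦS, s v = 2 → v = u) ∧
      ∀ k ∈ ΦL, s k = 2 → B k u = 2 := by
  obtain ⟨u, hu, hsu, hiu⟩ := h.exists_short hi hsi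
  have hiu0 : B i u ≠ 0 := by rw [hiu]; norm_num
  have hig2 : B i g = 2 := (h.f1LL hi hg hsi hsg (Ne.symm hgi)).resolve_left hig
  have hgu : B g u = 2 := h.n0 hi hg hu hsi hsg hsu hig hiu0
  -- u is the only short neighbour of a long neighbour of u
  have uniq : ∀ k ∈ ΦL, s k = 2 → B k u = 2 → ∀ v ∈ ΦS, s v = 2 → B k v ≠ 0 → v = u := by
    intro k hk hsk hku v hv hsv hkv
    have hku0 : B k u ≠ 0 := by rw [hku]; norm_num
    by_cases hki : k = i
    · subst hki
      exact h.n1_unique hi hg hsi hsg hgi hig hv hu hsv hsu hkv hiu0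
    · by_cases hik : B i k = 0
      · have e := h.eq_partner hi hk hu hsi hsk hsu hiu hku hik
        have e1 : B k g = 2 := by
          rw [e, map_sub, map_smul, LinearMap.sub_apply, LinearMap.smul_apply, smul_eq_mul,
            h.symm u g, hgu, hig2]
          ring
        have e2 : g ≠ k := by
          rintro rfl
          rw [hik] at hig2
          norm_num at hig2
        exact h.n1_unique hk hg hsk hsg e2 (by rw [e1]; norm_num) hv hu hsv hsu hkv hku0
      · exact h.n1_unique hk hi hsk hsi (Ne.symm hki) (by rw [h.symm]; exact hik) hv hu hsv hsu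
          hkv hku0
  -- no short neighbours of u
  have nos : ∀ v ∈ ΦS, s v = 2 → B u v ≠ 0 → v = u := by
    intro v hv hsv huv
    by_contra hne
    have huv1 : B u v = 1 := (h.f1SS hu hv hsu hsv (Ne.symm hne)).resolve_left huv
    have hiv : B i v = 0 := by
      by_contra hiv
      exact hne (uniq i hi hsi hiu v hv hsv hiv)
    obtain ⟨h1, h2, h3⟩ := h.short_sum hi hv hu hsi hsv hsu hiu huv1 hiv
    have h4 := uniq i hi hsi hiu _ h1 h2 (by rw [h3]; norm_num)
    have h5 : v = (2 : K) • u - i := by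
      rw [two_smul]
      rw [sub_add_eq_add_sub, sub_eq_iff_eq_add] at h4
      rw [← h4]; abel
    obtain ⟨h6, _⟩ := h.partner hi hsi hu hsu hiu
    rw [← h5] at h6
    exact h.long_ne_short h6 hv
  have key : ∀ b, Relation.ReflTransGen (Adj B s ΦL ΦS) u b → b = u ∨ (b ∈ ΦL ∧ B b u = 2) := by
    intro b hb
    induction hb with
    | refl => exact Or.inl rfl
    | @tail b c _ hbc ih =>
      obtain ⟨hb, hc, hsb, hsc, hbc⟩ := hbc
      rcases ih with rfl | ⟨hbL, hbu⟩
      · rcases hc with hc | hc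
        · exact Or.inr ⟨hc, (h.f1LS hc hu hsc hsb).resolve_left (by rw [h.symm]; exact hbc)⟩
        · exact Or.inl (nos c hc hsc hbc)
      · rcases hc with hc | hc
        · exact Or.inr ⟨hc, h.n0 hbL hc hu hsb hsc hsu hbc (by rw [hbu]; norm_num)⟩
        · exact Or.inl (uniq b hbL hsb hbu c hc hsc hbc)
  refine ⟨u, hu, hsu, ?_, ?_⟩
  · intro v hv hsv
    rcases key v (h.reach (Or.inr hu) hsu (Or.inr hv) hsv) with h1 | h1
    · exact h1
    · exact absurd hv (h.long_ne_short h1.1)
  · intro k hk hsk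
    rcases key k (h.reach (Or.inr hu) hsu (Or.inl hk) hsk) with h1 | h1
    · rw [h1] at hk
      exact absurd hu (h.long_ne_short hk)
    · exact h1.2


end TL

/-- The situation of `n1_struct`. -/
structure N1 (B : LinearMap.BilinForm K M) (s : M →ₗ[K] K) (ΦL ΦS X : Finset M) (u : M) :
    Prop where
  h : TL B s ΦL ΦS X
  mem : u ∈ ΦS
  su : s u = 2
  uniq : ∀ v ∈ ΦS, s v = 2 → v = u
  adj : ∀ k ∈ ΦL, s k = 2 → B k u = 2

namespace N1

variable {u : M} (H : N1 B s ΦL ΦS X u)
include H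

/-- every weight of value one pairs to one with `u` -/
theorem xu {x : M} (hx : x ∈ X) (hsx : s x = 1) : B x u = 1 := by
  rcases H.h.posS hx H.mem H.su hsx with h1 | h1
  · exfalso
    have h2 : ∀ a ∈ ΦL ∪ ΦS, s a = 2 → B x a = 0 := by
      intro a ha hsa
      rcases Finset.mem_union.mp ha with ha | ha
      · obtain ⟨h3, h4⟩ := H.h.partner ha hsa H.mem H.su (H.adj a ha hsa)
        have h5 := H.h.posL hx h3 h4 hsx
        rw [map_sub, map_smul, h1, smul_zero, zero_sub] at h5
        rcases H.h.posL hx ha hsa hsx with h6 | h6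
        · exact h6
        · exfalso
          rw [h6] at h5
          rcases h5 with h5 | h5 <;> norm_num at h5
      · rw [H.uniq a ha hsa, h1]
    have h3 := H.h.hit x h2
    have h4 := H.h.sep x hx (-x) (H.h.xneg x hx) (fun a ha => by
      rw [map_neg, LinearMap.neg_apply, h3 a ha, neg_zero])
    have h5 : s x = - s x := by
      conv_lhs => rw [h4]
      rw [map_neg]
    rw [hsx] at h5
    norm_num at h5
  · exact h1

theorem xpartner {x k : M} (hx : x ∈ X) (hsx : s x = 1) : B x ((2 : K) • u - k) = 2 - B x k := by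
  rw [map_sub, map_smul, H.xu hx hsx, smul_eq_mul]; ring

theorem partner {k : M} (hk : k ∈ ΦL) (hsk : s k = 2) :
    (2 : K) • u - k ∈ ΦL ∧ s ((2 : K) • u - k) = 2 :=
  H.h.partner hk hsk H.mem H.su (H.adj k hk hsk)

theorem eq_partner {k l : M} (hk : k ∈ ΦL) (hl : l ∈ ΦL) (hsk : s k = 2) (hsl : s l = 2)
    (hkl : B k l = 0) : l = (2 : K) • u - k :=
  H.h.eq_partner hk hl H.mem hsk hsl H.su (H.adj k hk hsk) (H.adj l hl hsl) hkl

/-- a weight is determined by the long roots of value two -/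
theorem ext {x y : M} (hx : x ∈ X) (hy : y ∈ X) (hsx : s x = 1) (hsy : s y = 1)
    (hxy : ∀ k ∈ ΦL, s k = 2 → B x k = B y k) : x = y := by
  apply H.h.sep x hx y hy
  have h1 := H.h.hit (x - y) (fun a ha hsa => by
    rw [map_sub, LinearMap.sub_apply]
    rcases Finset.mem_union.mp ha with ha | ha
    · rw [hxy a ha hsa, sub_self]
    · rw [H.uniq a ha hsa, H.xu hx hsx, H.xu hy hsy, sub_self])
  intro a ha
  have := h1 a ha
  rw [map_sub, LinearMap.sub_apply] at this
  linear_combination this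

/-- the flip -/
theorem flip {x k : M} (hx : x ∈ X) (hsx : s x = 1) (hk : k ∈ ΦL) (hsk : s k = 2)
    (hxk : B x k = 2) : x - (k - u) ∈ X ∧ s (x - (k - u)) = 1 ∧ B (x - (k - u)) k = 0 ∧
      ∀ l ∈ ΦL, s l = 2 → l ≠ k → l ≠ (2 : K) • u - k → B (x - (k - u)) l = B x l := by
  have h1 := (H.h.subLS k hk u H.mem (H.adj k hk hsk)).1
  refine ⟨H.h.xsubS x hx _ h1 ?_, ?_, ?_, ?_⟩
  · rw [map_sub, hxk, H.xu hx hsx]; norm_num
  · rw [map_sub, map_sub, hsk, H.su, hsx]; ring
  · rw [map_sub, map_sub, LinearMap.sub_apply, LinearMap.sub_apply, hxk, H.h.four k hk,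
      H.h.symm u k, H.adj k hk hsk]
    ring
  · intro l hl hsl hlk hlk'
    have h2 : B k l = 2 := by
      rcases H.h.f1LL hk hl hsk hsl (Ne.symm hlk) with h3 | h3
      · exact absurd (H.eq_partner hk hl hsk hsl h3) hlk'
      · exact h3
    rw [map_sub, map_sub, LinearMap.sub_apply, LinearMap.sub_apply, h2, H.h.symm u l,
      H.adj l hl hsl]
    ring


/-! ### counting -/

open Classical in
/-- the long roots of value two which pair to one with `x` -/
noncomputable def T (_ : N1 B s ΦL ΦS X u) (x : M) : Finset M :=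
  ΦL.filter (fun k => s k = 2 ∧ B x k = 2)

theorem mem_T {x k : M} : k ∈ H.T x ↔ k ∈ ΦL ∧ s k = 2 ∧ B x k = 2 := by
  classical
  rw [T, Finset.mem_filter]

theorem surj {x : M} (hx : x ∈ X) (hsx : s x = 1) (E : Finset M) (hE : E ⊆ H.T x) :
    ∃ y ∈ X, s y = 1 ∧ ∀ k ∈ H.T x, (B y k = 2 ↔ k ∉ E) := by
  induction E using Finset.induction_on with
  | empty =>
    refine ⟨x, hx, hsx, fun k hk => ?_⟩
    simp [(H.mem_T.mp hk).2.2]
  | @insert e E he ih =>
    obtain ⟨y, hy, hsy, hyk⟩ := ih (fun k hk => hE (Finset.mem_insert_of_mem hk))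
    have heT := hE (Finset.mem_insert_self e E)
    obtain ⟨heL, hse, hxe⟩ := H.mem_T.mp heT
    have hye : B y e = 2 := (hyk e heT).mpr he
    obtain ⟨h1, h2, h3, h4⟩ := H.flip hy hsy heL hse hye
    refine ⟨_, h1, h2, fun l hl => ?_⟩
    by_cases hle : l = e
    · subst hle
      rw [h3]
      simp
    · obtain ⟨hlL, hsl, hxl⟩ := H.mem_T.mp hl
      have hlp : l ≠ (2 : K) • u - e := by
        intro e1
        rw [e1, H.xpartner hx hsx, hxe] at hxl
        norm_num at hxl
      rw [h4 l hlL hsl hle hlp, hyk l hl]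
      simp [hle]

theorem inj {x y z : M} (hx : x ∈ X) (hsx : s x = 1) (hy : y ∈ X) (hz : z ∈ X)
    (hsy : s y = 1) (hsz : s z = 1) (hyz : ∀ k ∈ H.T x, (B y k = 2 ↔ B z k = 2)) : y = z := by
  have key : ∀ k ∈ H.T x, B y k = B z k := by
    intro k hk
    obtain ⟨hkL, hsk, _⟩ := H.mem_T.mp hk
    rcases H.h.posL hy hkL hsk hsy with h1 | h1
    · rcases H.h.posL hz hkL hsk hsz with h2 | h2
      · rw [h1, h2]
      · have := (hyz k hk).mpr h2
        rw [h1] at this
        norm_num at this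
    · rw [h1, (hyz k hk).mp h1]
  refine H.ext hy hz hsy hsz fun k hk hsk => ?_
  rcases H.h.posL hx hk hsk hsx with h1 | h1
  · obtain ⟨h2, h3⟩ := H.partner hk hsk
    have h4 := key _ (H.mem_T.mpr ⟨h2, h3, by rw [H.xpartner hx hsx, h1]; ring⟩)
    rw [H.xpartner hy hsy, H.xpartner hz hsz] at h4
    linear_combination -h4
  · exact key k (H.mem_T.mpr ⟨hk, hsk, h1⟩)

open Classical in
theorem card_pos {x : M} (hx : x ∈ X) (hsx : s x = 1) :
    (X.filter (fun y => s y = 1)).card = 2 ^ (H.T x).card := by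
  rw [← Finset.card_powerset]
  refine Finset.card_bij (fun y _ => (H.T x).filter (fun k => B y k = 2)) ?_ ?_ ?_
  · intro y _
    rw [Finset.mem_powerset]
    exact Finset.filter_subset _ _
  · intro y hy z hz hyz
    rw [Finset.mem_filter] at hy hz
    refine H.inj hx hsx hy.1 hz.1 hy.2 hz.2 fun k hk => ?_
    have h1 := Finset.ext_iff.mp hyz k
    simp only [Finset.mem_filter, hk, true_and] at h1
    exact h1
  · intro D hD
    rw [Finset.mem_powerset] at hD
    obtain ⟨y, hy, hsy, hyk⟩ := H.surj hx hsx (H.T x \ D) Finset.sdiff_subset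
    refine ⟨y, Finset.mem_filter.mpr ⟨hy, hsy⟩, ?_⟩
    ext k
    rw [Finset.mem_filter]
    constructor
    · rintro ⟨h1, h2⟩
      have h3 := (hyk k h1).mp h2
      rw [Finset.mem_sdiff] at h3
      by_contra h4
      exact h3 ⟨h1, h4⟩
    · intro h1
      refine ⟨hD h1, (hyk k (hD h1)).mpr ?_⟩
      rw [Finset.mem_sdiff]
      exact fun h2 => h2.2 h1

open Classical in
theorem card_root {x i : M} (hx : x ∈ X) (hsx : s x = 1) (hi : i ∈ H.T x) :
    (X.filter (fun y => B y i = 2)).card = 2 ^ ((H.T x).card - 1) := by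
  obtain ⟨hiL, hsi, _⟩ := H.mem_T.mp hi
  rw [← Finset.card_erase_of_mem hi, ← Finset.card_powerset]
  refine Finset.card_bij (fun y _ => ((H.T x).erase i).filter (fun k => B y k = 2)) ?_ ?_ ?_
  · intro y _
    rw [Finset.mem_powerset]
    exact Finset.filter_subset _ _
  · intro y hy z hz hyz
    rw [Finset.mem_filter] at hy hz
    refine H.inj hx hsx hy.1 hz.1 (H.h.f2L hy.1 hiL hsi hy.2) (H.h.f2L hz.1 hiL hsi hz.2)
      fun k hk => ?_
    by_cases hki : k = i
    · subst hki
      exact ⟨fun _ => hz.2, fun _ => hy.2⟩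
    · have h1 := Finset.ext_iff.mp hyz k
      simp only [Finset.mem_filter, Finset.mem_erase, hk, true_and, hki, ne_eq, not_false_eq_true]
        at h1
      exact h1
  · intro D hD
    rw [Finset.mem_powerset] at hD
    obtain ⟨y, hy, hsy, hyk⟩ := H.surj hx hsx (H.T x \ insert i D) Finset.sdiff_subset
    have hyi : B y i = 2 := by
      refine (hyk i hi).mpr ?_
      rw [Finset.mem_sdiff]
      exact fun h2 => h2.2 (Finset.mem_insert_self i D)
    refine ⟨y, Finset.mem_filter.mpr ⟨hy, hyi⟩, ?_⟩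
    ext k
    rw [Finset.mem_filter]
    constructor
    · rintro ⟨h1, h2⟩
      rw [Finset.mem_erase] at h1
      have h3 := (hyk k h1.2).mp h2
      rw [Finset.mem_sdiff] at h3
      by_contra h4
      refine h3 ⟨h1.2, fun h5 => ?_⟩
      rcases Finset.mem_insert.mp h5 with h6 | h6
      · exact h1.1 h6
      · exact h4 h6
    · intro h1
      refine ⟨hD h1, (hyk k (Finset.mem_of_mem_erase (hD h1))).mpr ?_⟩
      rw [Finset.mem_sdiff]
      exact fun h2 => h2.2 (Finset.mem_insert_of_mem h1)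

open Classical in
theorem card_X {x : M} (hx : x ∈ X) (hsx : s x = 1) :
    X.card = 2 ^ ((H.T x).card + 1) := by
  rw [← Finset.card_filter_add_card_filter_not (fun y => s y = 1)]
  have : (X.filter (fun y => ¬ s y = 1)).card = (X.filter (fun y => s y = 1)).card := by
    refine Finset.card_bij (fun y _ => -y) ?_ ?_ ?_
    · intro y hy
      rw [Finset.mem_filter] at hy ⊢
      refine ⟨H.h.xneg y hy.1, ?_⟩
      rw [map_neg, (H.h.sx y hy.1).resolve_left hy.2, neg_neg]
    · intro y _ z _ hyz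
      exact neg_injective hyz
    · intro y hy
      rw [Finset.mem_filter] at hy
      refine ⟨-y, ?_, neg_neg y⟩
      rw [Finset.mem_filter]
      refine ⟨H.h.xneg y hy.1, ?_⟩
      rw [map_neg, hy.2]
      norm_num
  rw [this, H.card_pos hx hsx]
  ring

/-! ### parity -/

/-- the pairing with the sum of the coroots of the members of `R x` -/
noncomputable def Y (x m : M) : K := B m u + ∑ k ∈ H.T x, B m k / 2

theorem Y_long2 {x b : M} (hx : x ∈ X) (hb : b ∈ H.T x) :
    H.Y x b = ((H.T x).card + 1 : ℕ) + 2 := by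
  obtain ⟨hbL, hsb, hxb⟩ := H.mem_T.mp hb
  rw [Y, ← Finset.add_sum_erase _ _ hb, H.adj b hbL hsb, H.h.four b hbL]
  have h1 : ∑ k ∈ (H.T x).erase b, B b k / 2 = ∑ k ∈ (H.T x).erase b, (1 : K) := by
    refine Finset.sum_congr rfl fun k hk => ?_
    obtain ⟨hkb, hk⟩ := Finset.mem_erase.mp hk
    obtain ⟨hkL, hsk, hxk⟩ := H.mem_T.mp hk
    rw [(H.h.f1LL hbL hkL hsb hsk (Ne.symm hkb)).resolve_left
      (H.h.f3LL hx hbL hkL hsb hsk hxb hxk)]
    norm_num
  rw [h1, Finset.sum_const, nsmul_eq_mul, mul_one]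
  have h2 := Finset.card_erase_add_one hb
  have h3 : (((H.T x).erase b).card : K) + 1 = (H.T x).card := by exact_mod_cast h2
  push_cast
  linear_combination h3

theorem Y_short2 (x : M) : H.Y x u = ((H.T x).card + 1 : ℕ) + 1 := by
  rw [Y, H.h.two u H.mem]
  have h1 : ∑ k ∈ H.T x, B u k / 2 = ∑ k ∈ H.T x, (1 : K) := by
    refine Finset.sum_congr rfl fun k hk => ?_
    obtain ⟨hkL, hsk, hxk⟩ := H.mem_T.mp hk
    rw [H.h.symm, H.adj k hkL hsk]
    norm_num
  rw [h1, Finset.sum_const, nsmul_eq_mul, mul_one]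
  push_cast
  ring

/-- the members of `T x` are not both partners -/
theorem not_partner {x k : M} (hx : x ∈ X) (hsx : s x = 1) (hk : k ∈ H.T x) :
    (2 : K) • u - k ∉ H.T x := by
  intro h1
  have h2 := (H.mem_T.mp h1).2.2
  rw [H.xpartner hx hsx, (H.mem_T.mp hk).2.2] at h2
  norm_num at h2

theorem mem_or {x k : M} (hx : x ∈ X) (hsx : s x = 1) (hk : k ∈ ΦL) (hsk : s k = 2) :
    k ∈ H.T x ∨ (2 : K) • u - k ∈ H.T x := by
  rcases H.h.posL hx hk hsk hsx with h1 | h1
  · right
    obtain ⟨h2, h3⟩ := H.partner hk hsk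
    exact H.mem_T.mpr ⟨h2, h3, by rw [H.xpartner hx hsx, h1]; ring⟩
  · left
    exact H.mem_T.mpr ⟨hk, hsk, h1⟩

/-- a short root of value zero is orthogonal to `u` -/
theorem short_orth {b : M} (hb : b ∈ ΦS) (hsb : s b = 0) : B b u = 0 := by
  have hne : b ≠ u := by rintro rfl; rw [H.su] at hsb; norm_num at hsb
  have hne' : b ≠ -u := by
    rintro rfl
    rw [map_neg, H.su] at hsb
    norm_num at hsb
  have hb0 : b ≠ 0 := by
    rintro rfl
    have := H.h.two 0 hb
    simp at this
  rcases H.h.pairSS b hb u H.mem hne hne' with h1 | h1 | h1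
  · exfalso
    have h2 := H.h.negS _ (H.h.subSS (-b) (H.h.negS b hb) u H.mem (by
      rw [map_neg, LinearMap.neg_apply, h1]; ring))
    have h3 := H.uniq _ h2 (by rw [map_neg, map_sub, map_neg, hsb, H.su]; ring)
    apply hb0
    rw [neg_sub, sub_neg_eq_add] at h3
    exact left_eq_add.mp h3.symm
  · exact h1
  · exfalso
    have h2 := H.h.negS _ (H.h.subSS b hb u H.mem h1)
    have h3 := H.uniq _ h2 (by rw [map_neg, map_sub, hsb, H.su]; ring)
    apply hb0
    rw [neg_sub] at h3
    exact sub_eq_self.mp h3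

/-- the sum of `u` and a short root of value zero is a long root -/
theorem short_add {b : M} (hb : b ∈ ΦS) (hsb : s b = 0) : u + b ∈ ΦL ∧ s (u + b) = 2 := by
  have hbu := H.short_orth hb hsb
  have hex : ∃ k ∈ ΦL, s k = 2 ∧ B b k ≠ 0 := by
    by_contra hcon
    push Not at hcon
    have h1 := H.h.hit b (fun a ha hsa => by
      rcases Finset.mem_union.mp ha with ha | ha
      · exact hcon a ha hsa
      · rw [H.uniq a ha hsa, hbu]) b (Finset.mem_union_right _ hb)
    rw [H.h.two b hb] at h1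
    norm_num at h1
  have key : ∀ k ∈ ΦL, s k = 2 → B b k = 2 → k = u + b := by
    intro k hk hsk hbk
    have h2 := (H.h.subLS k hk b hb (by rw [H.h.symm]; exact hbk)).1
    have h3 := H.uniq _ h2 (by rw [map_sub, hsk, hsb]; ring)
    rw [← h3]; abel
  obtain ⟨k, hk, hsk, hbk⟩ := hex
  rcases H.h.pairLS k hk b hb with h1 | h1 | h1
  · obtain ⟨h2, h3⟩ := H.partner hk hsk
    have h4 := key _ h2 h3 (by rw [map_sub, map_smul, hbu, H.h.symm b k, h1]; simp)
    rw [← h4]
    exact ⟨h2, h3⟩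
  · rw [H.h.symm] at h1
    exact absurd h1 hbk
  · have h4 := key k hk hsk (by rw [H.h.symm]; exact h1)
    rw [← h4]
    exact ⟨hk, hsk⟩

theorem Y_short0 {x b : M} (hx : x ∈ X) (hsx : s x = 1) (hb : b ∈ ΦS) (hsb : s b = 0)
    (hxb : B x b = 1) : H.Y x b = 1 := by
  have hbu := H.short_orth hb hsb
  obtain ⟨h1, h2⟩ := H.short_add hb hsb
  have hT : u + b ∈ H.T x := H.mem_T.mpr ⟨h1, h2, by rw [map_add, H.xu hx hsx, hxb]; norm_num⟩
  have key : ∀ k ∈ ΦL, s k = 2 → B b k = 2 → k = u + b := by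
    intro k hk hsk hbk
    have h2 := (H.h.subLS k hk b hb (by rw [H.h.symm]; exact hbk)).1
    have h3 := H.uniq _ h2 (by rw [map_sub, hsk, hsb]; ring)
    rw [← h3]; abel
  rw [Y, hbu, Finset.sum_eq_single_of_mem (u + b) hT, map_add, hbu, H.h.two b hb]
  · norm_num
  · intro k hk hne
    obtain ⟨hkL, hsk, hxk⟩ := H.mem_T.mp hk
    rcases H.h.pairLS k hkL b hb with h3 | h3 | h3
    · exfalso
      obtain ⟨h4, h5⟩ := H.partner hkL hsk
      have h6 := key _ h4 h5 (by rw [map_sub, map_smul, hbu, H.h.symm b k, h3]; simp)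
      apply H.not_partner hx hsx hk
      rw [h6]
      exact hT
    · rw [H.h.symm, h3, zero_div]
    · exact absurd (key k hkL hsk (by rw [H.h.symm]; exact h3)) hne

theorem Y_long0 {x b : M} (hx : x ∈ X) (hsx : s x = 1) (hb : b ∈ ΦL) (hsb : s b = 0)
    (hxb : B x b = 2) : H.Y x b = 2 := by
  have hbu : B b u = 0 := H.h.orthLS H.mem hb H.su hsb
  -- values on T
  have hval : ∀ k ∈ H.T x, B b k = 0 ∨ B b k = 2 := by
    intro k hk
    obtain ⟨hkL, hsk, hxk⟩ := H.mem_T.mp hk
    have hne : b ≠ k := by rintro rfl; rw [hsk] at hsb; norm_num at hsb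
    have hne' : b ≠ -k := by
      rintro rfl
      rw [map_neg, hsk] at hsb
      norm_num at hsb
    rcases H.h.pairLL b hb k hkL hne hne' with h1 | h1 | h1
    · exfalso
      have h2 := H.h.subLL (-b) (H.h.negL b hb) k hkL (by
        rw [map_neg, LinearMap.neg_apply, h1]; ring)
      have h3 := H.h.smallL x hx _ h2
      rw [map_sub, map_neg, hxb, hxk] at h3
      rcases h3 with h3 | h3 | h3 <;> norm_num at h3
    · exact Or.inl h1
    · exact Or.inr h1
  have hex : ∃ k ∈ H.T x, B b k = 2 := by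
    by_contra hcon
    push Not at hcon
    have h0 : ∀ k ∈ H.T x, B b k = 0 := fun k hk => (hval k hk).resolve_right (hcon k hk)
    have h1 := H.h.hit b (fun a ha hsa => by
      rcases Finset.mem_union.mp ha with ha | ha
      · rcases H.mem_or hx hsx ha hsa with h2 | h2
        · exact h0 a h2
        · have := h0 _ h2
          rw [map_sub, map_smul, hbu] at this
          simpa using this
      · rw [H.uniq a ha hsa, hbu]) b (Finset.mem_union_left _ hb)
    rw [H.h.four b hb] at h1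
    norm_num at h1
  obtain ⟨k, hk, hbk⟩ := hex
  obtain ⟨hkL, hsk, hxk⟩ := H.mem_T.mp hk
  -- the partner of k - b
  have h1 := H.h.subLL k hkL b hb (by rw [H.h.symm]; exact hbk)
  have h2 : s (k - b) = 2 := by rw [map_sub, hsk, hsb]; ring
  obtain ⟨h3, h4⟩ := H.partner h1 h2
  have hk2 : (2 : K) • u - (k - b) ∈ H.T x := H.mem_T.mpr ⟨h3, h4, by
    rw [H.xpartner hx hsx, map_sub, hxk, hxb]; ring⟩
  have hkk : B k ((2 : K) • u - (k - b)) = 2 := by
    rw [map_sub, map_sub, map_smul, H.adj k hkL hsk, H.h.four k hkL, H.h.symm k b, hbk,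
      smul_eq_mul]
    ring
  have hne : k ≠ (2 : K) • u - (k - b) := by
    intro e
    rw [← e, H.h.four k hkL] at hkk
    norm_num at hkk
  rw [Y, hbu, Finset.sum_eq_add_of_mem _ _ hk hk2 hne]
  · rw [hbk, map_sub, map_sub, map_smul, hbu, hbk, H.h.four b hb]
    norm_num
  · rintro l hl ⟨hlk, hlk2⟩
    obtain ⟨hlL, hsl, hxl⟩ := H.mem_T.mp hl
    rcases hval l hl with h5 | h5
    · rw [h5, zero_div]
    · exfalso
      apply hlk2
      apply H.eq_partner h1 hlL h2 hsl
      rw [map_sub, LinearMap.sub_apply, h5, (H.h.f1LL hkL hlL hsk hsl (Ne.symm hlk)).resolve_left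
        (H.h.f3LL hx hkL hlL hsk hsl hxk hxl)]
      ring


theorem Y_add (x m m' : M) : H.Y x (m + m') = H.Y x m + H.Y x m' := by
  simp only [Y, map_add, LinearMap.add_apply, add_div, Finset.sum_add_distrib]
  ring

theorem Y_sum (x : M) (A : Finset M) : H.Y x (∑ b ∈ A, b) = ∑ b ∈ A, H.Y x b := by
  induction A using Finset.induction_on with
  | empty => simp [Y]
  | insert a A ha ih => rw [Finset.sum_insert ha, Finset.sum_insert ha, Y_add, ih]

theorem Y_self {x : M} (hx : x ∈ X) (hsx : s x = 1) : H.Y x x = ((H.T x).card + 1 : ℕ) := by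
  rw [Y, H.xu hx hsx]
  have h1 : ∑ k ∈ H.T x, B x k / 2 = ∑ k ∈ H.T x, (1 : K) := by
    refine Finset.sum_congr rfl fun k hk => ?_
    rw [(H.mem_T.mp hk).2.2]
    norm_num
  rw [h1, Finset.sum_const, nsmul_eq_mul, mul_one]
  push_cast
  ring

/-- two short roots are not strongly orthogonal -/
theorem short_short {b c : M} (hb : b ∈ ΦS) (hc : c ∈ ΦS) (hsb : s b = 0 ∨ s b = 2)
    (hsc : s c = 0 ∨ s c = 2) (hbc : b ≠ c) (hort : B b c = 0) : b + c ∈ ΦL := by
  rcases hsb with hsb | hsb <;> rcases hsc with hsc | hsc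
  · obtain ⟨h1, h2⟩ := H.short_add hb hsb
    obtain ⟨h3, h4⟩ := H.short_add hc hsc
    obtain ⟨h5, h6⟩ := H.partner h3 h4
    have h7 := H.h.subLL _ h1 _ h5 (by
      simp only [map_sub, map_smul, map_add, LinearMap.add_apply, smul_eq_mul, H.h.two u H.mem,
        H.short_orth hb hsb, H.h.symm u c, H.short_orth hc hsc, hort]
      ring)
    have e : u + b - ((2 : K) • u - (u + c)) = b + c := by
      rw [two_smul]; abel
    rwa [e] at h7
  · rw [H.uniq c hc hsc, add_comm]
    exact (H.short_add hb hsb).1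
  · rw [H.uniq b hb hsb]
    exact (H.short_add hc hsc).1
  · exact absurd ((H.uniq b hb hsb).trans (H.uniq c hc hsc).symm) hbc

theorem parity {x : M} (hx : x ∈ X) (hsx : s x = 1) :
    ((H.T x).card + 1) % 4 = 0 ∨ ((H.T x).card + 1) % 4 = 3 := by
  obtain ⟨A, hA, hA1, hA2, hA3, hodd⟩ := H.h.par x hx
  -- values of the members of A
  have hnn : ∀ b ∈ A, s b = 0 ∨ s b = 2 := by
    intro b hb
    have hbm := Finset.mem_union.mp (hA hb)
    have hb1 := hA1 b hb
    rcases hbm with hbL | hbS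
    · rw [H.h.coL hbL] at hb1
      rcases H.h.sL hbL with h1 | h1 | h1
      · exact Or.inl h1
      · exact Or.inr h1
      · exfalso
        have h2 := H.h.sx _ (H.h.xsubL x hx b hbL (by linear_combination 2 * hb1))
        rw [map_sub, h1, hsx] at h2
        rcases h2 with h2 | h2 <;> norm_num at h2
    · rw [H.h.coS hbS] at hb1
      rcases H.h.sS hbS with h1 | h1 | h1
      · exact Or.inl h1
      · exact Or.inr h1
      · exfalso
        have h2 := H.h.sx _ (H.h.xsubS x hx b hbS hb1)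
        rw [map_sub, h1, hsx] at h2
        rcases h2 with h2 | h2 <;> norm_num at h2
  have hsum : ∑ b ∈ A, s b = 2 := by
    rw [← map_sum, hA3, map_add, hsx]; norm_num
  have hYb : ∀ b ∈ A, H.Y x b = ((H.T x).card + 1 : ℕ) * (s b / 2) +
      (if b ∈ ΦL then 2 else 1) := by
    intro b hb
    have hb1 := hA1 b hb
    rcases Finset.mem_union.mp (hA hb) with hbL | hbS
    · rw [if_pos hbL]
      rw [H.h.coL hbL] at hb1
      have hb2 : B x b = 2 := by linear_combination 2 * hb1
      rcases hnn b hb with h1 | h1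
      · rw [H.Y_long0 hx hsx hbL h1 hb2, h1]; ring
      · rw [H.Y_long2 hx (H.mem_T.mpr ⟨hbL, h1, hb2⟩), h1]; ring
    · rw [if_neg (fun hbL => H.h.long_ne_short hbL hbS)]
      rw [H.h.coS hbS] at hb1
      rcases hnn b hb with h1 | h1
      · rw [H.Y_short0 hx hsx hbS h1 hb1, h1]; ring
      · rw [H.uniq b hbS h1, H.Y_short2, H.su]; ring
  have htot : 2 * (((H.T x).card + 1 : ℕ) : K) = ((H.T x).card + 1 : ℕ) +
      (2 * ((A.filter (fun b => b ∈ ΦL)).card : K) + (A.filter (fun b => b ∉ ΦL)).card) := by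
    have h1 : H.Y x (x + x) = 2 * (((H.T x).card + 1 : ℕ) : K) := by
      rw [Y_add, H.Y_self hx hsx]; ring
    rw [← h1, ← hA3, Y_sum, Finset.sum_congr rfl hYb, Finset.sum_add_distrib, ← Finset.mul_sum,
      ← Finset.sum_div, hsum, Finset.sum_ite, Finset.sum_const, Finset.sum_const,
      nsmul_eq_mul, nsmul_eq_mul]
    ring
  have hle : (A.filter (fun b => b ∉ ΦL)).card ≤ 1 := by
    rw [Finset.card_le_one]
    intro b hb c hc
    rw [Finset.mem_filter] at hb hc
    by_contra hbc
    have hbS := (Finset.mem_union.mp (hA hb.1)).resolve_left hb.2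
    have hcS := (Finset.mem_union.mp (hA hc.1)).resolve_left hc.2
    obtain ⟨h1, h2⟩ := hA2 b hb.1 c hc.1 hbc
    exact h2 (Finset.mem_union_left _
      (H.short_short hbS hcS (hnn b hb.1) (hnn c hc.1) hbc h1))
  have hcard := Finset.card_filter_add_card_filter_not (s := A) (fun b => b ∈ ΦL)
  have htot2 : 2 * ((H.T x).card + 1) = ((H.T x).card + 1) +
      (2 * (A.filter (fun b => b ∈ ΦL)).card + (A.filter (fun b => b ∉ ΦL)).card) := by
    exact_mod_cast htot
  obtain ⟨m, hm⟩ := hodd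
  omega

end N1

open Classical in
/-- The classification of systems with two root lengths. -/
theorem TL.main (h : TL B s ΦL ΦS X) : ∃ i ∈ ΦL, s i = 2 ∧
    ((X.filter (fun x => B x i = 2)).card = 1 ∨
    (∃ n, (n % 4 = 0 ∨ n % 4 = 3) ∧ 3 ≤ n ∧ X.card = 2 ^ n ∧
      (X.filter (fun x => B x i = 2)).card = 2 ^ (n - 2))) := by
  obtain ⟨i, hi, hsi⟩ := h.exL
  refine ⟨i, hi, hsi, ?_⟩
  by_cases hno : ∀ g ∈ ΦL, s g = 2 → g ≠ i → B i g = 0
  · exact Or.inl (h.n2_card hi hsi hno)
  right
  push Not at hno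
  obtain ⟨g, hg, hsg, hgi, hig⟩ := hno
  obtain ⟨u, hu, hsu, huniq, hadj⟩ := h.n1_struct hi hg hsi hsg hgi hig
  have H : N1 B s ΦL ΦS X u := ⟨h, hu, hsu, huniq, hadj⟩
  obtain ⟨x, hx, hxi⟩ := h.faithL i hi
  have hsx := h.f2L hx hi hsi hxi
  have hiT : i ∈ H.T x := H.mem_T.mpr ⟨hi, hsi, hxi⟩
  have hpar := H.parity hx hsx
  -- at least two elements
  have h2 : 2 ≤ (H.T x).card := by
    have hex : ∃ k ∈ H.T x, k ≠ i := by
      rcases H.mem_or hx hsx hg hsg with h1 | h1
      · exact ⟨g, h1, hgi⟩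
      · refine ⟨_, h1, ?_⟩
        intro e
        have e2 : B i g = 0 := by
          rw [← e, map_sub, map_smul, LinearMap.sub_apply, LinearMap.smul_apply, h.symm u g,
            hadj g hg hsg, h.four g hg, smul_eq_mul]
          ring
        exact hig e2
    obtain ⟨k, hk, hki⟩ := hex
    exact Finset.one_lt_card.mpr ⟨k, hk, i, hiT, hki⟩
  refine ⟨(H.T x).card + 1, hpar, by omega, H.card_X hx hsx, ?_⟩
  rw [H.card_root hx hsx hiT]
  congr 1

end OR
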